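import Mathlib
import Pool.Agent.Y724.Vj.Seq

set_option autoImplicit false

/-!
# Common factors of the coordinates of a curve: the algebra
-/

namespace Pool.Agent.Q51.VY

open Filter Topology Pool.Agent.TH932.Germs Pool.Agent.TH551.SU Pool.Agent.Y724.Vj

section gauss

variable {K : Type*} [Field K] (A : ValuationSubring K)

theorem first_max (G : Polynomial K) (hG : G ≠ 0) : ∃ i, G.coeff i ≠ 0 ∧
    (∀ k, A.valuation (G.coeff k) ≤ A.valuation (G.coeff i)) ∧
    ∀ k < i, A.valuation (G.coeff k) < A.valuation (G.coeff i) := by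
  classical
  obtain ⟨k0, hk0, hmax⟩ := Finset.exists_max_image G.support
    (fun k => A.valuation (G.coeff k)) (Polynomial.support_nonempty.2 hG)
  have hk00 : G.coeff k0 ≠ 0 := Polynomial.mem_support_iff.1 hk0
  have hall : ∀ k, A.valuation (G.coeff k) ≤ A.valuation (G.coeff k0) := by
    intro k
    by_cases hk : G.coeff k = 0
    · rw [hk, map_zero]
      exact zero_le
    · exact hmax k (Polynomial.mem_support_iff.2 hk)
  have hex : ∃ k, A.valuation (G.coeff k) = A.valuation (G.coeff k0) := ⟨k0, rfl⟩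
  refine ⟨Nat.find hex, ?_, ?_, ?_⟩
  · intro h0
    have h1 := Nat.find_spec hex
    rw [h0, map_zero] at h1
    exact hk00 ((map_eq_zero _).1 h1.symm)
  · intro k
    rw [Nat.find_spec hex]
    exact hall k
  · intro k hk
    rw [Nat.find_spec hex]
    exact lt_of_le_of_ne (hall k) (Nat.find_min hex hk)

/-- Gauss's lemma for a valuation -/
theorem gauss_val (G Q : Polynomial K) (hG : G ≠ 0) (hQ : Q ≠ 0) : ∃ i j w,
    (∀ k, A.valuation (G.coeff k) ≤ A.valuation (G.coeff i)) ∧
    (∀ k, A.valuation (Q.coeff k) ≤ A.valuation (Q.coeff j)) ∧ G.coeff i ≠ 0 ∧ Q.coeff j ≠ 0 ∧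
    A.valuation ((G * Q).coeff w) = A.valuation (G.coeff i) * A.valuation (Q.coeff j) := by
  classical
  obtain ⟨i, hi0, hi1, hi2⟩ := first_max A G hG
  obtain ⟨j, hj0, hj1, hj2⟩ := first_max A Q hQ
  refine ⟨i, j, i + j, hi1, hj1, hi0, hj0, ?_⟩
  have hvi : 0 < A.valuation (G.coeff i) := zero_lt_iff.2 ((Valuation.ne_zero_iff _).2 hi0)
  have hvj : 0 < A.valuation (Q.coeff j) := zero_lt_iff.2 ((Valuation.ne_zero_iff _).2 hj0)
  rw [Polynomial.coeff_mul, ← Finset.add_sum_erase _ _
    (show (i, j) ∈ Finset.HasAntidiagonal.antidiagonal (i + j) from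
      Finset.HasAntidiagonal.mem_antidiagonal.2 rfl), ← map_mul]
  apply Valuation.map_add_eq_of_lt_left
  apply Valuation.map_sum_lt
  · rw [map_mul]
    exact (mul_pos hvi hvj).ne'
  · rintro ⟨a, c⟩ hac
    rw [Finset.mem_erase, Finset.HasAntidiagonal.mem_antidiagonal] at hac
    obtain ⟨hne, hac⟩ := hac
    simp only at hac ⊢
    rw [map_mul, map_mul]
    rcases lt_trichotomy a i with h | h | h
    · calc A.valuation (G.coeff a) * A.valuation (Q.coeff c) ≤
          A.valuation (G.coeff a) * A.valuation (Q.coeff j) := mul_le_mul_right (hj1 c) _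
        _ < A.valuation (G.coeff i) * A.valuation (Q.coeff j) := mul_lt_mul_of_pos_right (hi2 a h) hvj
    · exfalso
      apply hne
      rw [Prod.mk.injEq]
      exact ⟨h, by omega⟩
    · calc A.valuation (G.coeff a) * A.valuation (Q.coeff c) ≤
          A.valuation (G.coeff i) * A.valuation (Q.coeff c) := mul_le_mul_left (hi1 a) _
        _ < A.valuation (G.coeff i) * A.valuation (Q.coeff j) :=
          mul_lt_mul_of_pos_left (hj2 c (by omega)) hvi

end gauss

section smooth

variable {s : ℕ}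

theorem smooth_dvd (b : Fin s → ℕ) (hb : ∀ v, (b v).Prime) (A : Finset (Fin s)) :
    ∀ (k : Fin s → ℕ) (z : ℕ), z ∣ ∏ v ∈ A, b v ^ k v → ∃ e : Fin s → ℕ, z = ∏ v ∈ A, b v ^ e v := by
  classical
  induction A using Finset.induction_on with
  | empty =>
    intro k z hz
    refine ⟨fun _ => 0, ?_⟩
    rw [Finset.prod_empty] at hz ⊢
    exact Nat.dvd_one.1 hz
  | insert a A ha ih =>
    intro k z hz
    rw [Finset.prod_insert ha] at hz
    obtain ⟨z1, z2, h1, h2, rfl⟩ := exists_dvd_and_dvd_of_dvd_mul hz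
    obtain ⟨m, -, rfl⟩ := (Nat.dvd_prime_pow (hb a)).1 h1
    obtain ⟨e, rfl⟩ := ih k z2 h2
    refine ⟨Function.update e a m, ?_⟩
    rw [Finset.prod_insert ha, Function.update_self]
    congr 1
    refine Finset.prod_congr rfl fun v hv => ?_
    rw [Function.update_of_ne (fun h => ha (by rw [← h]; exact hv))]

/-- the denominator of an `S`-integral number is bounded by the absolute values -/
theorem den_bound (b : Fin s → ℕ) (hb : ∀ v, (b v).Prime) (a : ℚ) (k : Fin s → ℕ) (z : ℤ)
    (hz : (z : ℚ) = (∏ v, (b v : ℚ) ^ k v) * a) (M : ℝ) (hM1 : 1 ≤ M)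
    (hM : ∀ v, wv b hb (some v) a ≤ M) : (a.den : ℝ) ≤ M ^ s := by
  classical
  set N : ℕ := ∏ v, b v ^ k v with hN
  have hN0 : N ≠ 0 := Finset.prod_ne_zero_iff.2 fun v _ => pow_ne_zero _ (hb v).ne_zero
  have hN0' : (N : ℚ) ≠ 0 := by exact_mod_cast hN0
  have hNe : (∏ v, (b v : ℚ) ^ k v) = (N : ℚ) := by
    rw [hN]
    push_cast
    rfl
  have h1 : a.den ∣ N := by
    have h2 := Rat.den_dvd z (N : ℤ)
    have h3 : Rat.divInt z (N : ℤ) = a := by
      rw [Rat.divInt_eq_div]
      push_cast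
      rw [hz, hNe]
      field_simp
    rw [h3] at h2
    exact_mod_cast h2
  obtain ⟨e, he⟩ := smooth_dvd b hb Finset.univ k a.den h1
  have h4 : ∀ v, ((b v : ℝ)) ^ e v ≤ M := by
    intro v
    by_cases hev : e v = 0
    · rw [hev, pow_zero]
      exact hM1
    · refine le_trans ?_ (hM v)
      have hp := Fact.mk (hb v)
      have h5 : b v ^ e v ∣ a.den := by
        rw [he]
        exact Finset.dvd_prod_of_mem (fun v => b v ^ e v) (Finset.mem_univ v)
      have h6 : ¬ ((b v : ℤ) ∣ a.num) := by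
        intro h
        have h7 : b v ∣ a.num.natAbs := Int.natCast_dvd.1 h
        have h8 : b v ∣ a.den := (dvd_pow_self _ hev).trans h5
        have h9 := Nat.dvd_gcd h7 h8
        rw [a.reduced] at h9
        exact (hb v).one_lt.ne' (Nat.dvd_one.1 h9)
      have h7 : padicNorm (b v) (a.num : ℚ) = 1 := (padicNorm.int_eq_one_iff _).2 h6
      have h8 : padicNorm (b v) ((a.den : ℤ) : ℚ) ≤ (b v : ℚ) ^ (-(e v : ℤ)) :=
        (padicNorm.dvd_iff_norm_le).1 (by exact_mod_cast h5)
      have hbv : (0 : ℚ) < (b v : ℚ) := by exact_mod_cast (hb v).pos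
      have h9 : padicNorm (b v) a = (padicNorm (b v) ((a.den : ℤ) : ℚ))⁻¹ := by
        conv_lhs => rw [← Rat.num_div_den a]
        rw [padicNorm.div, h7, one_div]
        norm_cast
      have h10 : 0 < padicNorm (b v) ((a.den : ℤ) : ℚ) := by
        refine lt_of_le_of_ne (padicNorm.nonneg _) (Ne.symm ?_)
        refine padicNorm.nonzero ?_
        exact_mod_cast a.den_ne_zero
      rw [wv_some, h9]
      have h11 : ((b v : ℚ)) ^ e v ≤ (padicNorm (b v) ((a.den : ℤ) : ℚ))⁻¹ := by
        rw [le_inv_comm₀ (by positivity) h10]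
        rw [zpow_neg, zpow_natCast] at h8
        exact h8
      exact_mod_cast h11
  rw [he]
  push_cast
  calc ∏ v, (b v : ℝ) ^ e v ≤ ∏ _v : Fin s, M :=
        Finset.prod_le_prod (fun v _ => by positivity) fun v _ => h4 v
    _ = M ^ s := by rw [Finset.prod_const, Finset.card_univ, Fintype.card_fin]

end smooth

end Pool.Agent.Q51.VY
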