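import Mathlib
import Pool.Agent.Q51.VY.CopA
import Pool.Agent.Y724.Vj.GT
import Pool.Agent.Y724.Vj.Main
import Pool.Agent.TH551.SU.CRV
import Pool.Agent.TH551.SU.CS

set_option autoImplicit false

/-!
# The coordinates of the curve of a germ of primitive points have no common factor but `X`
-/

namespace Pool.Agent.Q51.VY

open Filter Topology Pool.Agent.TH932.Germs Pool.Agent.TH551.SU Pool.Agent.Y724.Vj
open Pool.Agent.TH551.SU.SUI Pool.Agent.TH551.SU.CRV Pool.Agent.H533R3.SL

/-- the coefficients of a common divisor with value one at one -/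
theorem int_part {n : ℕ} (x : Fin (n + 1) → ℤ) (hprim : Finset.univ.gcd x = 1) (N : ℕ)
    (P : Fin (n + 1) → Polynomial ℤ) (hP1 : ∀ y, (P y).eval 1 = N * x y)
    (g : Polynomial ℚ) (hg1 : g.eval 1 = 1)
    (hdvd : ∀ y, g ∣ (P y).map (Int.castRingHom ℚ)) (w : ℕ) :
    ∃ z : ℤ, (z : ℚ) = N * g.coeff w := by
  classical
  have hg0 : g ≠ 0 := by
    rintro rfl
    simp at hg1
  obtain ⟨b, hbM, hb⟩ := IsLocalization.integerNormalization_spec (nonZeroDivisors ℤ) g
  set G1 : Polynomial ℤ := IsLocalization.integerNormalization (nonZeroDivisors ℤ) g with hG1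
  have hb0 : b ≠ 0 := nonZeroDivisors.ne_zero hbM
  have hb0' : (b : ℚ) ≠ 0 := by exact_mod_cast hb0
  have hb' : G1.map (Int.castRingHom ℚ) = Polynomial.C (b : ℚ) * g := by
    have h1 : (algebraMap ℤ ℚ) = Int.castRingHom ℚ := rfl
    rw [← h1, hb, zsmul_eq_mul]
    rfl
  have hG10 : G1 ≠ 0 := by
    intro h0
    rw [h0, Polynomial.map_zero] at hb'
    exact (mul_ne_zero (Polynomial.C_ne_zero.2 hb0') hg0) hb'.symm
  have hc0 : G1.content ≠ 0 := fun h => hG10 (Polynomial.content_eq_zero_iff.1 h)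
  have hc0' : (G1.content : ℚ) ≠ 0 := by exact_mod_cast hc0
  set G' := G1.primPart with hG'
  have hprimG : G'.IsPrimitive := G1.isPrimitive_primPart
  set c : ℚ := (G1.content : ℚ)⁻¹ * (b : ℚ) with hc
  have hcne : c ≠ 0 := mul_ne_zero (inv_ne_zero hc0') hb0'
  have hmap : G'.map (Int.castRingHom ℚ) = Polynomial.C c * g := by
    have h1 := hb'
    rw [G1.eq_C_content_mul_primPart, Polynomial.map_mul, Polynomial.map_C] at h1
    rw [hc, Polynomial.C_mul, mul_assoc, ← h1, ← mul_assoc, ← Polynomial.C_mul]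
    rw [show (G1.content : ℚ)⁻¹ * (Int.castRingHom ℚ) G1.content = 1 from by
      simp only [eq_intCast]
      exact inv_mul_cancel₀ hc0', Polynomial.C_1, one_mul]
  have hd2 : ∀ y, G' ∣ P y := by
    intro y
    rw [Polynomial.IsPrimitive.Int.dvd_iff_map_cast_dvd_map_cast G' (P y) hprimG, hmap]
    exact (IsUnit.mul_left_dvd (Polynomial.isUnit_C.2 (isUnit_iff_ne_zero.2 hcne))).2 (hdvd y)
  have hd3 : G'.eval 1 ∣ (N : ℤ) := by
    have h1 : ∀ y ∈ (Finset.univ : Finset (Fin (n + 1))), G'.eval 1 ∣ (N : ℤ) * x y := by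
      intro y _
      rw [← hP1]
      exact Polynomial.eval_dvd (hd2 y)
    have h2 := Finset.dvd_gcd h1
    rw [Finset.gcd_mul_left, hprim, mul_one, dvd_normalize_iff] at h2
    exact h2
  obtain ⟨m, hm⟩ := hd3
  have hc1 : ((G'.eval 1 : ℤ) : ℚ) = c := by
    have h1 := congrArg (Polynomial.eval 1) hmap
    rw [Polynomial.eval_mul, Polynomial.eval_C, hg1, mul_one] at h1
    rw [← h1]
    have h2 := Polynomial.eval_intCast_map (Int.castRingHom ℚ) G' 1
    rw [Int.cast_one] at h2
    rw [h2]
    rfl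
  refine ⟨m * G'.coeff w, ?_⟩
  have h3 : ((G'.coeff w : ℤ) : ℚ) = c * g.coeff w := by
    have h1 := congrArg (fun p => Polynomial.coeff p w) hmap
    simp only [Polynomial.coeff_C_mul, Polynomial.coeff_map, eq_intCast] at h1
    exact h1
  have h4 : (N : ℚ) = c * m := by
    rw [← hc1]
    exact_mod_cast hm
  push_cast
  rw [h3, h4]
  ring

/-- representatives of a polynomial over the germs -/
theorem rep_poly (G : Polynomial GG) : ∃ g : ℕ → Polynomial ℚ,
    (∀ t, (g t).natDegree ≤ G.natDegree) ∧ ∀ k, gm (fun t => (g t).coeff k) = G.coeff k := by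
  classical
  choose c hc using fun k => gm_surj (G.coeff k)
  have hco : ∀ t k, (∑ i ∈ Finset.range (G.natDegree + 1), Polynomial.C (c i t) *
      Polynomial.X ^ i).coeff k = if k ∈ Finset.range (G.natDegree + 1) then c k t else 0 := by
    intro t k
    rw [Polynomial.finsetSum_coeff]
    simp only [Polynomial.coeff_C_mul_X_pow]
    rw [Finset.sum_ite_eq]
  refine ⟨fun t => ∑ i ∈ Finset.range (G.natDegree + 1), Polynomial.C (c i t) *
    Polynomial.X ^ i, fun t => ?_, fun k => ?_⟩
  · rw [Polynomial.natDegree_le_iff_coeff_eq_zero]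
    intro N hN
    rw [hco, if_neg]
    rw [Finset.mem_range]
    omega
  · simp only [hco]
    by_cases hk : k ∈ Finset.range (G.natDegree + 1)
    · simp only [if_pos hk]
      exact hc k
    · simp only [if_neg hk]
      rw [Finset.mem_range] at hk
      rw [Polynomial.coeff_eq_zero_of_natDegree_lt (by omega)]
      exact gm_zero

theorem cop_core {s n r : ℕ} (b : Fin s → ℕ) (hb : ∀ v, (b v).Prime)
    (hbi : Function.Injective b) {L : ℕ → ℝ} (hL : Tendsto L atTop atTop)
    (x : ℕ → Fin (n + 1) → ℤ) (hprim : ∀ t, Finset.univ.gcd (x t) = 1)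
    (uq : ℕ → Fin r → ℚ) (huq : ∀ t j, IsSU b (uq t j)) (hbd : ∀ j, Bd L (gm fun t => uq t j))
    (m : Fin r → Fin (n + 1) → ℕ → ℤ) (V : Fin r → Fin (n + 1) → KK L hL)
    (hVm : ∀ j y, (V j y : GG) = gm (fun t => (m j y t : ℚ)))
    (hXs : ∀ y, gm (fun t => (x t y : ℚ)) = ∑ j, gm (fun t => uq t j) * (V j y : GG))
    (l : Fin r → ℕ)
    (hl : ∀ j j', l j = l j' ↔ gm (fun t => uq t j) / gm (fun t => uq t j') ∈ KK L hL)
    (G : Polynomial GG) (hG1 : G.eval 1 = 1)
    (hdvd : ∀ y, G ∣ cur (fun j i => gm (fun t => uq t j) * (V j i : GG)) l y) (w : ℕ) :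
    G.coeff w ∈ KK L hL := by
  classical
  set U : Fin r → GG := fun j => gm (fun t => uq t j) with hU
  have hUS : ∀ j, GSU b (U j) := fun j => ⟨_, rfl, fun t => huq t j⟩
  have hU0 : ∀ j, U j ≠ 0 := fun j => gsu_ne_zero hb (hUS j)
  set P : Fin (n + 1) → Polynomial GG := cur (fun j i => U j * (V j i : GG)) l with hP
  have hP1 : ∀ y, (P y).eval 1 = gm (fun t => (x t y : ℚ)) := by
    intro y
    rw [hP, cur_eval_one, hXs]
  obtain ⟨y0, hy0⟩ := exists_ne_of_prim x hprim
  have hG0 : G ≠ 0 := by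
    rintro rfl
    simp at hG1
  choose Q hQ using hdvd
  have hQ0 : Q y0 ≠ 0 := by
    intro h0
    apply hy0
    rw [← hP1, hQ, h0, mul_zero, Polynomial.eval_zero]
  have hcoeff : ∀ (y : Fin (n + 1)) (w : ℕ), (P y).coeff w =
      ∑ j ∈ Finset.univ.filter (fun j => l j = w), U j * (V j y : GG) := by
    intro y w
    rw [hP]
    unfold cur
    rw [Polynomial.finsetSum_coeff, Finset.sum_filter]
    refine Finset.sum_congr rfl fun j _ => ?_
    rw [Polynomial.coeff_C_mul_X_pow]
    by_cases h : l j = w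
    · rw [if_pos h, if_pos h.symm]
    · rw [if_neg h, if_neg (Ne.symm h)]
  -- the valuations
  have hval : ∀ v, (OO L hL (wv b hb v)).valuation (G.coeff w) ≤ 1 := by
    intro v
    obtain ⟨i, j, w', h1, h2, h3, h4, h5⟩ := gauss_val (OO L hL (wv b hb v)) G (Q y0) hG0 hQ0
    have hvj : 0 < (OO L hL (wv b hb v)).valuation ((Q y0).coeff j) :=
      zero_lt_iff.2 ((Valuation.ne_zero_iff _).2 h4)
    have hvi : 0 < (OO L hL (wv b hb v)).valuation (G.coeff i) :=
      zero_lt_iff.2 ((Valuation.ne_zero_iff _).2 h3)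
    rw [← hQ] at h5
    have hne : (P y0).coeff w' ≠ 0 := by
      intro h0
      rw [h0, map_zero] at h5
      exact (mul_pos hvi hvj).ne h5
    have hne' := hne
    rw [hcoeff] at hne'
    obtain ⟨j0, hj0, -⟩ := Finset.exists_ne_zero_of_sum_ne_zero hne'
    have hj0' : l j0 = w' := (Finset.mem_filter.1 hj0).2
    have e1 : (OO L hL (wv b hb v)).valuation ((P y0).coeff w') ≤
        (OO L hL (wv b hb v)).valuation (U j0) := by
      rw [hcoeff]
      apply Valuation.map_sum_le
      intro j hj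
      have hj' : l j = l j0 := by rw [(Finset.mem_filter.1 hj).2, hj0']
      rw [map_mul, val_eq_of_div hL (pl_wv b hb v) (hU0 j0) (hU0 j) ((hl j j0).1 hj')]
      exact mul_le_of_le_one_right' (val_KK_le hL (pl_wv b hb v) (V j y0).2)
    have e2 : (OO L hL (wv b hb v)).valuation (U j0) ≤
        (OO L hL (wv b hb v)).valuation ((P y0).eval 1) := by
      have h6 := lb_class b hb hbi hL U hUS hbd (fun j => V j y0) v j0 (fun j => l j = l j0)
        (fun j => hl j j0) (by
          rw [hcoeff, ← hj0'] at hne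
          intro h0
          apply hne
          rw [← h0]
          exact Finset.sum_congr rfl fun j _ => mul_comm _ _)
      rw [hP1, hXs]
      refine h6.trans (le_of_eq ?_)
      congr 1
      exact Finset.sum_congr rfl fun j _ => mul_comm _ _
    have e3 : (OO L hL (wv b hb v)).valuation ((P y0).eval 1) ≤
        (OO L hL (wv b hb v)).valuation ((Q y0).coeff j) := by
      rw [hQ, Polynomial.eval_mul, hG1, one_mul, Polynomial.eval_eq_sum_range]
      apply Valuation.map_sum_le
      intro k _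
      rw [one_pow, mul_one]
      exact h2 k
    have e4 := (e1.trans e2).trans e3
    rw [h5] at e4
    refine (h1 w).trans ?_
    by_contra hcon
    push Not at hcon
    have e5 := mul_lt_mul_of_pos_right hcon hvj
    rw [one_mul] at e5
    exact absurd e4 (not_le.2 e5)
  -- the sequences
  obtain ⟨g, hgd, hg⟩ := rep_poly G
  choose q hqd hq using fun y => rep_poly (Q y)
  let p : Fin (n + 1) → ℕ → Polynomial ℚ := fun y t =>
    ∑ j, Polynomial.C (uq t j * (m j y t : ℚ)) * Polynomial.X ^ (l j)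
  have hpc : ∀ y k, gm (fun t => (p y t).coeff k) = (P y).coeff k := by
    intro y k
    rw [hcoeff]
    have h1 : ∀ t, (p y t).coeff k = ∑ j ∈ Finset.univ.filter (fun j => l j = k),
        uq t j * (m j y t : ℚ) := by
      intro t
      simp only [p]
      rw [Polynomial.finsetSum_coeff, Finset.sum_filter]
      refine Finset.sum_congr rfl fun j _ => ?_
      rw [Polynomial.coeff_C_mul_X_pow]
      by_cases h : l j = k
      · rw [if_pos h, if_pos h.symm]
      · rw [if_neg h, if_neg (Ne.symm h)]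
    simp only [h1]
    rw [← gm_sum']
    refine Finset.sum_congr rfl fun j _ => ?_
    rw [hVm, hU, gm_mul]
  obtain ⟨M1, hM1⟩ : ∃ M1 : ℕ, ∀ j, l j ≤ M1 :=
    ⟨∑ j, l j, fun j => Finset.single_le_sum (fun _ _ => Nat.zero_le _) (Finset.mem_univ j)⟩
  have hpd : ∀ y t, (p y t).natDegree ≤ M1 := by
    intro y t
    refine Polynomial.natDegree_sum_le_of_forall_le _ _ fun j _ => ?_
    exact (Polynomial.natDegree_C_mul_X_pow_le _ _).trans (hM1 j)
  have hfac : ∀ᶠ t in (UU : Filter ℕ), ∀ y, p y t = g t * q y t := by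
    refine eventually_all.2 fun y => ?_
    have h1 : ∀ k, ∀ᶠ t in (UU : Filter ℕ), (p y t).coeff k = (g t * q y t).coeff k := by
      intro k
      rw [← gm_eq, hpc, hQ]
      simp only [Polynomial.coeff_mul]
      rw [← gm_sum']
      refine Finset.sum_congr rfl fun a _ => ?_
      rw [← hg, ← hq, gm_mul]
    have h2 : ∀ᶠ t in (UU : Filter ℕ), ∀ k ∈ Finset.range (M1 + (G.natDegree +
        (Q y).natDegree) + 1), (p y t).coeff k = (g t * q y t).coeff k :=
      (Finset.eventually_all _).2 fun k _ => h1 k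
    filter_upwards [h2] with t ht
    ext k
    by_cases hk : k ∈ Finset.range (M1 + (G.natDegree + (Q y).natDegree) + 1)
    · exact ht k hk
    · rw [Finset.mem_range] at hk
      have e1 := hpd y t
      have e2 : (g t * q y t).natDegree ≤ G.natDegree + (Q y).natDegree :=
        Polynomial.natDegree_mul_le.trans (add_le_add (hgd t) (hqd y t))
      rw [Polynomial.coeff_eq_zero_of_natDegree_lt (by omega),
        Polynomial.coeff_eq_zero_of_natDegree_lt (by omega)]
  have hg1 : ∀ᶠ t in (UU : Filter ℕ), (g t).eval 1 = 1 := by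
    have h1 : ∀ t, (g t).eval 1 = ∑ k ∈ Finset.range (G.natDegree + 1), (g t).coeff k := by
      intro t
      rw [Polynomial.eval_eq_sum_range' (Nat.lt_succ_of_le (hgd t))]
      exact Finset.sum_congr rfl fun k _ => by rw [one_pow, mul_one]
    simp only [h1]
    rw [← gm_eq, ← gm_sum', gm_one, ← hG1, Polynomial.eval_eq_sum_range]
    refine Finset.sum_congr rfl fun k _ => ?_
    rw [hg, one_pow, mul_one]
  have hxt : ∀ᶠ t in (UU : Filter ℕ), ∀ y, (x t y : ℚ) = ∑ j, uq t j * (m j y t : ℚ) := by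
    refine eventually_all.2 fun y => ?_
    rw [← gm_eq, hXs, ← gm_sum']
    refine Finset.sum_congr rfl fun j _ => ?_
    rw [hVm, gm_mul]
  have hint : ∀ᶠ t in (UU : Filter ℕ), ∃ (k : Fin s → ℕ) (z : ℤ),
      (z : ℚ) = (∏ v, (b v : ℚ) ^ k v) * (g t).coeff w := by
    filter_upwards [hfac, hg1, hxt] with t h1 h2 h3
    obtain ⟨k, hk⟩ := exists_den b hb (uq t) (huq t)
    choose z hz using hk
    obtain ⟨z', hz'⟩ := int_part (x t) (hprim t) (∏ v, b v ^ k v)
      (fun y => ∑ j, Polynomial.C (z j * m j y t) * Polynomial.X ^ (l j)) (by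
        intro y
        have h4 : (((∑ j, z j * m j y t : ℤ)) : ℚ) = (((∏ v, b v ^ k v : ℕ) * x t y : ℤ) : ℚ) := by
          push_cast
          rw [h3, Finset.mul_sum]
          refine Finset.sum_congr rfl fun j _ => ?_
          rw [hz]
          ring
        rw [Polynomial.eval_finsetSum]
        rw [← (Int.cast_injective h4 : _ = _)]
        refine Finset.sum_congr rfl fun j _ => ?_
        simp) (g t) h2 (by
        intro y
        have h4 : (∑ j, Polynomial.C (z j * m j y t) * Polynomial.X ^ (l j) : Polynomial ℤ).map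
            (Int.castRingHom ℚ) = Polynomial.C (∏ v, (b v : ℚ) ^ k v) * p y t := by
          simp only [p]
          rw [Polynomial.map_sum, Finset.mul_sum]
          refine Finset.sum_congr rfl fun j _ => ?_
          rw [Polynomial.map_mul, Polynomial.map_C, Polynomial.map_pow, Polynomial.map_X,
            ← mul_assoc, ← Polynomial.C_mul]
          congr 2
          simp only [eq_intCast]
          push_cast
          rw [hz]
          ring
        rw [h4, h1 y]
        exact Dvd.intro_left (Polynomial.C (∏ v, (b v : ℚ) ^ k v) * q y t) (by ring)) w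
    refine ⟨k, z', ?_⟩
    rw [hz']
    push_cast
    rfl
  -- the bounds
  have hb1 : ∀ ε : ℝ, 0 < ε → ∀ᶠ t in (UU : Filter ℕ), ∀ v,
      wv b hb v ((g t).coeff w) ≤ Real.exp (ε * L t) := by
    intro ε hε
    refine eventually_all.2 fun v => ?_
    have h1 := hval v
    rw [ValuationSubring.valuation_le_one_iff, ← hg, mem_OO] at h1
    exact h1 ε hε
  have hden : ∀ ε : ℝ, 0 < ε → ∀ᶠ t in (UU : Filter ℕ),
      (((g t).coeff w).den : ℝ) ≤ Real.exp (ε * L t) := by
    intro ε hε
    filter_upwards [hb1 (ε / (s + 1)) (by positivity), hint, L_nonneg hL] with t h1 h2 h3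
    obtain ⟨k, z, hz⟩ := h2
    have h4 := den_bound b hb _ k z hz (Real.exp (ε / (s + 1) * L t))
      (Real.one_le_exp (by positivity)) (fun v => h1 (some v))
    refine h4.trans ?_
    rw [← Real.exp_nat_mul]
    apply Real.exp_le_exp.2
    have h5 : (s : ℝ) * (ε / (s + 1) * L t) = (s / (s + 1)) * (ε * L t) := by ring
    rw [h5]
    have h6 : (s : ℝ) / (s + 1) ≤ 1 := by
      rw [div_le_one (by positivity)]
      linarith
    have h7 : 0 ≤ ε * L t := by positivity
    nlinarith
  rw [← hg, mem_KK_iff]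
  constructor
  · intro ε hε
    filter_upwards [hb1 (ε / 2) (by positivity), hden (ε / 2) (by positivity)] with t h1 h2
    have h3 := h1 none
    rw [wv_none] at h3
    have h4 : |(((g t).coeff w).num : ℝ)| = |(((g t).coeff w : ℚ) : ℝ)| *
        (((g t).coeff w).den : ℝ) := by
      have h5 := Rat.mul_den_eq_num ((g t).coeff w)
      have h6 : ((((g t).coeff w).num : ℤ) : ℝ) = (((g t).coeff w : ℚ) : ℝ) *
        (((g t).coeff w).den : ℝ) := by exact_mod_cast h5.symm
      rw [h6, abs_mul, abs_of_nonneg (Nat.cast_nonneg _ : (0 : ℝ) ≤ (((g t).coeff w).den : ℝ))]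
    rw [h4]
    calc |(((g t).coeff w : ℚ) : ℝ)| * (((g t).coeff w).den : ℝ) ≤
        Real.exp (ε / 2 * L t) * Real.exp (ε / 2 * L t) :=
          mul_le_mul h3 h2 (Nat.cast_nonneg _) (Real.exp_pos _).le
      _ = Real.exp (ε * L t) := by rw [← Real.exp_add]; ring_nf
  · intro ε hε
    filter_upwards [hden ε hε] with t h1
    rw [Int.cast_natCast, abs_of_nonneg (Nat.cast_nonneg _)]
    exact h1

/-- **The coordinates of the curve have no common factor prime to `X`.** -/
theorem cop {s n r : ℕ} (b : Fin s → ℕ) (hb : ∀ v, (b v).Prime)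
    (hbi : Function.Injective b) {L : ℕ → ℝ} (hL : Tendsto L atTop atTop)
    (x : ℕ → Fin (n + 1) → ℤ) (hprim : ∀ t, Finset.univ.gcd (x t) = 1)
    (uq : ℕ → Fin r → ℚ) (huq : ∀ t j, IsSU b (uq t j)) (hbd : ∀ j, Bd L (gm fun t => uq t j))
    (m : Fin r → Fin (n + 1) → ℕ → ℤ) (V : Fin r → Fin (n + 1) → KK L hL)
    (hVm : ∀ j y, (V j y : GG) = gm (fun t => (m j y t : ℚ)))
    (hXs : ∀ y, gm (fun t => (x t y : ℚ)) = ∑ j, gm (fun t => uq t j) * (V j y : GG))
    (l : Fin r → ℕ)
    (hl : ∀ j j', l j = l j' ↔ gm (fun t => uq t j) / gm (fun t => uq t j') ∈ KK L hL) :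
    ∃ (A : Fin (n + 1) → Polynomial GG) (m0 : ℕ),
      ∑ i, A i * cur (fun j i => gm (fun t => uq t j) * (V j i : GG)) l i =
        Polynomial.X ^ m0 := by
  classical
  set U : Fin r → GG := fun j => gm (fun t => uq t j) with hU
  have hUS : ∀ j, GSU b (U j) := fun j => ⟨_, rfl, fun t => huq t j⟩
  set P : Fin (n + 1) → Polynomial GG := cur (fun j i => U j * (V j i : GG)) l with hP
  have hP1 : ∀ y, (P y).eval 1 = gm (fun t => (x t y : ℚ)) := by
    intro y
    rw [hP, cur_eval_one, hXs]
  obtain ⟨y0, hy0⟩ := exists_ne_of_prim x hprim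
  have hPy0 : P y0 ≠ 0 := by
    intro h0
    apply hy0
    rw [← hP1, h0, Polynomial.eval_zero]
  have hcoeff : ∀ (y : Fin (n + 1)) (w : ℕ), (P y).coeff w =
      ∑ j ∈ Finset.univ.filter (fun j => l j = w), U j * (V j y : GG) := by
    intro y w
    rw [hP]
    unfold cur
    rw [Polynomial.finsetSum_coeff, Finset.sum_filter]
    refine Finset.sum_congr rfl fun j _ => ?_
    rw [Polynomial.coeff_C_mul_X_pow]
    by_cases h : l j = w
    · rw [if_pos h, if_pos h.symm]
    · rw [if_neg h, if_neg (Ne.symm h)]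
  obtain ⟨g, hg⟩ : ∃ g, Ideal.span (Set.range P) = Ideal.span {g} :=
    (IsPrincipalIdealRing.principal (Ideal.span (Set.range P))).principal
  have hgP : ∀ y, g ∣ P y := by
    intro y
    rw [← Ideal.mem_span_singleton, ← hg]
    exact Ideal.subset_span ⟨y, rfl⟩
  have hg0 : g ≠ 0 := by
    rintro rfl
    exact hPy0 (zero_dvd_iff.1 (hgP y0))
  obtain ⟨g', hg', hXg⟩ := Polynomial.exists_eq_pow_rootMultiplicity_mul_and_not_dvd g hg0 0
  set k := Polynomial.rootMultiplicity 0 g with hk
  rw [Polynomial.C_0, sub_zero] at hg' hXg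
  have hg'0 : g'.coeff 0 ≠ 0 := fun h => hXg (Polynomial.X_dvd_iff.2 h)
  by_cases hdeg : g'.natDegree = 0
  · obtain ⟨c0, hc0⟩ : ∃ c0, c0 = g'.coeff 0 := ⟨_, rfl⟩
    have h1 : g' = Polynomial.C c0 := by
      rw [hc0]
      exact Polynomial.eq_C_of_natDegree_eq_zero hdeg
    have hc00 : c0 ≠ 0 := by
      rw [hc0]
      exact hg'0
    have h2 : (Polynomial.X : Polynomial GG) ^ k ∈ Ideal.span (Set.range P) := by
      rw [hg, Ideal.mem_span_singleton]
      refine ⟨Polynomial.C c0⁻¹, ?_⟩
      rw [hg', h1, mul_assoc, ← Polynomial.C_mul, mul_inv_cancel₀ hc00, Polynomial.C_1, mul_one]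
    obtain ⟨A, hA⟩ := Ideal.mem_span_range_iff_exists_fun.1 h2
    exact ⟨A, k, hA⟩
  exfalso
  have hg'P : ∀ y, g' ∣ P y := fun y => (Dvd.intro_left _ hg'.symm).trans (hgP y)
  have hg'1 : g'.eval 1 ≠ 0 := by
    intro h0
    apply hy0
    obtain ⟨q, hq⟩ := hg'P y0
    rw [← hP1, hq, Polynomial.eval_mul, h0, zero_mul]
  set G : Polynomial GG := Polynomial.C (g'.eval 1)⁻¹ * g' with hG
  have hu : IsUnit (Polynomial.C (g'.eval 1)⁻¹) :=
    Polynomial.isUnit_C.2 (isUnit_iff_ne_zero.2 (inv_ne_zero hg'1))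
  have hG1 : G.eval 1 = 1 := by
    rw [hG, Polynomial.eval_mul, Polynomial.eval_C, inv_mul_cancel₀ hg'1]
  have hGdvd : ∀ y, G ∣ P y := fun y => (hu.mul_left_dvd).2 (hg'P y)
  have hKK : ∀ w, G.coeff w ∈ KK L hL := fun w =>
    cop_core b hb hbi hL x hprim uq huq hbd m V hVm hXs l hl G hG1 hGdvd w
  obtain ⟨G0, hG0⟩ : ∃ G0 : Polynomial (KK L hL), G0.map (KK L hL).subtype = G := by
    rw [← Polynomial.mem_lifts, Polynomial.lifts_iff_coeff_lifts]
    intro w
    exact ⟨⟨_, hKK w⟩, rfl⟩
  have hG00 : G0.coeff 0 ≠ 0 := by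
    intro h0
    have h1 := congrArg (fun p => Polynomial.coeff p 0) hG0
    simp only [Polynomial.coeff_map, h0, map_zero] at h1
    rw [hG, Polynomial.coeff_C_mul] at h1
    exact mul_ne_zero (inv_ne_zero hg'1) hg'0 h1.symm
  have hG0ne : G0 ≠ 0 := by
    rintro rfl
    exact hG00 (Polynomial.coeff_zero 0)
  have hGdeg : G.degree = G0.degree := by
    rw [← hG0]
    exact Polynomial.degree_map_eq_of_injective (KK L hL).subtype_injective _
  -- the remainders
  let R : ℕ → Polynomial (KK L hL) := fun w => Polynomial.X ^ w % G0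
  let S : ℕ → Polynomial (KK L hL) := fun w => Polynomial.X ^ w / G0
  have hRS : ∀ w, (Polynomial.X : Polynomial (KK L hL)) ^ w = G0 * S w + R w := fun w =>
    (EuclideanDomain.div_add_mod _ _).symm
  have hRd : ∀ w, (R w).degree < G0.degree := fun w => EuclideanDomain.mod_lt _ hG0ne
  have hRS' : ∀ w, (Polynomial.X : Polynomial GG) ^ w =
      G * (S w).map (KK L hL).subtype + (R w).map (KK L hL).subtype := by
    intro w
    have h1 := congrArg (Polynomial.map (KK L hL).subtype) (hRS w)
    rw [Polynomial.map_pow, Polynomial.map_X, Polynomial.map_add, Polynomial.map_mul, hG0] at h1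
    exact h1
  have hzero : ∑ j, Polynomial.C (U j * (V j y0 : GG)) * (R (l j)).map (KK L hL).subtype = 0 := by
    refine Polynomial.eq_zero_of_dvd_of_degree_lt (p := G) ?_ ?_
    · have h1 : ∑ j, Polynomial.C (U j * (V j y0 : GG)) * (R (l j)).map (KK L hL).subtype =
          P y0 - G * ∑ j, Polynomial.C (U j * (V j y0 : GG)) *
            (S (l j)).map (KK L hL).subtype := by
        rw [hP]
        unfold cur
        rw [Finset.mul_sum, ← Finset.sum_sub_distrib]
        refine Finset.sum_congr rfl fun j _ => ?_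
        rw [hRS' (l j)]
        ring
      rw [h1]
      exact dvd_sub (hGdvd y0) (dvd_mul_right _ _)
    · rw [hGdeg]
      refine (Polynomial.degree_sum_le _ _).trans_lt ?_
      rw [Finset.sup_lt_iff (bot_lt_iff_ne_bot.2 (Polynomial.degree_ne_bot.2 hG0ne))]
      intro j _
      refine lt_of_le_of_lt ?_ (hRd (l j))
      refine (Polynomial.degree_mul_le _ _).trans ?_
      refine (add_le_add (Polynomial.degree_C_le) (Polynomial.degree_map_le)).trans ?_
      rw [zero_add]
  -- the remainder of `X ^ w` for a weight that occurs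
  obtain ⟨w, hw⟩ : ∃ w, (P y0).coeff w ≠ 0 := by
    by_contra hno
    push Not at hno
    exact hPy0 (Polynomial.ext hno)
  have hRw : R w = 0 := by
    ext k
    have h1 : ∑ j ∈ Finset.univ, (((V j y0 * (R (l j)).coeff k : KK L hL)) : GG) * U j = 0 := by
      have h2 := congrArg (fun p => Polynomial.coeff p k) hzero
      simp only [Polynomial.finsetSum_coeff, Polynomial.coeff_zero, Polynomial.coeff_C_mul,
        Polynomial.coeff_map] at h2
      rw [← h2]
      refine Finset.sum_congr rfl fun j _ => ?_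
      rw [MulMemClass.coe_mul]
      change _ = U j * (V j y0 : GG) * (((R (l j)).coeff k : KK L hL) : GG)
      ring
    have h3 := CS.cs SUI.sui s b hb hbi L hL (Fin r) Finset.univ
      (fun j => V j y0 * (R (l j)).coeff k) U l (fun j _ => hUS j)
      (fun i _ j _ h => (hl i j).2 h) h1
    have h4 := congrArg (fun p => Polynomial.coeff p w) h3
    simp only [Polynomial.finsetSum_coeff, Polynomial.coeff_zero,
      Polynomial.coeff_C_mul_X_pow] at h4
    have h5 : (((R w).coeff k : KK L hL) : GG) * (P y0).coeff w = 0 := by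
      rw [hcoeff, Finset.mul_sum, Finset.sum_filter]
      refine Eq.trans (Finset.sum_congr rfl fun j _ => ?_) h4
      by_cases h : l j = w
      · rw [if_pos h, if_pos h.symm, h, MulMemClass.coe_mul]
        ring
      · rw [if_neg h, if_neg (Ne.symm h)]
    have h6 := (mul_eq_zero.1 h5).resolve_right hw
    rw [Polynomial.coeff_zero]
    exact_mod_cast h6
  have hdv : G0 ∣ Polynomial.X ^ w := by
    rw [hRS w, hRw, add_zero]
    exact dvd_mul_right _ _
  have hcop : IsCoprime G0 (Polynomial.X ^ w) := by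
    refine IsCoprime.pow_right ?_
    refine IsCoprime.symm ?_
    refine (Irreducible.coprime_iff_not_dvd Polynomial.irreducible_X).2 ?_
    intro h
    exact hG00 (Polynomial.X_dvd_iff.1 h)
  have hunit : IsUnit G0 := hcop.isUnit_of_dvd' dvd_rfl hdv
  have h7 : g'.natDegree = G0.natDegree := by
    have h8 : G.natDegree = G0.natDegree := Polynomial.natDegree_eq_of_degree_eq hGdeg
    rw [← h8, hG, Polynomial.natDegree_C_mul (inv_ne_zero hg'1)]
  exact hdeg (h7.trans (Polynomial.natDegree_eq_zero_of_isUnit hunit))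

end Pool.Agent.Q51.VY
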