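import Mathlib

set_option autoImplicit false

/-!
# Bezout identities with small degrees
-/

namespace Pool.Agent.Q51.VY

open Polynomial

variable {K : Type} [Field K] {n : ℕ}

/-- if a power of `X` is in the ideal, then this is so with coefficients of small degree -/
theorem bez (f : Fin (n + 1) → K[X]) (e : ℕ) (hf : ∀ i, (f i).natDegree ≤ e)
    (h : ∃ (A : Fin (n + 1) → K[X]) (m : ℕ), ∑ i, A i * f i = X ^ m) :
    ∃ (A : Fin (n + 1) → K[X]) (m : ℕ), m ≤ e ∧ (∀ i, (A i).natDegree ≤ 2 * e) ∧
      ∑ i, A i * f i = X ^ m := by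
  classical
  obtain ⟨A, m, hA⟩ := h
  obtain ⟨i0, hi0⟩ : ∃ i, f i ≠ 0 := by
    by_contra hcon
    push Not at hcon
    simp only [hcon, mul_zero, Finset.sum_const_zero] at hA
    exact pow_ne_zero m (X_ne_zero (R := K)) hA.symm
  set I := Ideal.span (Set.range f) with hI
  have hmI : X ^ m ∈ I := by
    rw [hI, Ideal.mem_span_range_iff_exists_fun]
    exact ⟨A, hA⟩
  set g := Submodule.IsPrincipal.generator I with hg
  have hgI : I = Ideal.span {g} := (Ideal.span_singleton_generator I).symm
  have hgm : g ∣ X ^ m := by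
    rw [← Ideal.mem_span_singleton, ← hgI]
    exact hmI
  obtain ⟨m', -, hm'⟩ := (dvd_prime_pow prime_X _).1 hgm
  have hgX : X ^ m' ∈ I := by
    rw [hgI, Ideal.mem_span_singleton]
    exact hm'.dvd
  have hm'e : m' ≤ e := by
    have h1 : f i0 ∈ I := Ideal.subset_span ⟨i0, rfl⟩
    rw [hgI, Ideal.mem_span_singleton] at h1
    have h2 : X ^ m' ∣ f i0 := hm'.symm.dvd.trans h1
    have h3 := natDegree_le_of_dvd h2 hi0
    rw [natDegree_X_pow] at h3
    exact h3.trans (hf i0)
  rw [hI, Ideal.mem_span_range_iff_exists_fun] at hgX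
  obtain ⟨A', hA'⟩ := hgX
  let R : Fin (n + 1) → K[X] := fun i => if i = i0 then
    A' i0 + ∑ i ∈ Finset.univ.erase i0, (A' i / f i0) * f i else A' i % f i0
  have hR : ∑ i, R i * f i = X ^ m' := by
    rw [← hA', ← Finset.add_sum_erase _ _ (Finset.mem_univ i0),
      ← Finset.add_sum_erase (Finset.univ) (fun i => A' i * f i) (Finset.mem_univ i0)]
    have h1 : ∑ i ∈ Finset.univ.erase i0, R i * f i =
        ∑ i ∈ Finset.univ.erase i0, (A' i % f i0) * f i := by
      refine Finset.sum_congr rfl fun i hi => ?_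
      simp only [R, if_neg (Finset.ne_of_mem_erase hi)]
    have h2 : R i0 = A' i0 + ∑ i ∈ Finset.univ.erase i0, (A' i / f i0) * f i := by
      simp only [R, if_true]
    rw [h1, h2, add_mul, Finset.sum_mul, add_assoc, ← Finset.sum_add_distrib]
    congr 1
    refine Finset.sum_congr rfl fun i _ => ?_
    have h3 : f i0 * (A' i / f i0) + A' i % f i0 = A' i := EuclideanDomain.div_add_mod _ _
    have h4 : A' i / f i0 * f i * f i0 + A' i % f i0 * f i =
        (f i0 * (A' i / f i0) + A' i % f i0) * f i := by ring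
    rw [h4, h3]
  have hdeg : ∀ i, i ≠ i0 → (R i).natDegree ≤ e := by
    intro i hi
    simp only [R, if_neg hi]
    by_cases h0 : A' i % f i0 = 0
    · rw [h0, natDegree_zero]
      exact Nat.zero_le _
    · have h1 : (A' i % f i0).degree < (f i0).degree := EuclideanDomain.mod_lt _ hi0
      exact (natDegree_le_natDegree h1.le).trans (hf i0)
  refine ⟨R, m', hm'e, fun i => ?_, hR⟩
  by_cases hi : i = i0
  · subst hi
    by_cases h0 : R i = 0
    · rw [h0, natDegree_zero]
      exact Nat.zero_le _
    · have h1 : R i * f i = X ^ m' - ∑ j ∈ Finset.univ.erase i, R j * f j := by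
        rw [← hR, ← Finset.add_sum_erase _ _ (Finset.mem_univ i), add_sub_cancel_right]
      have h2 : (R i * f i).natDegree ≤ 2 * e := by
        rw [h1]
        refine (natDegree_sub_le _ _).trans (max_le ?_ ?_)
        · rw [natDegree_X_pow]
          omega
        · refine natDegree_sum_le_of_forall_le _ _ fun j hj => ?_
          refine natDegree_mul_le.trans ?_
          have h3 := hdeg j (Finset.ne_of_mem_erase hj)
          have h4 := hf j
          omega
      rw [natDegree_mul h0 hi0] at h2
      omega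
  · have := hdeg i hi
    omega

end Pool.Agent.Q51.VY
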