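import Mathlib
import Pool.Agent.Q51.HG.All

set_option autoImplicit false

/-!
# A generic multiple of a coprime curve in a torus meets no given point
-/

namespace Pool.Agent.Q51.VY

open Pool.Agent.H533R3.SL

variable {n r : ℕ}

theorem coeff_cur1 {K : Type} [CommRing K] (c : Fin r → Fin (n + 1) → K) (l : Fin r → ℕ)
    (i : Fin (n + 1)) (w : ℕ) :
    (cur c l i).coeff w = ∑ j ∈ Finset.univ.filter (fun j => l j = w), c j i := by
  unfold cur
  rw [Polynomial.finsetSum_coeff, Finset.sum_filter]
  refine Finset.sum_congr rfl fun j _ => ?_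
  rw [Polynomial.coeff_C_mul_X_pow]
  by_cases h : l j = w
  · rw [if_pos h, if_pos h.symm]
  · rw [if_neg h, if_neg (Ne.symm h)]

theorem eval_cur1 {K : Type} [CommRing K] (c : Fin r → Fin (n + 1) → K) (l : Fin r → ℕ)
    (i : Fin (n + 1)) (z : K) : (cur c l i).eval z = ∑ j, c j i * z ^ l j := by
  unfold cur
  rw [Polynomial.eval_finsetSum]
  refine Finset.sum_congr rfl fun j _ => ?_
  simp

/-- the class sums of the terms with factors which only depend on the class -/
theorem class_sum {K : Type} [CommRing K] (c : Fin r → Fin (n + 1) → K) (l : Fin r → ℕ)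
    (g : Fin r → K) (hgl : ∀ j j', l j = l j' → g j = g j') (i : Fin (n + 1)) (j0 : Fin r) :
    ∑ j ∈ Finset.univ.filter (fun j => l j = l j0), c j i * g j =
      (cur c l i).coeff (l j0) * g j0 := by
  rw [coeff_cur1, Finset.sum_mul]
  refine Finset.sum_congr rfl fun j hj => ?_
  rw [hgl j j0 (Finset.mem_filter.1 hj).2]

theorem exists_cur_ne {K : Type} [Field K] {c : Fin r → Fin (n + 1) → K} {l : Fin r → ℕ}
    {A : Fin (n + 1) → Polynomial K} {m0 : ℕ}
    (hA : ∑ i, A i * cur c l i = Polynomial.X ^ m0) : ∃ i, cur c l i ≠ 0 := by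
  by_contra h
  push Not at h
  simp only [h, mul_zero, Finset.sum_const_zero] at hA
  exact (pow_ne_zero m0 (Polynomial.X_ne_zero (R := K))) hA.symm

/-- the case of algebraic factors -/
theorem no_common_alg (K1 : Subfield ℂ) (c : Fin r → Fin (n + 1) → ℂ) (l : Fin r → ℕ)
    (A : Fin (n + 1) → Polynomial ℂ) (m0 : ℕ)
    (hA : ∑ i, A i * cur c l i = Polynomial.X ^ m0) (hc : ∀ j i, c j i ∈ K1) (lam : ℂ)
    (hlam : Transcendental K1 lam) (g : Fin r → ℂ) (hg0 : ∀ j, g j ≠ 0)
    (hgl : ∀ j j', l j = l j' → g j = g j') (hg : ∀ j, IsAlgebraic K1 (g j)) :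
    ∃ i, ∑ j, c j i * lam ^ (l j) * g j ≠ 0 := by
  classical
  by_contra hcon
  push Not at hcon
  obtain ⟨i, hi⟩ := exists_cur_ne hA
  apply hi
  -- the algebraic closure
  set E := algebraicClosure K1 ℂ with hE
  have hgE : ∀ j, g j ∈ E := fun j => mem_algebraicClosure_iff.2 (hg j)
  have hcE : ∀ j, c j i ∈ E := fun j => E.algebraMap_mem ⟨c j i, hc j i⟩
  let Q : Polynomial E := ∑ j, Polynomial.C (⟨c j i, hcE j⟩ * ⟨g j, hgE j⟩) * Polynomial.X ^ (l j)
  have hQ : Polynomial.aeval lam Q = 0 := by
    have h1 : Polynomial.aeval lam Q = ∑ j, c j i * lam ^ (l j) * g j := by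
      simp only [Q, map_sum, map_mul, map_pow, Polynomial.aeval_C, Polynomial.aeval_X]
      refine Finset.sum_congr rfl fun j _ => ?_
      have h2 : algebraMap E ℂ (⟨c j i, hcE j⟩ : E) = c j i := rfl
      have h3 : algebraMap E ℂ (⟨g j, hgE j⟩ : E) = g j := rfl
      rw [h2, h3]
      ring
    rw [h1]
    exact hcon i
  have hQ0 : Q = 0 := by
    by_contra hne
    have h1 : IsAlgebraic E lam := ⟨Q, hne, hQ⟩
    have h2 : IsAlgebraic K1 lam := by
      have : Algebra.IsAlgebraic K1 E := algebraicClosure.isAlgebraic K1 ℂ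
      exact IsAlgebraic.restrictScalars K1 h1
    exact hlam h2
  ext w
  rw [Polynomial.coeff_zero]
  by_cases hw : ∃ j0, l j0 = w
  · obtain ⟨j0, rfl⟩ := hw
    have h1 := congrArg (fun P : Polynomial E => ((P.coeff (l j0) : E) : ℂ)) hQ0
    simp only [Q, Polynomial.finsetSum_coeff, Polynomial.coeff_zero] at h1
    have h2 : ∑ j ∈ Finset.univ.filter (fun j => l j = l j0), c j i * g j = 0 := by
      rw [Finset.sum_filter]
      refine Eq.trans ?_ h1
      rw [AddSubmonoidClass.coe_finsetSum]
      refine Finset.sum_congr rfl fun j _ => ?_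
      rw [Polynomial.coeff_C_mul_X_pow]
      by_cases h : l j = l j0
      · rw [if_pos h, if_pos h.symm]
        rfl
      · rw [if_neg h, if_neg (Ne.symm h)]
        rfl
    rw [class_sum c l g hgl i j0] at h2
    exact (mul_eq_zero.1 h2).resolve_right (hg0 j0)
  · rw [coeff_cur1]
    refine Finset.sum_eq_zero fun j hj => ?_
    exact absurd ⟨j, (Finset.mem_filter.1 hj).2⟩ hw

/-- the case of factors near `1` -/
theorem no_common_val (K1 : Subfield ℂ) (c : Fin r → Fin (n + 1) → ℂ) (l : Fin r → ℕ)
    (A : Fin (n + 1) → Polynomial ℂ) (m0 : ℕ)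
    (hA : ∑ i, A i * cur c l i = Polynomial.X ^ m0) (hc : ∀ j i, c j i ∈ K1)
    (hAK : ∀ i e, (A i).coeff e ∈ K1) (lam : ℂ) (hlam : lam ≠ 0) (g : Fin r → ℂ)
    (hgl : ∀ j j', l j = l j' → g j = g j') (V : ValuationSubring ℂ)
    (hV : ∀ x ∈ K1, x ∈ V) (hg : ∀ j, V.valuation (g j - 1) < 1) :
    ∃ i, ∑ j, c j i * lam ^ (l j) * g j ≠ 0 := by
  classical
  by_contra hcon
  push Not at hcon
  have hle : ∀ x ∈ K1, V.valuation x ≤ 1 := fun x hx => (V.valuation_le_one_iff x).2 (hV x hx)
  have heq : ∀ x ∈ K1, x ≠ 0 → V.valuation x = 1 := by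
    intro x hx h0
    refine le_antisymm (hle x hx) ?_
    have h1 := hle x⁻¹ (K1.inv_mem hx)
    rw [map_inv₀, inv_le_one₀ (zero_lt_iff.2 ((map_ne_zero _).2 h0))] at h1
    exact h1
  have hg1 : ∀ j, V.valuation (g j) = 1 := by
    intro j
    have h1 : g j = 1 + (g j - 1) := by ring
    rw [h1]
    exact Valuation.map_one_add_of_lt _ (hg j)
  by_cases h1 : V.valuation lam = 1
  · -- the unit case
    have hlt : ∀ i, V.valuation ((cur c l i).eval lam) < 1 := by
      intro i
      have e1 : (cur c l i).eval lam = ∑ j, -(c j i * lam ^ (l j) * (g j - 1)) := by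
        rw [eval_cur1]
        have h2 : ∑ j, -(c j i * lam ^ (l j) * (g j - 1)) =
            ∑ j, c j i * lam ^ (l j) - ∑ j, c j i * lam ^ (l j) * g j := by
          rw [← Finset.sum_sub_distrib]
          exact Finset.sum_congr rfl fun j _ => by ring
        rw [h2, hcon i, sub_zero]
      rw [e1]
      refine Valuation.map_sum_lt _ one_ne_zero fun j _ => ?_
      rw [Valuation.map_neg, map_mul, map_mul, map_pow, h1, one_pow, mul_one]
      calc V.valuation (c j i) * V.valuation (g j - 1) ≤ 1 * V.valuation (g j - 1) :=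
            mul_le_mul_left (hle _ (hc j i)) _
        _ < 1 := by rw [one_mul]; exact hg j
    have h2 : V.valuation (lam ^ m0) < 1 := by
      have h3 := congrArg (Polynomial.eval lam) hA
      rw [Polynomial.eval_finsetSum, Polynomial.eval_pow, Polynomial.eval_X] at h3
      rw [← h3]
      refine Valuation.map_sum_lt _ one_ne_zero fun i _ => ?_
      rw [Polynomial.eval_mul, map_mul]
      have h4 : V.valuation ((A i).eval lam) ≤ 1 := by
        rw [Polynomial.eval_eq_sum_range]
        refine Valuation.map_sum_le _ fun e _ => ?_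
        rw [map_mul, map_pow, h1, one_pow, mul_one]
        exact hle _ (hAK i e)
      calc V.valuation ((A i).eval lam) * V.valuation ((cur c l i).eval lam) ≤
          1 * V.valuation ((cur c l i).eval lam) := mul_le_mul_left h4 _
        _ < 1 := by rw [one_mul]; exact hlt i
    rw [map_pow, h1, one_pow] at h2
    exact lt_irrefl _ h2
  · -- the other case
    obtain ⟨i, hi⟩ := exists_cur_ne hA
    set f := cur c l i with hf
    have hval0 : V.valuation lam ≠ 0 := (map_ne_zero _).2 hlam
    have hfK : ∀ w, f.coeff w ∈ K1 := by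
      intro w
      rw [hf, coeff_cur1]
      exact K1.sum_mem fun j _ => hc j i
    -- the sum over the classes
    have hrep : ∀ w ∈ f.support, ∃ j0, l j0 = w := by
      intro w hw
      by_contra hno
      rw [Polynomial.mem_support_iff, hf, coeff_cur1] at hw
      apply hw
      refine Finset.sum_eq_zero fun j hj => ?_
      exact absurd ⟨j, (Finset.mem_filter.1 hj).2⟩ hno
    let G : ℕ → ℂ := fun w => if h : ∃ j0, l j0 = w then g h.choose else 1
    have hG : ∀ j, G (l j) = g j := by
      intro j
      have h2 : ∃ j0, l j0 = l j := ⟨j, rfl⟩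
      simp only [G, dif_pos h2]
      exact hgl _ _ h2.choose_spec
    have hG1 : ∀ w, V.valuation (G w) = 1 := by
      intro w
      simp only [G]
      split_ifs with h
      · exact hg1 _
      · exact map_one _
    have hsum : ∑ w ∈ f.support, f.coeff w * lam ^ w * G w = 0 := by
      rw [← hcon i]
      let Λ : Polynomial ℂ →ₗ[ℂ] ℂ := Polynomial.lsum (fun w =>
        LinearMap.toSpanSingleton ℂ ℂ (lam ^ w * G w))
      have hΛ : ∀ P : Polynomial ℂ, Λ P = ∑ w ∈ P.support, P.coeff w * lam ^ w * G w := by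
        intro P
        show Polynomial.lsum _ P = _
        rw [Polynomial.lsum_apply, Polynomial.sum_def]
        refine Finset.sum_congr rfl fun w _ => ?_
        rw [LinearMap.toSpanSingleton_apply, smul_eq_mul, mul_assoc]
      rw [← hΛ, hf]
      unfold cur
      rw [map_sum]
      refine Finset.sum_congr rfl fun j _ => ?_
      rw [Polynomial.C_mul_X_pow_eq_monomial]
      show Polynomial.lsum _ _ = _
      rw [Polynomial.lsum_apply, Polynomial.sum_monomial_index]
      · rw [LinearMap.toSpanSingleton_apply, smul_eq_mul, hG, mul_assoc]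
      · simp
    have hterm : ∀ w ∈ f.support, V.valuation (f.coeff w * lam ^ w * G w) =
        V.valuation lam ^ w := by
      intro w hw
      rw [map_mul, map_mul, map_pow, hG1, mul_one,
        heq _ (hfK w) (Polynomial.mem_support_iff.1 hw), one_mul]
    obtain ⟨w0, hw0, hmax⟩ := Finset.exists_max_image f.support
      (fun w => V.valuation lam ^ w) (Polynomial.nonempty_support_iff.2 hi)
    have hinj : ∀ w ∈ f.support, V.valuation lam ^ w = V.valuation lam ^ w0 → w = w0 := by
      intro w _ h
      rcases lt_or_gt_of_ne h1 with h2 | h2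
      · exact (pow_right_strictAnti₀ (zero_lt_iff.2 hval0) h2).injective h
      · exact (pow_right_strictMono₀ h2).injective h
    rw [← Finset.add_sum_erase _ _ hw0] at hsum
    have h3 : V.valuation (∑ w ∈ f.support.erase w0, f.coeff w * lam ^ w * G w) <
        V.valuation lam ^ w0 := by
      refine Valuation.map_sum_lt _ (pow_ne_zero _ hval0) fun w hw => ?_
      rw [hterm w (Finset.mem_of_mem_erase hw)]
      refine lt_of_le_of_ne (hmax w (Finset.mem_of_mem_erase hw)) fun h => ?_
      exact Finset.ne_of_mem_erase hw (hinj w (Finset.mem_of_mem_erase hw) h)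
    have h4 : f.coeff w0 * lam ^ w0 * G w0 =
        -(∑ w ∈ f.support.erase w0, f.coeff w * lam ^ w * G w) := eq_neg_of_add_eq_zero_left hsum
    rw [← hterm w0 hw0, h4, Valuation.map_neg] at h3
    exact lt_irrefl _ h3

end Pool.Agent.Q51.VY
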