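import Mathlib
import Pool.Agent.Q51.VX.Line

set_option autoImplicit false

/-!
# Values of functions at places, and generic multiples without common zeros
-/

namespace Pool.Agent.Q51.VY

open FF Pool.Agent.W603.LV Pool.Agent.Q51.VX Pool.Agent.H533R3.SL

attribute [local instance] isFF_rf

/-- the function `f` has the value `c` at `P` -/
def Cg (P : Pls) (f : RatFunc ℂ) (c : ℂ) : Prop := Ge P 1 (f - algebraMap ℂ (RatFunc ℂ) c)

theorem Cg.ge {P : Pls} {f : RatFunc ℂ} {c : ℂ} (h : Cg P f c) : Ge P 0 f := by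
  have h1 : Ge P 0 (f - algebraMap ℂ (RatFunc ℂ) c + algebraMap ℂ (RatFunc ℂ) c) :=
    (Ge.mono (by norm_num) h).add (Ge.const c)
  rwa [sub_add_cancel] at h1

theorem Cg.const (P : Pls) (c : ℂ) : Cg P (algebraMap ℂ (RatFunc ℂ) c) c := by
  unfold Cg
  rw [sub_self]
  exact Ge.zero

theorem Cg.add {P : Pls} {f g : RatFunc ℂ} {c d : ℂ} (h : Cg P f c) (h' : Cg P g d) :
    Cg P (f + g) (c + d) := by
  unfold Cg at *
  rw [map_add, add_sub_add_comm]
  exact Ge.add h h'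

theorem Cg.mul {P : Pls} {f g : RatFunc ℂ} {c d : ℂ} (h : Cg P f c) (h' : Cg P g d) :
    Cg P (f * g) (c * d) := by
  have h1 := Ge.mul (N := 1) (M := 0) h h'.ge
  have h2 := Ge.mul (N := 0) (M := 1) (Ge.const (P := P) c) h'
  rw [add_zero] at h1
  rw [zero_add] at h2
  have h3 := Ge.add h1 h2
  unfold Cg
  rw [map_mul]
  have h4 : f * g - algebraMap ℂ (RatFunc ℂ) c * algebraMap ℂ (RatFunc ℂ) d =
      (f - algebraMap ℂ (RatFunc ℂ) c) * g +
        algebraMap ℂ (RatFunc ℂ) c * (g - algebraMap ℂ (RatFunc ℂ) d) := by ring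
  rw [h4]
  exact h3

theorem Cg.sum {P : Pls} {ι : Type} (s : Finset ι) (f : ι → RatFunc ℂ) (c : ι → ℂ)
    (h : ∀ i ∈ s, Cg P (f i) (c i)) : Cg P (∑ i ∈ s, f i) (∑ i ∈ s, c i) := by
  classical
  induction s using Finset.induction_on with
  | empty =>
    have := Cg.const P 0
    simpa using this
  | insert a s ha ih =>
    rw [Finset.sum_insert ha, Finset.sum_insert ha]
    exact (h a (Finset.mem_insert_self a s)).add
      (ih fun i hi => h i (Finset.mem_insert_of_mem hi))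

theorem Cg.prod {P : Pls} {ι : Type} (s : Finset ι) (f : ι → RatFunc ℂ) (c : ι → ℂ)
    (h : ∀ i ∈ s, Cg P (f i) (c i)) : Cg P (∏ i ∈ s, f i) (∏ i ∈ s, c i) := by
  classical
  induction s using Finset.induction_on with
  | empty =>
    have := Cg.const P 1
    simpa using this
  | insert a s ha ih =>
    rw [Finset.prod_insert ha, Finset.prod_insert ha]
    exact (h a (Finset.mem_insert_self a s)).mul
      (ih fun i hi => h i (Finset.mem_insert_of_mem hi))

theorem Cg.eq_zero {P : Pls} {c : ℂ} (h : Ge P 1 (algebraMap ℂ (RatFunc ℂ) c)) : c = 0 := by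
  by_contra hc
  rcases h with h | h
  · exact hc ((map_eq_zero _).1 h)
  · rw [P.ord_const hc] at h
    norm_num at h

theorem Cg.ord {P : Pls} {f : RatFunc ℂ} {c : ℂ} (h : Cg P f c) (hc : c ≠ 0) :
    f ≠ 0 ∧ P.ord f = 0 := by
  have hf : f ≠ 0 := by
    rintro rfl
    unfold Cg at h
    rw [zero_sub] at h
    apply hc
    apply Cg.eq_zero (P := P)
    simpa using h.neg
  refine ⟨hf, ?_⟩
  have h1 : 0 ≤ P.ord f := h.ge.resolve_left hf
  by_contra h2
  have h3 : Ge P 1 f := Or.inr (by omega)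
  apply hc
  apply Cg.eq_zero (P := P)
  have h4 := h3.sub h
  rwa [sub_sub_cancel] at h4

theorem Cg.inv {P : Pls} {f : RatFunc ℂ} {c : ℂ} (h : Cg P f c) (hc : c ≠ 0) :
    Cg P f⁻¹ c⁻¹ := by
  obtain ⟨hf, h0⟩ := h.ord hc
  have h1 : Ge P 0 (f⁻¹ * algebraMap ℂ (RatFunc ℂ) c⁻¹) := by
    have h2 := Ge.mul (P := P) (N := 0) (M := 0) (f := f⁻¹) (g := algebraMap ℂ (RatFunc ℂ) c⁻¹)
      (Or.inr (by rw [P.ord_inv, h0]; simp)) (Ge.const _)
    simpa using h2
  have h3 := Ge.mul (N := 0) (M := 1) h1 (Ge.neg h)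
  unfold Cg
  have h4 : f⁻¹ - algebraMap ℂ (RatFunc ℂ) c⁻¹ = f⁻¹ * algebraMap ℂ (RatFunc ℂ) c⁻¹ *
      -(f - algebraMap ℂ (RatFunc ℂ) c) := by
    have hc' : algebraMap ℂ (RatFunc ℂ) c ≠ 0 := (map_ne_zero _).2 hc
    rw [map_inv₀]
    field_simp
    ring
  rw [h4]
  simpa using h3

theorem Cg.pow {P : Pls} {f : RatFunc ℂ} {c : ℂ} (h : Cg P f c) (n : ℕ) :
    Cg P (f ^ n) (c ^ n) := by
  induction n with
  | zero => simpa using Cg.const P 1
  | succ n ih =>
    rw [pow_succ, pow_succ]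
    exact ih.mul h

theorem Cg.zpow {P : Pls} {f : RatFunc ℂ} {c : ℂ} (h : Cg P f c) (hc : c ≠ 0) (n : ℤ) :
    Cg P (f ^ n) (c ^ n) := by
  cases n with
  | ofNat n => simpa using h.pow n
  | negSucc n =>
    rw [zpow_negSucc, zpow_negSucc]
    exact (h.pow (n + 1)).inv (pow_ne_zero _ hc)

variable {κ : Type} [Fintype κ] (p : κ → ℂ)

/-- the values of the functions `gg` at a place that is not a puncture -/
theorem gg_val (P : Pls) (hP : ∀ o, P ≠ pl (p o)) :
    (∀ m : κ → ℤ, ∑ o, m o = 0 → Cg P (gg p m) 1) ∨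
      ∃ t0 : ℂ, (∀ o, t0 ≠ p o) ∧ ∀ m : κ → ℤ, ∑ o, m o = 0 →
        Cg P (gg p m) (∏ o, (t0 - p o) ^ m o) := by
  by_cases hX : Ge P 0 (RatFunc.X : RatFunc ℂ)
  · right
    obtain ⟨t0, ht0⟩ := exists_const P hX
    have hne : ∀ o, t0 ≠ p o := by
      intro o h
      apply hP o
      rw [← h]
      apply pl_unique
      have h1 : Ge P 1 (lf t0) := ht0
      have := h1.resolve_left (lf_ne t0)
      omega
    refine ⟨t0, hne, fun m _ => ?_⟩
    unfold gg
    refine Cg.prod _ _ _ fun o _ => ?_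
    refine Cg.zpow ?_ (sub_ne_zero.2 (hne o)) _
    have h1 : Cg P (RatFunc.X : RatFunc ℂ) t0 := ht0
    have h2 := h1.add (Cg.const P (-p o))
    have h3 : (RatFunc.X : RatFunc ℂ) + algebraMap ℂ (RatFunc ℂ) (-p o) = lf (p o) := by
      unfold lf
      rw [map_neg, sub_eq_add_neg]
    rw [h3] at h2
    simpa [sub_eq_add_neg] using h2
  · left
    intro m hm
    have hX0 : (RatFunc.X : RatFunc ℂ) ≠ 0 := RatFunc.X_ne_zero
    have hord : P.ord (RatFunc.X : RatFunc ℂ) < 0 := by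
      by_contra h
      exact hX (Or.inr (by omega))
    have h1 : gg p m = ∏ o, (lf (p o) / RatFunc.X) ^ m o := by
      simp_rw [div_zpow]
      rw [Finset.prod_div_distrib, zpow_sum_ne _ hX0, hm, zpow_zero, div_one]
      rfl
    rw [h1]
    have h2 : (1 : ℂ) = ∏ o : κ, (1 : ℂ) ^ m o := by simp
    rw [h2]
    refine Cg.prod _ _ _ fun o _ => Cg.zpow ?_ one_ne_zero _
    unfold Cg
    have h3 : lf (p o) / RatFunc.X - algebraMap ℂ (RatFunc ℂ) 1 =
        -(algebraMap ℂ (RatFunc ℂ) (p o)) * (RatFunc.X)⁻¹ := by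
      unfold lf
      rw [map_one]
      field_simp
      ring
    rw [h3]
    have h4 := Ge.mul (P := P) (N := 0) (M := 1) (Ge.const (p o)).neg
      (Or.inr (by rw [P.ord_inv]; omega) : Ge P 1 ((RatFunc.X : RatFunc ℂ)⁻¹))
    simpa using h4

end Pool.Agent.Q51.VY
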