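import Mathlib
import Pool.Agent.Q51.VY.Val
import Pool.Agent.Q51.VY.Gen

set_option autoImplicit false

/-!
# Generic multiples of coprime punctured curves have no common zeros
-/

namespace Pool.Agent.Q51.VY

open FF Pool.Agent.W603.LV Pool.Agent.Q51.VX Pool.Agent.H533R3.SL

attribute [local instance] isFF_rf

theorem exists_V (K1 : Subfield ℂ) (t0 : ℂ) (ht : ¬ IsAlgebraic K1 t0) :
    ∃ V : ValuationSubring ℂ, (∀ x ∈ K1, x ∈ V) ∧ t0 ∉ V := by
  by_contra hcon
  push Not at hcon
  apply ht
  have h1 : t0 ∈ (⨅ V : {V : ValuationSubring ℂ // (K1 : Set ℂ) ⊆ V.toSubring},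
      V.1.toSubring) := by
    rw [Subring.mem_iInf]
    intro V
    exact hcon V.1 fun x hx => V.2 hx
  rw [iInf_valuationSubring_superset] at h1
  have h2 : IsIntegral (Subring.closure (K1 : Set ℂ)) t0 := h1
  have h3 : IsAlgebraic (Subring.closure (K1 : Set ℂ)) t0 := h2.isAlgebraic
  have h4 : Subring.closure (K1 : Set ℂ) ≤ K1.toSubring :=
    Subring.closure_le.2 fun x hx => hx
  obtain ⟨P, hP0, hP⟩ := h3
  refine ⟨P.map (Subring.inclusion h4), ?_, ?_⟩
  · exact (Polynomial.map_ne_zero_iff (Subring.inclusion_injective h4)).2 hP0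
  · rw [Polynomial.aeval_def, Polynomial.eval₂_map]
    exact hP

variable {n r : ℕ} {κ : Type} [Fintype κ]

theorem no_zero (p : κ → ℂ) (K1 : Subfield ℂ) (hp : ∀ o, p o ∈ K1)
    (c : Fin r → Fin (n + 1) → ℂ) (l : Fin r → ℕ) (A : Fin (n + 1) → Polynomial ℂ) (m0 : ℕ)
    (hA : ∑ i, A i * cur c l i = Polynomial.X ^ m0) (hc : ∀ j i, c j i ∈ K1)
    (hAK : ∀ i e, (A i).coeff e ∈ K1) (lam : ℂ) (hlam : Transcendental K1 lam)
    (m : Fin r → κ → ℤ) (hm : ∀ j, ∑ o, m j o = 0) (hml : ∀ j j', l j = l j' → m j = m j')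
    (P : Pls) (hP : ∀ o, P ≠ pl (p o)) :
    ∃ i, (∑ j, algebraMap ℂ (RatFunc ℂ) (c j i * lam ^ (l j)) * gg p (m j)) ≠ 0 ∧
      P.ord (∑ j, algebraMap ℂ (RatFunc ℂ) (c j i * lam ^ (l j)) * gg p (m j)) = 0 := by
  classical
  have hlam0 : lam ≠ 0 := by
    rintro rfl
    exact hlam (isAlgebraic_zero)
  have key : ∀ g : Fin r → ℂ, (∀ j, Cg P (gg p (m j)) (g j)) →
      (∃ i, ∑ j, c j i * lam ^ (l j) * g j ≠ 0) →
      ∃ i, (∑ j, algebraMap ℂ (RatFunc ℂ) (c j i * lam ^ (l j)) * gg p (m j)) ≠ 0 ∧
        P.ord (∑ j, algebraMap ℂ (RatFunc ℂ) (c j i * lam ^ (l j)) * gg p (m j)) = 0 := by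
    rintro g hg ⟨i, hi⟩
    refine ⟨i, Cg.ord (c := ∑ j, c j i * lam ^ (l j) * g j) ?_ hi⟩
    exact Cg.sum _ _ _ fun j _ => (Cg.const P _).mul (hg j)
  rcases gg_val p P hP with h1 | ⟨t0, ht0, h1⟩
  · refine key (fun _ => 1) (fun j => h1 _ (hm j)) ?_
    exact no_common_alg K1 c l A m0 hA hc lam hlam (fun _ => 1) (fun _ => one_ne_zero)
      (fun _ _ _ => rfl) (fun _ => isAlgebraic_one)
  · refine key (fun j => ∏ o, (t0 - p o) ^ m j o) (fun j => h1 _ (hm j)) ?_
    have hne : ∀ o, t0 - p o ≠ 0 := fun o => sub_ne_zero.2 (ht0 o)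
    have hgl : ∀ j j', l j = l j' →
        (fun j => ∏ o, (t0 - p o) ^ m j o) j = (fun j => ∏ o, (t0 - p o) ^ m j o) j' := by
      intro j j' h
      simp only
      rw [hml j j' h]
    by_cases halg : IsAlgebraic K1 t0
    · refine no_common_alg K1 c l A m0 hA hc lam hlam _
        (fun j => Finset.prod_ne_zero_iff.2 fun o _ => zpow_ne_zero _ (hne o)) hgl (fun j => ?_)
      have hE : ∀ o, t0 - p o ∈ algebraicClosure K1 ℂ := fun o =>
        sub_mem (mem_algebraicClosure_iff.2 halg)
          ((algebraicClosure K1 ℂ).algebraMap_mem ⟨p o, hp o⟩)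
      exact mem_algebraicClosure_iff.1 (prod_mem fun o _ => zpow_mem (hE o) _)
    · obtain ⟨V, hV1, hV2⟩ := exists_V K1 t0 halg
      have ht00 : t0 ≠ 0 := by
        rintro rfl
        exact hV2 V.zero_mem
      have hinv : V.valuation t0⁻¹ < 1 := by
        rw [map_inv₀]
        have h2 : 1 < V.valuation t0 := by
          by_contra h3
          exact hV2 ((V.valuation_le_one_iff t0).1 (not_lt.1 h3))
        exact inv_lt_one_of_one_lt₀ h2
      refine no_common_val K1 c l A m0 hA hc hAK lam hlam0 _ hgl V hV1 (fun j => ?_)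
      have e1 : ∏ o, (t0 - p o) ^ m j o = ∏ o, (1 - p o * t0⁻¹) ^ m j o := by
        have h2 : ∀ o, (t0 - p o) ^ m j o = (1 - p o * t0⁻¹) ^ m j o * t0 ^ m j o := by
          intro o
          rw [← mul_zpow]
          congr 1
          field_simp
        rw [Finset.prod_congr rfl fun o _ => h2 o, Finset.prod_mul_distrib,
          zpow_sum_ne _ ht00, hm j, zpow_zero, mul_one]
      rw [e1]
      -- the units congruent to one
      have hU : ∀ o, V.valuation ((1 - p o * t0⁻¹) - 1) < 1 := by
        intro o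
        have h2 : (1 - p o * t0⁻¹) - 1 = -(p o * t0⁻¹) := by ring
        rw [h2, Valuation.map_neg, map_mul]
        calc V.valuation (p o) * V.valuation t0⁻¹ ≤ 1 * V.valuation t0⁻¹ :=
              mul_le_mul_left ((V.valuation_le_one_iff _).2 (hV1 _ (hp o))) _
          _ < 1 := by rw [one_mul]; exact hinv
      have hone : ∀ z : ℂ, V.valuation (z - 1) < 1 → V.valuation z = 1 := by
        intro z hz
        have h2 : z = 1 + (z - 1) := by ring
        rw [h2]
        exact Valuation.map_one_add_of_lt _ hz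
      have hmul : ∀ z w : ℂ, V.valuation (z - 1) < 1 → V.valuation (w - 1) < 1 →
          V.valuation (z * w - 1) < 1 := by
        intro z w hz hw
        have h2 : z * w - 1 = z * (w - 1) + (z - 1) := by ring
        rw [h2]
        refine Valuation.map_add_lt _ ?_ hz
        rw [map_mul, hone z hz, one_mul]
        exact hw
      have hinv' : ∀ z : ℂ, V.valuation (z - 1) < 1 → V.valuation (z⁻¹ - 1) < 1 := by
        intro z hz
        have hz0 : z ≠ 0 := by
          rintro rfl
          rw [zero_sub, Valuation.map_neg, map_one] at hz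
          exact lt_irrefl _ hz
        have h2 : z⁻¹ - 1 = -(z⁻¹ * (z - 1)) := by
          field_simp
          ring
        rw [h2, Valuation.map_neg, map_mul, map_inv₀, hone z hz, inv_one, one_mul]
        exact hz
      have hpow : ∀ (z : ℂ), V.valuation (z - 1) < 1 → ∀ k : ℕ,
          V.valuation (z ^ k - 1) < 1 := by
        intro z hz k
        induction k with
        | zero => simp
        | succ k ih =>
          rw [pow_succ]
          exact hmul _ _ ih hz
      have hzpow : ∀ (z : ℂ), V.valuation (z - 1) < 1 → ∀ k : ℤ,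
          V.valuation (z ^ k - 1) < 1 := by
        intro z hz k
        cases k with
        | ofNat k => exact hpow z hz k
        | negSucc k =>
          rw [zpow_negSucc]
          exact hinv' _ (hpow z hz _)
      have hprod : ∀ s : Finset κ, V.valuation (∏ o ∈ s, (1 - p o * t0⁻¹) ^ m j o - 1) < 1 := by
        intro s
        induction s using Finset.induction_on with
        | empty => simp
        | insert a s ha ih =>
          rw [Finset.prod_insert ha]
          exact hmul _ _ (hzpow _ (hU a) _) ih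
      exact hprod Finset.univ

end Pool.Agent.Q51.VY
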