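import Mathlib
import Pool.Agent.Q51.VX.FF
import Pool.Agent.Y215.SK.FinA

set_option autoImplicit false

/-!
# The truncated inequality for punctured rational curves in general pairs
-/

namespace Pool.Agent.Q51.VY

open MvPolynomial FF Pool.Agent.Q51.HG Pool.Agent.Q51.VX
open Pool.Agent.W603.LV Pool.Agent.W603.PV Pool.Agent.W603.CZ
open Pool.Agent.TH182.VD (CI)

variable {n q : ℕ}

attribute [local instance] isFF_rf

theorem punctY (d : Fin q → ℕ) (a : CI n d → ℂ) (ha : AlgebraicIndependent ℚ a)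
    (Z : Finset (Fin q)) {k : ℕ}
    (T : Finset (Place ℂ (RatFunc ℂ))) (x : Fin (n + 1) → RatFunc ℂ) (hx0 : x ≠ 0)
    (hx : ∀ i, aeval x (gF n d a i) = 0 ↔ i ∈ Z)
    (hT : ∀ P, P ∉ T → pord P x = 0) (y : Fin k → RatFunc ℂ) (hy0 : ∀ l, y l ≠ 0)
    (hyT : ∀ P, P ∉ T → ∀ l, 0 ≤ P.ord (y l))
    (hmeet : ∀ i, i ∉ Z → ∀ P, P ∉ T → 0 < P.ord (aeval x (gF n d a i)) →
      ∃ l, 0 < P.ord (y l)) :
    ((∑ i, (d i : ℤ)) + Z.card - 2 * n) * ∑ P ∈ T, (-pord P x) ≤
      T.card + ∑ l, ∑ P ∈ T, -P.ord (y l) := by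
  classical
  set κ : ℤ := (∑ i, (d i : ℤ)) + Z.card - 2 * n with hκdef
  -- a finite set of places
  have hof : ∀ l, (Function.support fun P : Place ℂ (RatFunc ℂ) => P.ord (y l)).Finite :=
    fun l => finite_support _
  set U : Finset (Place ℂ (RatFunc ℂ)) := T ∪
    Finset.univ.biUnion fun l => (hof l).toFinset with hU
  have hTU : T ⊆ U := Finset.subset_union_left
  have hoU : ∀ l P, P.ord (y l) ≠ 0 → P ∈ U := fun l P hP =>
    Finset.mem_union_right _ (Finset.mem_biUnion.2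
      ⟨l, Finset.mem_univ l, (hof l).mem_toFinset.2 hP⟩)
  have hpht : pht ℂ x = ∑ P ∈ T, (-pord P x) := by
    unfold pht
    rw [finsum_eq_sum_of_support_subset (s := T), Finset.sum_neg_distrib]
    intro P hP
    by_contra hcon
    exact hP (hT P hcon)
  have hord : ∀ l, ∑ P ∈ U, P.ord (y l) = 0 := fun l => sum_ord_finset _ U (hoU l)
  have hsplit : ∀ f : Place ℂ (RatFunc ℂ) → ℤ, ∑ P ∈ U, f P = ∑ P ∈ T, f P + ∑ P ∈ U \ T, f P := by
    intro f
    rw [add_comm, Finset.sum_sdiff hTU]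
  have hR : ∑ l, ∑ P ∈ T, -P.ord (y l) = ∑ P ∈ U \ T, ∑ l, P.ord (y l) := by
    rw [Finset.sum_comm (s := U \ T)]
    refine Finset.sum_congr rfl fun l _ => ?_
    have h1 := hord l
    rw [hsplit] at h1
    rw [Finset.sum_neg_distrib]
    linarith
  have hnn : ∀ P ∈ U \ T, ∀ l ∈ (Finset.univ : Finset (Fin k)), 0 ≤ P.ord (y l) :=
    fun P hP l _ => hyT P (Finset.mem_sdiff.1 hP).2 l
  have hR0 : 0 ≤ ∑ P ∈ U \ T, ∑ l, P.ord (y l) :=
    Finset.sum_nonneg fun P hP => Finset.sum_nonneg (hnn P hP)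
  have hTc : (0 : ℤ) ≤ T.card := Nat.cast_nonneg _
  rw [← hpht, hR]
  by_cases hc : ∃ (c : RatFunc ℂ) (y : Fin (n + 1) → ℂ), x = c • fun l => algebraMap ℂ _ (y l)
  · -- the constant case
    obtain ⟨c, z, hcz⟩ := hc
    have hc0 : c ≠ 0 := by
      rintro rfl
      apply hx0
      rw [hcz, zero_smul]
    have hxj : ∀ j, x j = c * algebraMap ℂ (RatFunc ℂ) (z j) := fun j => by
      rw [hcz]
      rfl
    have hpo : ∀ P : Place ℂ (RatFunc ℂ), pord P x = P.ord c := by
      intro P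
      obtain ⟨j, hj, hj2⟩ := exists_pord P (Function.ne_iff.1 hx0)
      rw [← hj2, hxj j]
      have hy : z j ≠ 0 := by
        intro h
        apply hj
        rw [hxj, h, map_zero, mul_zero]
      rw [P.ord_mul hc0 ((map_ne_zero _).2 hy), ord_const_ne P hy, add_zero]
    have h0 : pht ℂ x = 0 := by
      rw [hpht, Finset.sum_neg_distrib, neg_eq_zero]
      rw [Finset.sum_congr rfl fun P _ => hpo P]
      exact sum_ord_finset _ T fun P hP => by
        by_contra hcon
        exact hP (by rw [← hpo]; exact hT P hcon)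
    rw [h0, mul_zero]
    linarith
  · push Not at hc
    have h := ff_ineq d a ha Z (RatFunc ℂ) x hc hx
    rw [canDeg_rf, ← hκdef] at h
    -- the number of places
    set ME := meetsAny (k := ℂ) (fun i : {i // i ∉ Z} => gF n d a i) (fun i => d i) x with hME
    have hmem : ∀ P ∈ ME, P ∉ T → ∃ l, 0 < P.ord (y l) := by
      rintro P ⟨⟨i, hi⟩, hP⟩ hPT
      simp only at hP
      rw [hT P hPT, mul_zero] at hP
      exact hmeet i hi P hPT hP
    have hMU : ME ⊆ (U : Set (Place ℂ (RatFunc ℂ))) := by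
      intro P hP
      by_cases hPT : P ∈ T
      · exact hTU hPT
      · obtain ⟨l, hl⟩ := hmem P hP hPT
        exact hoU l P hl.ne'
    have hcard : (ME.ncard : ℤ) ≤ T.card + ∑ P ∈ U \ T, ∑ l, P.ord (y l) := by
      have h1 : ME.ncard = (U.filter fun P => P ∈ ME).card := by
        rw [← Set.ncard_coe_finset]
        congr 1
        ext P
        simp only [Finset.coe_filter, Set.mem_setOf_eq]
        exact ⟨fun h => ⟨hMU h, h⟩, fun h => h.2⟩
      have h2 : ((U.filter fun P => P ∈ ME).card : ℤ) = ∑ P ∈ U, if P ∈ ME then (1 : ℤ) else 0 := by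
        rw [Finset.card_filter]
        push_cast
        rfl
      rw [h1, h2, hsplit]
      refine add_le_add ?_ ?_
      · have h3 : ∑ P ∈ T, (if P ∈ ME then (1 : ℤ) else 0) ≤ ∑ P ∈ T, (1 : ℤ) :=
          Finset.sum_le_sum fun P _ => by split_ifs <;> norm_num
        simpa using h3
      · refine Finset.sum_le_sum fun P hPU => ?_
        split_ifs with hP
        · obtain ⟨l, hl⟩ := hmem P hP (Finset.mem_sdiff.1 hPU).2
          have h3 := Finset.single_le_sum (hnn P hPU) (Finset.mem_univ l)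
          linarith
        · exact Finset.sum_nonneg (hnn P hPU)
    linarith

end Pool.Agent.Q51.VY
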