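import Mathlib
import Pool.Agent.Q51.VX.Types
import Pool.Agent.Q51.VY.NoZero
import Pool.Agent.Q51.VY.Punct

set_option autoImplicit false
set_option maxHeartbeats 1000000

/-!
# The truncated inequality for punctured curves given by vectors of integral weights
-/

namespace Pool.Agent.Q51.VY

open MvPolynomial FF Pool.Agent.Q51.HG Pool.Agent.H533R3.SL Pool.Agent.Q51.VX
open Pool.Agent.W603.LV Pool.Agent.W603.PV Pool.Agent.W603.CZ
open Pool.Agent.TH182.VD (CI)

attribute [local instance] isFF_rf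

variable {n q r M ν : ℕ}

theorem exists_transc (S : Set ℂ) (hS : S.Countable) :
    ∃ (K1 : Subfield ℂ) (lam : ℂ), S ⊆ K1 ∧ Transcendental K1 lam := by
  have hcount : Countable (Subfield.closure S) := by
    rw [← Cardinal.mk_le_aleph0_iff]
    refine (Subfield.cardinalMk_closure_le_max S).trans ?_
    rw [max_le_iff]
    exact ⟨hS.le_aleph0, le_rfl⟩
  obtain ⟨a, ha⟩ := exists_indep (Subfield.closure S) hcount Unit
  exact ⟨Subfield.closure S, a (), Subfield.subset_closure,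
    algebraicIndependent_unique_type_iff.1 ha⟩

/-- the linear form with the given coefficients -/
noncomputable def lin {K : Type} [CommRing K] (e : Fin r → K) : MvPolynomial (Fin r) K :=
  ∑ j, C (e j) * X j

theorem lin_hom {K : Type} [CommRing K] (e : Fin r → K) : (lin e).IsHomogeneous 1 := by
  unfold lin
  refine MvPolynomial.IsHomogeneous.sum _ _ _ fun j _ => ?_
  simpa using (MvPolynomial.isHomogeneous_C (Fin r) (e j)).mul
    (MvPolynomial.isHomogeneous_X K j)

theorem aeval_lin {K S : Type} [CommRing K] [CommRing S] [Algebra K S] (e : Fin r → K)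
    (g : Fin r → S) : aeval g (lin e) = ∑ j, algebraMap K S (e j) * g j := by
  unfold lin
  rw [map_sum]
  refine Finset.sum_congr rfl fun j _ => ?_
  rw [map_mul, aeval_X, aeval_C]

theorem aeval_GU {K S : Type} [Field K] [CommRing S] [Algebra K S] (g : Fin r → S)
    (c : Fin r → Fin (n + 1) → K) (F : MvPolynomial (Fin (n + 1)) K) :
    aeval g (GU c F) = aeval (fun i => ∑ j, algebraMap K S (c j i) * g j) F := by
  unfold GU
  rw [comp_aeval_apply]
  congr 2
  funext i
  rw [map_sum]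
  refine Finset.sum_congr rfl fun j _ => ?_
  rw [map_mul, aeval_X, aeval_C]

theorem aeval_X_lin {K : Type} [CommRing K] (e : Fin r → Fin (ν + 1) → K) (l : Fin r → ℕ)
    (l' : Fin (ν + 1)) : aeval (fun j => (Polynomial.X : Polynomial K) ^ (l j))
      (lin fun j => e j l') = cur e l l' := by
  rw [aeval_lin]
  rfl

theorem aeval_X_GU {K : Type} [Field K] (c : Fin r → Fin (n + 1) → K) (l : Fin r → ℕ)
    (F : MvPolynomial (Fin (n + 1)) K) :
    aeval (fun j => (Polynomial.X : Polynomial K) ^ (l j)) (GU c F) = aeval (cur c l) F := by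
  rw [aeval_GU]
  rfl

/-- the difference of the two sides of the factorisation, as a polynomial in the terms -/
noncomputable def Rel {K : Type} [Field K] (c : Fin r → Fin (n + 1) → K)
    (e : Fin r → Fin (ν + 1) → K) (F : MvPolynomial (Fin (n + 1)) K) (a b : Fin (ν + 1) → ℕ) :
    MvPolynomial (Fin r) K :=
  GU c F * ∏ l', (lin fun j => e j l') ^ a l' - ∏ l', (lin fun j => e j l') ^ b l'

theorem Rel_hom {K : Type} [Field K] (c : Fin r → Fin (n + 1) → K)
    (e : Fin r → Fin (ν + 1) → K) (F : MvPolynomial (Fin (n + 1)) K) (a b : Fin (ν + 1) → ℕ)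
    (d : ℕ) (hF : F.IsHomogeneous d) (hab : d + ∑ l', a l' = ∑ l', b l') :
    (Rel c e F a b).IsHomogeneous (∑ l', b l') := by
  have hp : ∀ a : Fin (ν + 1) → ℕ,
      (∏ l', (lin fun j => e j l') ^ a l').IsHomogeneous (∑ l', a l') := by
    intro a
    refine IsHomogeneous.prod _ _ _ fun l' _ => ?_
    simpa using (lin_hom fun j => e j l').pow (a l')
  have h1 := (GU_homL c F d hF).mul (hp a)
  rw [hab] at h1
  unfold Rel
  exact h1.sub (hp b)

theorem hom_le {K : Type} [Field K] {R : MvPolynomial (Fin r) K} {D e : ℕ}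
    (hR : R.IsHomogeneous e) (he : e ≤ D) (α : Fin r →₀ ℕ) (hα : α ∈ R.support) (j : Fin r) :
    α j ≤ D := by
  have h2 := hR (mem_support_iff.1 hα)
  rw [Finsupp.weight_apply, Finsupp.sum_fintype _ _ (by simp)] at h2
  have h3 : ∑ j, α j = e := by simpa using h2
  refine le_trans ?_ he
  rw [← h3]
  exact Finset.single_le_sum (f := fun j => α j) (fun _ _ => Nat.zero_le _) (Finset.mem_univ j)

theorem aeval_X_Rel {K : Type} [Field K] (c : Fin r → Fin (n + 1) → K)
    (e : Fin r → Fin (ν + 1) → K) (l : Fin r → ℕ) (F : MvPolynomial (Fin (n + 1)) K)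
    (a b : Fin (ν + 1) → ℕ) :
    aeval (fun j => (Polynomial.X : Polynomial K) ^ (l j)) (Rel c e F a b) =
      aeval (cur c l) F * ∏ l', cur e l l' ^ a l' - ∏ l', cur e l l' ^ b l' := by
  unfold Rel
  rw [map_sub, map_mul, map_prod, map_prod, aeval_X_GU]
  simp only [map_pow, aeval_X_lin]

section

variable {D : ℕ} {β : Fin M → Fin r → ℤ} {k : ℕ} {l : Fin r → ℕ}
variable (hβ : ∀ α α' : Fin r → ℕ, (∀ j, α j ≤ D) → (∀ j, α' j ≤ D) →
  ∑ j, α j * l j = ∑ j, α' j * l j → ∀ v, ∑ j, (α j : ℤ) * β v j = ∑ j, (α' j : ℤ) * β v j)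

include hβ in
theorem mon_transfer (p : Option (Fin M) → ℂ) (lam : ℂ) (R : MvPolynomial (Fin r) ℂ)
    (hR : ∀ α ∈ R.support, ∀ j, α j ≤ D)
    (h0 : aeval (fun j => (Polynomial.X : Polynomial ℂ) ^ (l j)) R = 0) :
    aeval (fun j => algebraMap ℂ (RatFunc ℂ) (lam ^ (l j)) * gg p (mx β k l j)) R = 0 := by
  let Λ : Polynomial ℂ →ₗ[ℂ] RatFunc ℂ :=
    Polynomial.lsum (fun t => LinearMap.toSpanSingleton ℂ (RatFunc ℂ)
      (algebraMap ℂ (RatFunc ℂ) (lam ^ t) * gg p (EE D β k l t)))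
  have hΛ1 : ∀ (b : ℂ) (t : ℕ), Λ (Polynomial.C b * Polynomial.X ^ t) =
      algebraMap ℂ (RatFunc ℂ) b * (algebraMap ℂ (RatFunc ℂ) (lam ^ t) *
        gg p (EE D β k l t)) := by
    intro b t
    rw [Polynomial.C_mul_X_pow_eq_monomial]
    show Polynomial.lsum _ _ = _
    rw [Polynomial.lsum_apply, Polynomial.sum_monomial_index]
    · rw [LinearMap.toSpanSingleton_apply, Algebra.smul_def]
    · simp
  have e1 : aeval (fun j => (Polynomial.X : Polynomial ℂ) ^ (l j)) R =
      ∑ α ∈ R.support, Polynomial.C (coeff α R) * Polynomial.X ^ (∑ j, α j * l j) := by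
    rw [MvPolynomial.aeval_def, MvPolynomial.eval₂_eq']
    refine Finset.sum_congr rfl fun α _ => ?_
    congr 1
    rw [← Finset.prod_pow_eq_pow_sum]
    refine Finset.prod_congr rfl fun j _ => ?_
    rw [← pow_mul, mul_comm]
  rw [e1] at h0
  have h1 := congrArg Λ h0
  rw [map_sum, map_zero] at h1
  rw [MvPolynomial.aeval_def, MvPolynomial.eval₂_eq', ← h1]
  refine Finset.sum_congr rfl fun α hα => ?_
  rw [hΛ1, EE_eq hβ _ (hR α hα), ← gg_prod]
  congr 1
  simp only [mul_pow]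
  rw [Finset.prod_mul_distrib]
  congr 1
  rw [← Finset.prod_pow_eq_pow_sum, map_prod]
  refine Finset.prod_congr rfl fun j _ => ?_
  rw [← map_pow, ← pow_mul, mul_comm]

end

/-- the multiple of the curve -/
def sc (lam : ℂ) (l : Fin r → ℕ) {m : ℕ} (c : Fin r → Fin m → ℂ) : Fin r → Fin m → ℂ :=
  fun j i => c j i * lam ^ (l j)

theorem coeff_sc (lam : ℂ) (l : Fin r → ℕ) (c : Fin r → Fin (n + 1) → ℂ) (i : Fin (n + 1))
    (w : ℕ) : (cur (sc lam l c) l i).coeff w = lam ^ w * (cur c l i).coeff w := by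
  rw [coeff_cur1, coeff_cur1, Finset.mul_sum]
  refine Finset.sum_congr rfl fun j hj => ?_
  unfold sc
  rw [(Finset.mem_filter.1 hj).2, mul_comm]

/-- an upper bound of the order at the additional puncture -/
theorem val_none {D : ℕ} {β : Fin M → Fin r → ℤ} {k : ℕ} {l : Fin r → ℕ}
    (hβ : ∀ α α' : Fin r → ℕ, (∀ j, α j ≤ D) → (∀ j, α' j ≤ D) →
      ∑ j, α j * l j = ∑ j, α' j * l j → ∀ v, ∑ j, (α j : ℤ) * β v j = ∑ j, (α' j : ℤ) * β v j)
    (hD : 1 ≤ D) (hM : 0 < M) (p : Option (Fin M) → ℂ) (hp : Function.Injective p)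
    (c : Fin r → Fin (n + 1) → ℂ) (i : Fin (n + 1)) (t : ℕ) (ht : (cur c l i).coeff t ≠ 0) :
    xx p β k l c i ≠ 0 ∧ (pl (p none)).ord (xx p β k l c i) ≤ M * t := by
  have hXm : aeval (xx p β k l c) (X i : MvPolynomial (Fin (n + 1)) ℂ) = xx p β k l c i :=
    aeval_X _ _
  have hcm : aeval (cur c l) (X i : MvPolynomial (Fin (n + 1)) ℂ) = cur c l i := aeval_X _ _
  have hexp : ∀ t', (cur c l i).coeff t' ≠ 0 → EE D β k l t' none = M * t' := by
    intro t' ht'
    rw [← hcm] at ht'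
    obtain ⟨α, hα, rfl⟩ := exists_exp c l _ t' ht'
    rw [EE_eq hβ _ fun j => (GU_deg c _ 1 (isHomogeneous_X ℂ i) α hα j).trans hD]
    simp only
    rw [mx_none]
  rw [← hXm, aeval_xx hβ p c _ 1 hD (isHomogeneous_X ℂ i), hcm]
  have h := ord_sum (pl (p none)) (cur c l i).support
    (fun t => (cur c l i).coeff t) (fun t => gg p (EE D β k l t))
    (fun t ht => Polynomial.mem_support_iff.1 ht) (fun _ _ => gg_ne p _) (fun t1 ht1 t2 ht2 h12 => by
      rw [ord_gg_at p hp, ord_gg_at p hp, hexp t1 (Polynomial.mem_support_iff.1 ht1),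
        hexp t2 (Polynomial.mem_support_iff.1 ht2)] at h12
      have h3 : (M : ℤ) ≠ 0 := by exact_mod_cast hM.ne'
      exact_mod_cast mul_left_cancel₀ h3 h12) t (Polynomial.mem_support_iff.2 ht)
  rw [ord_gg_at p hp, hexp t ht] at h
  exact h

/-- **The inequality for integral weights.** -/
theorem int_ineqY (d : Fin q → ℕ) (a : CI n d → ℂ) (ha : AlgebraicIndependent ℚ a)
    (Z : Finset (Fin q)) (D : ℕ) (hdD : ∀ i, d i ≤ D) (hD : 1 ≤ D)
    (hκ0 : 0 ≤ (∑ i, (d i : ℤ)) + Z.card - 2 * n)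
    (c : Fin r → Fin (n + 1) → ℂ) (e : Fin r → Fin (ν + 1) → ℂ) (l : Fin r → ℕ)
    (ea eb : Fin q → Fin (ν + 1) → ℕ) (hab : ∀ i, i ∉ Z → d i + ∑ l', ea i l' = ∑ l', eb i l')
    (hebD : ∀ i, i ∉ Z → ∑ l', eb i l' ≤ D)
    (hZ : ∀ i ∈ Z, aeval (cur c l) (gF n d a i) = 0)
    (hE : ∀ i, i ∉ Z → aeval (cur c l) (gF n d a i) * ∏ l', cur e l l' ^ ea i l' =
      ∏ l', cur e l l' ^ eb i l')
    (hy : ∀ l', cur e l l' ≠ 0)
    (A : Fin (n + 1) → Polynomial ℂ) (m0 : ℕ)
    (hA : ∑ i, A i * cur c l i = Polynomial.X ^ m0)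
    (β : Fin M → Fin r → ℤ) (hβ0 : ∀ j, ∑ v, β v j = 0)
    (hβ : ∀ α α' : Fin r → ℕ, (∀ j, α j ≤ D) → (∀ j, α' j ≤ D) →
      ∑ j, α j * l j = ∑ j, α' j * l j → ∀ v, ∑ j, (α j : ℤ) * β v j = ∑ j, (α' j : ℤ) * β v j)
    (jj : Fin M → Fin r) (hjj : ∀ v, ∃ m, (cur c l m).coeff (l (jj v)) ≠ 0)
    (B : Fin M → Fin (ν + 1) → ℤ)
    (hB : ∀ v l' j, (cur e l l').coeff (l j) ≠ 0 → β v j ≤ B v l') :
    ((∑ i, (d i : ℤ)) + Z.card - 2 * n) * ∑ v, β v (jj v) ≤ ∑ l', ∑ v, B v l' := by
  classical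
  set κ : ℤ := (∑ i, (d i : ℤ)) + Z.card - 2 * n with hκdef
  rcases Nat.eq_zero_or_pos M with hM | hM
  · subst hM
    simp
  by_contra hcon
  push Not at hcon
  -- the scaling
  obtain ⟨K1, lam, hK1, hlam⟩ := exists_transc
    ((⋃ j, ⋃ i, {c j i}) ∪ (⋃ i, ((fun e => (A i).coeff e) '' (Set.univ : Set ℕ)))) (by
      refine Set.Countable.union ?_ ?_
      · exact Set.countable_iUnion fun j => Set.countable_iUnion fun i => Set.countable_singleton _
      · exact Set.countable_iUnion fun i => Set.countable_univ.image _)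
  have hcK : ∀ j i, c j i ∈ K1 := fun j i => hK1 (Or.inl (by
    simp only [Set.mem_iUnion, Set.mem_singleton_iff]
    exact ⟨j, i, rfl⟩))
  have hAK : ∀ i e, (A i).coeff e ∈ K1 := fun i e => hK1 (Or.inr (by
    simp only [Set.mem_iUnion]
    exact ⟨i, e, trivial, rfl⟩))
  have hlam0 : lam ≠ 0 := by
    rintro rfl
    exact hlam isAlgebraic_zero
  set Λ : ℕ := D * ∑ j, l j with hΛ
  have hlΛ : ∀ j, l j ≤ Λ := by
    intro j
    have h1 := Finset.single_le_sum (f := fun j => l j) (fun _ _ => Nat.zero_le _)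
      (Finset.mem_univ j)
    calc l j ≤ ∑ j, l j := h1
      _ ≤ D * ∑ j, l j := Nat.le_mul_of_pos_left _ hD
  obtain ⟨κn, hκn⟩ := Int.eq_ofNat_of_zero_le hκ0
  set k : ℕ := Λ + ((M + 1) + κn * (M * Λ) + (ν + 1) * M * Λ) + 1 with hk
  have hkΛ : D * ∑ j, l j < k := by omega
  have hp := pp_inj M
  set c' := sc lam l c with hc'
  set e' := sc lam l e with he'
  set x := xx (pp M) β k l c' with hx
  set y := xx (pp M) β k l e' with hydef
  have hXm : ∀ m, aeval x (X m : MvPolynomial (Fin (n + 1)) ℂ) = x m := fun m => aeval_X _ _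
  have hXy : ∀ m, aeval y (X m : MvPolynomial (Fin (ν + 1)) ℂ) = y m := fun m => aeval_X _ _
  have hcm : ∀ m, aeval (cur c' l) (X m : MvPolynomial (Fin (n + 1)) ℂ) = cur c' l m := fun m =>
    aeval_X _ _
  have hem : ∀ m, aeval (cur e' l) (X m : MvPolynomial (Fin (ν + 1)) ℂ) = cur e' l m := fun m =>
    aeval_X _ _
  have hhm : ∀ m, (X m : MvPolynomial (Fin (n + 1)) ℂ).IsHomogeneous 1 := fun m =>
    isHomogeneous_X ℂ m
  have hhy : ∀ m, (X m : MvPolynomial (Fin (ν + 1)) ℂ).IsHomogeneous 1 := fun m =>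
    isHomogeneous_X ℂ m
  have hccoef : ∀ m w, (cur c' l m).coeff w ≠ 0 ↔ (cur c l m).coeff w ≠ 0 := by
    intro m w
    rw [hc', coeff_sc]
    exact ⟨fun h => right_ne_zero_of_mul h, fun h => mul_ne_zero (pow_ne_zero _ hlam0) h⟩
  have hecoef : ∀ m w, (cur e' l m).coeff w ≠ 0 ↔ (cur e l m).coeff w ≠ 0 := by
    intro m w
    rw [he', coeff_sc]
    exact ⟨fun h => right_ne_zero_of_mul h, fun h => mul_ne_zero (pow_ne_zero _ hlam0) h⟩
  -- the point is not zero
  have hx0 : x ≠ 0 := by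
    obtain ⟨m, hm⟩ := hjj ⟨0, hM⟩
    have h1 := (val_lower hβ (pp M) hp c' (X m) 1 hD (hhm m) hkΛ ⟨0, hM⟩ _
      (by rw [hcm]; exact (hccoef _ _).2 hm)).1
    intro h
    apply h1
    rw [← hx, hXm, h]
    rfl
  have hyc : ∀ l', ∃ t, (cur e l l').coeff t ≠ 0 := by
    intro l'
    by_contra h1
    push Not at h1
    exact hy l' (Polynomial.ext h1)
  have hy0 : ∀ l', y l' ≠ 0 := by
    intro l'
    obtain ⟨t, ht⟩ := hyc l'
    have h1 := (val_lower hβ (pp M) hp e' (X l') 1 hD (hhy l') hkΛ ⟨0, hM⟩ t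
      (by rw [hem]; exact (hecoef _ _).2 ht)).1
    rwa [← hydef, hXy] at h1
  -- evaluation
  set g : Fin r → RatFunc ℂ := fun j =>
    algebraMap ℂ (RatFunc ℂ) (lam ^ (l j)) * gg (pp M) (mx β k l j) with hg
  have hxg : x = fun i => ∑ j, algebraMap ℂ (RatFunc ℂ) (c j i) * g j := by
    funext i
    simp only [hx, xx, hc', sc, hg, map_mul, mul_assoc]
  have hyg : y = fun i => ∑ j, algebraMap ℂ (RatFunc ℂ) (e j i) * g j := by
    funext i
    simp only [hydef, xx, he', sc, hg, map_mul, mul_assoc]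
  have hevF : ∀ F : MvPolynomial (Fin (n + 1)) ℂ, aeval x F = aeval g (GU c F) := by
    intro F
    rw [aeval_GU, ← hxg]
  have hevy : ∀ l', y l' = aeval g (lin fun j => e j l') := by
    intro l'
    rw [aeval_lin, hyg]
  have hZx : ∀ i ∈ Z, aeval x (gF n d a i) = 0 := by
    intro i hi
    rw [hevF]
    refine mon_transfer hβ (pp M) lam _ (fun α hα j =>
      (GU_deg c _ (d i) (gF_hom d a i) α hα j).trans (hdD i)) ?_
    rw [aeval_X_GU]
    exact hZ i hi
  have hEx : ∀ i, i ∉ Z → aeval x (gF n d a i) * ∏ l', y l' ^ ea i l' = ∏ l', y l' ^ eb i l' := by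
    intro i hi
    have h1 := mon_transfer hβ (k := k) (pp M) lam (Rel c e (gF n d a i) (ea i) (eb i))
      (fun α hα j => hom_le (Rel_hom c e _ _ _ (d i) (gF_hom d a i) (hab i hi)) (hebD i hi) α hα j)
      (by rw [aeval_X_Rel, hE i hi, sub_self])
    rw [← hg] at h1
    unfold Rel at h1
    rw [map_sub, map_mul, map_prod, map_prod, sub_eq_zero, ← hevF] at h1
    simp only [map_pow, ← hevy] at h1
    exact h1
  have hxC : ∀ i, i ∉ Z → aeval x (gF n d a i) ≠ 0 := by
    intro i hi h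
    have h1 := hEx i hi
    rw [h, zero_mul] at h1
    exact Finset.prod_ne_zero_iff.2 (fun l' _ => pow_ne_zero (eb i l') (hy0 l')) h1.symm
  have hxZ : ∀ i, aeval x (gF n d a i) = 0 ↔ i ∈ Z := by
    intro i
    exact ⟨fun h => by
      by_contra hi
      exact hxC i hi h, hZx i⟩
  -- the places
  set T : Finset Pls := Finset.univ.image fun v : Option (Fin M) => pl (pp M v) with hT
  have hinj : Function.Injective fun v : Option (Fin M) => pl (pp M v) := by
    intro v v' h
    exact hp (pl_inj h)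
  have hsumT : ∀ f : Pls → ℤ, ∑ P ∈ T, f P = ∑ v : Option (Fin M), f (pl (pp M v)) := by
    intro f
    rw [hT, Finset.sum_image fun v _ v' _ h => hinj h]
  have hTcard : T.card ≤ M + 1 := by
    rw [hT]
    refine Finset.card_image_le.trans ?_
    simp
  have hnT : ∀ P, P ∉ T → ∀ o, P ≠ pl (pp M o) := by
    intro P hP o h
    exact hP (by rw [hT, h]; exact Finset.mem_image_of_mem _ (Finset.mem_univ o))
  have hml : ∀ j j', l j = l j' → mx β k l j = mx β k l j' := by
    intro j j' h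
    have e1 : ∀ (f : Fin r → ℤ) (j0 : Fin r),
        ∑ j, (((if j = j0 then (1 : ℕ) else 0 : ℕ)) : ℤ) * f j = f j0 := by
      intro f j0
      simp
    funext o
    rcases o with _ | v
    · simp only [mx, h]
    · simp only [mx, h]
      have h2 := hβ (fun i => if i = j then 1 else 0) (fun i => if i = j' then 1 else 0)
        (fun i => by split_ifs <;> omega) (fun i => by split_ifs <;> omega) (by simp [h]) v
      rw [e1, e1] at h2
      rw [h2]
  have hppK : ∀ o, pp M o ∈ K1 := by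
    intro o
    rcases o with _ | v
    · exact K1.zero_mem
    · simp only [pp, Option.elim_some]
      exact K1.add_mem (natCast_mem K1 _) K1.one_mem
  have hpordT : ∀ P, P ∉ T → pord P x = 0 := by
    intro P hP
    have hge : 0 ≤ pord P x := by
      obtain ⟨m, hm, hm2⟩ := exists_pord P (Function.ne_iff.1 hx0)
      rw [← hm2]
      have h1 := val_other hβ (pp M) hp hβ0 (k := k) c' (X m) 1 hD (hhm m) P
        (fun v => hnT P hP (some v))
      rw [← hx, hXm] at h1
      exact h1.resolve_left hm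
    obtain ⟨i, hi, hi2⟩ := no_zero (pp M) K1 hppK c l A m0 hA hcK hAK lam hlam (mx β k l)
      (fun j => mx_sum β k l hβ0 j) hml P (hnT P hP)
    have h3 := pord_le P (f := x) (j := i) hi
    refine le_antisymm (h3.trans (le_of_eq hi2)) hge
  have hyge : ∀ l' P, (∀ v : Fin M, P ≠ pl (pp M (some v))) → 0 ≤ P.ord (y l') := by
    intro l' P hP
    have h1 := val_other hβ (pp M) hp hβ0 (k := k) e' (X l') 1 hD (hhy l') P hP
    rw [← hydef, hXy] at h1
    exact h1.resolve_left (hy0 l')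
  have h := punctY d a ha Z T x hx0 hxZ hpordT y hy0
    (fun P hP l' => hyge l' P fun v => hnT P hP (some v)) (by
      intro i hi P hP hpos
      by_contra hno
      push Not at hno
      have h0 : ∀ l', P.ord (y l') = 0 := fun l' =>
        le_antisymm (hno l') (hyge l' P fun v => hnT P hP (some v))
      have hprod : ∀ a : Fin (ν + 1) → ℕ, P.ord (∏ l', y l' ^ a l') = 0 := by
        intro a
        rw [Pool.Agent.W619.PQ.ord_prod _ _ _ fun l' _ => pow_ne_zero _ (hy0 l')]
        refine Finset.sum_eq_zero fun l' _ => ?_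
        rw [P.ord_pow, h0, mul_zero]
      have h1 := congrArg P.ord (hEx i hi)
      rw [P.ord_mul (hxC i hi) (Finset.prod_ne_zero_iff.2 fun l' _ => pow_ne_zero _ (hy0 l')),
        hprod, hprod, add_zero] at h1
      rw [h1] at hpos
      exact lt_irrefl _ hpos)
  rw [hsumT, ← hκdef] at h
  simp only [hsumT, Fintype.sum_option] at h
  -- the bounds
  have hlow : ∀ v : Fin M, (k : ℤ) * β v (jj v) ≤ -pord (pl (pp M (some v))) x := by
    intro v
    obtain ⟨m, hm⟩ := hjj v
    have h1 := val_lower hβ (pp M) hp c' (X m) 1 hD (hhm m) hkΛ v _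
      (by rw [hcm]; exact (hccoef _ _).2 hm)
    rw [← hx, hXm] at h1
    have h2 := pord_le (pl (pp M (some v))) h1.1
    have h3 := h2.trans h1.2
    have h4 : ∑ j, (if j = jj v then 1 else 0) * l j = l (jj v) := by simp
    rw [← h4, EE_eq hβ _ fun j => by split_ifs <;> omega] at h3
    simp only at h3
    rw [mx_some] at h3
    have h5 : ∑ j, ((if j = jj v then (1 : ℕ) else 0 : ℕ) : ℤ) * β v j = β v (jj v) := by
      simp
    rw [h5] at h3
    have h6 : (0 : ℤ) ≤ ((∑ j, (if j = jj v then 1 else 0) * l j : ℕ) : ℤ) := Nat.cast_nonneg _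
    linarith
  have hnone : -pord (pl (pp M none)) x ≥ -((M : ℤ) * Λ) := by
    obtain ⟨m, hm⟩ := hjj ⟨0, hM⟩
    have h1 := val_none hβ (k := k) hD hM (pp M) hp c' m _ ((hccoef _ _).2 hm)
    have h2 := pord_le (pl (pp M none)) (f := x) (j := m) h1.1
    have h3 : (M : ℤ) * (l (jj ⟨0, hM⟩) : ℤ) ≤ M * Λ :=
      mul_le_mul_of_nonneg_left (by exact_mod_cast hlΛ _) (Nat.cast_nonneg _)
    have h4 := h2.trans h1.2
    linarith
  have hup : ∀ l' : Fin (ν + 1), ∀ v : Fin M,
      -(pl (pp M (some v))).ord (y l') ≤ k * B v l' + Λ := by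
    intro l' v
    obtain ⟨α, hα, h1, h2⟩ := val_upper hβ (k := k) (pp M) hp e' (X l') 1 hD
      (hhy l') v (by rw [← hydef, hXy]; exact hy0 l')
    have h3 : ∀ j, α j ≤ D := fun j => (GU_deg e' _ 1 (hhy l') α hα j).trans hD
    have h4 : ∑ j, α j = 1 := GU_sum e' _ 1 (hhy l') α hα
    obtain ⟨j0, hj0⟩ : ∃ j0, Finsupp.single j0 1 = α := by
      have h5 : α.sum (fun _ => id) = 1 := by
        rw [Finsupp.sum_fintype _ _ (fun _ => rfl)]
        exact h4
      obtain ⟨j0, hj0⟩ := (Finsupp.sum_eq_one_iff α).1 h5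
      exact ⟨j0, hj0.symm⟩
    have h5 : ∑ j, α j * l j = l j0 := by
      rw [← hj0, Finset.sum_eq_single j0]
      · simp
      · intro j _ hj
        rw [Finsupp.single_eq_of_ne hj, zero_mul]
      · intro h
        exact absurd (Finset.mem_univ _) h
    have h6 : ∑ j, (α j : ℤ) * β v j = β v j0 := by
      rw [← hj0, Finset.sum_eq_single j0]
      · simp
      · intro j _ hj
        rw [Finsupp.single_eq_of_ne hj]
        simp
      · intro h
        exact absurd (Finset.mem_univ _) h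
    rw [hem, h5, hecoef] at h1
    have h7 := hB v l' j0 h1
    rw [EE_eq hβ _ h3] at h2
    simp only at h2
    rw [mx_some, h6, h5, ← hydef, hXy] at h2
    have h8 : (k : ℤ) * β v j0 ≤ k * B v l' := mul_le_mul_of_nonneg_left h7 (Nat.cast_nonneg k)
    have h9 : (l j0 : ℤ) ≤ Λ := by exact_mod_cast hlΛ j0
    linarith
  have h1 : κ * (k * ∑ v, β v (jj v) - M * Λ) ≤
      κ * (-pord (pl (pp M none)) x + ∑ v, -pord (pl (pp M (some v))) x) := by
    refine mul_le_mul_of_nonneg_left ?_ hκ0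
    have h2 : (k : ℤ) * ∑ v, β v (jj v) ≤ ∑ v, -pord (pl (pp M (some v))) x := by
      rw [Finset.mul_sum]
      exact Finset.sum_le_sum fun v _ => hlow v
    linarith
  have h2 : ∑ l' : Fin (ν + 1), (-(pl (pp M none)).ord (y l') +
      ∑ v : Fin M, -(pl (pp M (some v))).ord (y l')) ≤
      k * ∑ l', ∑ v, B v l' + (ν + 1) * M * Λ := by
    have h3 : ∑ l' : Fin (ν + 1), (-(pl (pp M none)).ord (y l') +
        ∑ v : Fin M, -(pl (pp M (some v))).ord (y l')) ≤
        ∑ l' : Fin (ν + 1), ∑ v : Fin M, ((k : ℤ) * B v l' + Λ) := by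
      refine Finset.sum_le_sum fun l' _ => ?_
      have h4 := hyge l' (pl (pp M none)) (fun v h => by
        have := hinj h
        exact absurd this (by simp))
      have h5 := Finset.sum_le_sum fun v (_ : v ∈ (Finset.univ : Finset (Fin M))) => hup l' v
      linarith
    refine h3.trans (le_of_eq ?_)
    simp only [Finset.sum_add_distrib, Finset.sum_const, Finset.mul_sum, Finset.card_univ,
      Fintype.card_fin, nsmul_eq_mul]
    push_cast
    ring
  have h3 : (T.card : ℤ) ≤ M + 1 := by exact_mod_cast hTcard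
  have h4 : (k : ℤ) * (κ * ∑ v, β v (jj v) - ∑ l', ∑ v, B v l') ≤
      (M + 1) + κ * (M * Λ) + (ν + 1) * M * Λ := by
    have h5 : κ * (k * ∑ v, β v (jj v) - M * Λ) = k * (κ * ∑ v, β v (jj v)) - κ * (M * Λ) := by
      ring
    linarith
  have h5 : 1 ≤ κ * ∑ v, β v (jj v) - ∑ l', ∑ v, B v l' := by linarith
  have h6 : (k : ℤ) = Λ + ((M + 1) + κ * (M * Λ) + (ν + 1) * M * Λ) + 1 := by
    rw [hk, hκn]
    push_cast
    ring
  have h7 : (0 : ℤ) ≤ Λ := Nat.cast_nonneg _
  have h8 : (0 : ℤ) ≤ k := Nat.cast_nonneg _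
  nlinarith

end Pool.Agent.Q51.VY
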