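import Mathlib
import Pool.Agent.Q51.VY.Curve

set_option autoImplicit false
set_option maxHeartbeats 1000000

/-!
# Real weights
-/

namespace Pool.Agent.Q51.VY

open MvPolynomial FF Pool.Agent.Q51.HG Pool.Agent.H533R3.SL Pool.Agent.Q51.VX
open Pool.Agent.TH182.VD (CI)

variable {n q r M ν : ℕ}

/-- **The inequality for real weights.** -/
theorem real_ineqY (d : Fin q → ℕ) (a : CI n d → ℂ) (ha : AlgebraicIndependent ℚ a)
    (Z : Finset (Fin q)) (D : ℕ) (hdD : ∀ i, d i ≤ D) (hD : 1 ≤ D)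
    (hκ0 : 0 ≤ (∑ i, (d i : ℤ)) + Z.card - 2 * n)
    (c : Fin r → Fin (n + 1) → ℂ) (e : Fin r → Fin (ν + 1) → ℂ) (l : Fin r → ℕ)
    (ea eb : Fin q → Fin (ν + 1) → ℕ) (hab : ∀ i, i ∉ Z → d i + ∑ l', ea i l' = ∑ l', eb i l')
    (hebD : ∀ i, i ∉ Z → ∑ l', eb i l' ≤ D)
    (hZ : ∀ i ∈ Z, aeval (cur c l) (gF n d a i) = 0)
    (hE : ∀ i, i ∉ Z → aeval (cur c l) (gF n d a i) * ∏ l', cur e l l' ^ ea i l' =
      ∏ l', cur e l l' ^ eb i l')
    (hy : ∀ l', cur e l l' ≠ 0)
    (A : Fin (n + 1) → Polynomial ℂ) (m0 : ℕ)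
    (hA : ∑ i, A i * cur c l i = Polynomial.X ^ m0)
    (b : Fin M → Fin r → ℝ) (hb0 : ∀ j, ∑ v, b v j = 0)
    (hb : ∀ α α' : Fin r → ℕ, (∀ j, α j ≤ D) → (∀ j, α' j ≤ D) →
      ∑ j, α j * l j = ∑ j, α' j * l j → ∀ v, ∑ j, (α j : ℝ) * b v j = ∑ j, (α' j : ℝ) * b v j)
    (jj : Fin M → Fin r) (hjj : ∀ v, ∃ m, (cur c l m).coeff (l (jj v)) ≠ 0)
    (B : Fin M → Fin (ν + 1) → ℝ)
    (hB : ∀ v l' j, (cur e l l').coeff (l j) ≠ 0 → b v j ≤ B v l') :
    (((∑ i, (d i : ℤ)) + Z.card - 2 * n : ℤ) : ℝ) * ∑ v, b v (jj v) ≤ ∑ l', ∑ v, B v l' := by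
  classical
  set κ : ℤ := (∑ i, (d i : ℤ)) + Z.card - 2 * n with hκdef
  -- the bound with an error
  have key : ∀ ε : ℝ, 0 < ε → (κ : ℝ) * ∑ v, b v (jj v) ≤
      ∑ l', ∑ v, B v l' + (κ * M + (ν + 1) * M) * ε := by
    intro ε hε
    obtain ⟨N, β', hN, hβb, hrel⟩ := approx (fun x : Fin M × Fin r => b x.1 x.2) ε hε
    set β : Fin M → Fin r → ℤ := fun v j => β' (v, j) with hβ
    have hNr : (0 : ℝ) < N := by exact_mod_cast hN
    have hβb' : ∀ v j, |b v j - β v j / N| ≤ ε := fun v j => hβb (v, j)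
    have hβ0 : ∀ j, ∑ v, β v j = 0 := by
      intro j
      have h1 := hrel (fun x => if x.2 = j then 1 else 0) (by
        rw [Fintype.sum_prod_type]
        simpa using hb0 j)
      rw [Fintype.sum_prod_type] at h1
      simpa using h1
    have hβc : ∀ α α' : Fin r → ℕ, (∀ j, α j ≤ D) → (∀ j, α' j ≤ D) →
        ∑ j, α j * l j = ∑ j, α' j * l j →
        ∀ v, ∑ j, (α j : ℤ) * β v j = ∑ j, (α' j : ℤ) * β v j := by
      intro α α' hα hα' h v
      have h1 := hb α α' hα hα' h v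
      have h2 := hrel (fun x => if x.1 = v then (α x.2 : ℤ) - α' x.2 else 0) (by
        rw [Fintype.sum_prod_type, Finset.sum_eq_single v]
        · simp only [if_true]
          push_cast
          simp_rw [sub_mul]
          rw [Finset.sum_sub_distrib, h1, sub_self]
        · intro v' _ hv'
          simp [hv']
        · intro h
          exact absurd (Finset.mem_univ v) h)
      rw [Fintype.sum_prod_type, Finset.sum_eq_single v] at h2
      · simp only [if_true] at h2
        simp_rw [sub_mul] at h2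
        rw [Finset.sum_sub_distrib] at h2
        linarith
      · intro v' _ hv'
        simp [hv']
      · intro h
        exact absurd (Finset.mem_univ v) h
    -- the maxima
    have hmax : ∀ v l', ∃ j, (cur e l l').coeff (l j) ≠ 0 ∧
        ∀ j', (cur e l l').coeff (l j') ≠ 0 → β v j' ≤ β v j := by
      intro v l'
      let S : Finset (Fin r) := Finset.univ.filter fun j => (cur e l l').coeff (l j) ≠ 0
      have hS : S.Nonempty := by
        obtain ⟨t, ht⟩ : ∃ t, (cur e l l').coeff t ≠ 0 := by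
          by_contra h1
          push Not at h1
          exact hy l' (Polynomial.ext h1)
        have ht' := ht
        rw [coeff_cur1] at ht
        obtain ⟨j, hj, -⟩ := Finset.exists_ne_zero_of_sum_ne_zero ht
        refine ⟨j, ?_⟩
        simp only [S, Finset.mem_filter, Finset.mem_univ, true_and]
        rw [(Finset.mem_filter.1 hj).2]
        exact ht'
      obtain ⟨j, hj, hm⟩ := Finset.exists_max_image S (fun j => β v j) hS
      refine ⟨j, (Finset.mem_filter.1 hj).2, fun j' hj' => hm j' ?_⟩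
      simp only [S, Finset.mem_filter, Finset.mem_univ, true_and]
      exact hj'
    choose J hJ hJmax using hmax
    have h := int_ineqY d a ha Z D hdD hD hκ0 c e l ea eb hab hebD hZ hE hy A m0 hA β hβ0 hβc jj
      hjj (fun v l' => β v (J v l')) (fun v l' j hj => hJmax v l' j hj)
    rw [← hκdef] at h
    have h' : (κ : ℝ) * ∑ v, (β v (jj v) : ℝ) ≤ ∑ l', ∑ v, (β v (J v l') : ℝ) := by
      exact_mod_cast h
    have hκr : (0 : ℝ) ≤ κ := by exact_mod_cast hκ0
    have h1 : (κ : ℝ) * ∑ v, b v (jj v) ≤ (κ : ℝ) * ∑ v, (β v (jj v) : ℝ) / N + κ * M * ε := by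
      have h2 : ∑ v, b v (jj v) ≤ ∑ v, ((β v (jj v) : ℝ) / N + ε) :=
        Finset.sum_le_sum fun v _ => by
          have := (abs_le.1 (hβb' v (jj v))).2
          linarith
      rw [Finset.sum_add_distrib, Finset.sum_const, Finset.card_univ, Fintype.card_fin,
        nsmul_eq_mul] at h2
      have := mul_le_mul_of_nonneg_left h2 hκr
      linarith
    have h3 : ∑ l', ∑ v, (β v (J v l') : ℝ) / N ≤ ∑ l', ∑ v, B v l' + (ν + 1) * M * ε := by
      have h4 : ∑ l' : Fin (ν + 1), ∑ v : Fin M, (β v (J v l') : ℝ) / N ≤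
          ∑ l' : Fin (ν + 1), ∑ v : Fin M, (B v l' + ε) := by
        refine Finset.sum_le_sum fun l' _ => Finset.sum_le_sum fun v _ => ?_
        have h5 := (abs_le.1 (hβb' v (J v l'))).1
        have h6 := hB v l' _ (hJ v l')
        linarith
      refine h4.trans (le_of_eq ?_)
      simp only [Finset.sum_add_distrib, Finset.sum_const, Finset.card_univ, Fintype.card_fin,
        nsmul_eq_mul]
      push_cast
      ring
    have h4 : (κ : ℝ) * ∑ v, (β v (jj v) : ℝ) / N ≤ ∑ l', ∑ v, (β v (J v l') : ℝ) / N := by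
      have h5 : (κ : ℝ) * ∑ v, (β v (jj v) : ℝ) / N = (κ * ∑ v, (β v (jj v) : ℝ)) / N := by
        rw [← Finset.sum_div, mul_div_assoc]
      have h6 : ∑ l', ∑ v, (β v (J v l') : ℝ) / N = (∑ l', ∑ v, (β v (J v l') : ℝ)) / N := by
        simp only [Finset.sum_div]
      rw [h5, h6]
      exact div_le_div_of_nonneg_right h' hNr.le
    linarith
  -- the limit
  by_contra hcon
  push Not at hcon
  have hκr : (0 : ℝ) ≤ κ := by exact_mod_cast hκ0
  set E : ℝ := κ * M + (ν + 1) * M with hE'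
  have hE0 : 0 ≤ E := by positivity
  set δ : ℝ := (κ : ℝ) * ∑ v, b v (jj v) - ∑ l', ∑ v, B v l' with hδ
  have hδ0 : 0 < δ := by linarith
  have h1 := key (δ / (2 * (E + 1))) (by positivity)
  have h2 : E * (δ / (2 * (E + 1))) ≤ δ / 2 := by
    rw [mul_div_assoc', div_le_div_iff₀ (by positivity) (by norm_num)]
    nlinarith
  linarith

end Pool.Agent.Q51.VY
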