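import Mathlib
import Pool.Agent.Q51.VY.Real
import Pool.Agent.Q51.VY.Bez

set_option autoImplicit false
set_option maxHeartbeats 1000000

/-!
# The inequality for all values of the parameters outside a hypersurface
-/

namespace Pool.Agent.Q51.VY

open MvPolynomial Pool.Agent.Q51.HG Pool.Agent.H533R3.SL Pool.Agent.Q51.VX
open Pool.Agent.TH182.VD (CI)

variable {n q r ν : ℕ}

/-! ### The universal objects -/

/-- the ring of the coefficients of the forms, of the curve and of the Bezout identity -/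
abbrev BY (n r ν E : ℕ) (d : Fin q → ℕ) : Type :=
  MvPolynomial (Option (Fin r × Fin (n + 1)) ⊕ ((Fin r × Fin (ν + 1)) ⊕ (Fin (n + 1) × Fin (E + 1))))
    (MvPolynomial (CI n d) ℤ)

/-- the inclusion of the first variables -/
noncomputable def io (n r ν E : ℕ) (d : Fin q → ℕ) : BR n r d →+* BY n r ν E d :=
  (rename Sum.inl : BR n r d →ₐ[MvPolynomial (CI n d) ℤ] BY n r ν E d).toRingHom

/-- the universal vectors -/
noncomputable def ue (n r ν E : ℕ) (d : Fin q → ℕ) (j : Fin r) (i : Fin (ν + 1)) :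
    BY n r ν E d := X (Sum.inr (Sum.inl (j, i)))

/-- the universal coefficients of the identity -/
noncomputable def uA (n r ν E : ℕ) (d : Fin q → ℕ) (i : Fin (n + 1)) :
    Polynomial (BY n r ν E d) :=
  ∑ s : Fin (E + 1), Polynomial.C (X (Sum.inr (Sum.inr (i, s)))) * Polynomial.X ^ (s : ℕ)

/-- the point of the parameter space -/
noncomputable def py {E : ℕ} {L : Type} [CommRing L] (d : Fin q → ℕ)
    (F : Fin q → MvPolynomial (Fin (n + 1)) L) (c : Fin r → Fin (n + 1) → L) (w : L)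
    (e : Fin r → Fin (ν + 1) → L) (A : Fin (n + 1) → Fin (E + 1) → L) : BY n r ν E d →+* L :=
  eval₂Hom (sp d F).toRingHom (Sum.elim (fun o => o.elim w fun p => c p.1 p.2)
    (Sum.elim (fun p => e p.1 p.2) (fun p => A p.1 p.2)))

section

variable {E : ℕ} {L : Type} [CommRing L] (d : Fin q → ℕ)
  (F : Fin q → MvPolynomial (Fin (n + 1)) L) (c : Fin r → Fin (n + 1) → L) (w : L)
  (e : Fin r → Fin (ν + 1) → L) (A : Fin (n + 1) → Fin (E + 1) → L)

theorem py_C (x : MvPolynomial (CI n d) ℤ) : py d F c w e A (C x) = sp d F x := by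
  unfold py
  rw [eval₂Hom_C]
  rfl

theorem py_io (x : BR n r d) : py d F c w e A (io n r ν E d x) = pt d F c w x := by
  unfold py pt io
  change eval₂Hom _ _ (rename Sum.inl x) = _
  rw [eval₂Hom_rename]
  rfl

theorem py_comp_io : (py d F c w e A).comp (io n r ν E d) = pt d F c w :=
  RingHom.ext fun x => py_io d F c w e A x

theorem py_ue (j : Fin r) (i : Fin (ν + 1)) : py d F c w e A (ue n r ν E d j i) = e j i := by
  unfold py ue
  rw [eval₂Hom_X']
  rfl

theorem map_cur_ue (l : Fin r → ℕ) (i : Fin (ν + 1)) :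
    (cur (ue n r ν E d) l i).map (py d F c w e A) = cur e l i := by
  unfold cur
  rw [Polynomial.map_sum]
  refine Finset.sum_congr rfl fun j _ => ?_
  rw [Polynomial.map_mul, Polynomial.map_C, Polynomial.map_pow, Polynomial.map_X, py_ue]

theorem map_io_cur (l : Fin r → ℕ) (i : Fin (n + 1)) :
    ((cur (uc n r d) l i).map (io n r ν E d)).map (py d F c w e A) = cur c l i := by
  rw [Polynomial.map_map, py_comp_io, map_cur]

theorem map_io_uV (hF : ∀ i, (F i).IsHomogeneous (d i)) (l : Fin r → ℕ) (i : Fin q) :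
    ((uV n r d l i).map (io n r ν E d)).map (py d F c w e A) = aeval (cur c l) (F i) := by
  rw [Polynomial.map_map, py_comp_io, map_uV d F c w hF]

theorem map_uA (i : Fin (n + 1)) : (uA n r ν E d i).map (py d F c w e A) =
    ∑ s : Fin (E + 1), Polynomial.C (A i s) * Polynomial.X ^ (s : ℕ) := by
  unfold uA
  rw [Polynomial.map_sum]
  refine Finset.sum_congr rfl fun s _ => ?_
  rw [Polynomial.map_mul, Polynomial.map_C, Polynomial.map_pow, Polynomial.map_X]
  congr 2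
  unfold py
  rw [eval₂Hom_X']
  rfl

end

theorem poly_of_coeff {L : Type} [CommRing L] (P : Polynomial L) (E : ℕ)
    (h : P.natDegree ≤ E) : ∑ s : Fin (E + 1), Polynomial.C (P.coeff s) * Polynomial.X ^ (s : ℕ) =
      P := by
  rw [Fin.sum_univ_eq_sum_range (fun s => Polynomial.C (P.coeff s) * Polynomial.X ^ s)]
  exact (P.as_sum_range_C_mul_X_pow' (Nat.lt_succ_of_le h)).symm

/-! ### Types -/

/-- the inequality holds for all weights and a given combinatorial type -/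
def GoodY (n : ℕ) {q r ν : ℕ} (D : ℕ) (d : Fin q → ℕ) (Z : Finset (Fin q)) (l : Fin r → ℕ)
    (N : Fin (ν + 1) → Finset (Fin r)) (J : Finset (Fin r)) : Prop :=
  ∀ (M : ℕ) (b : Fin M → Fin r → ℝ), (∀ j, ∑ v, b v j = 0) →
    (∀ α α' : Fin r → ℕ, (∀ j, α j ≤ D) → (∀ j, α' j ≤ D) →
      ∑ j, α j * l j = ∑ j, α' j * l j →
      ∀ v, ∑ j, (α j : ℝ) * b v j = ∑ j, (α' j : ℝ) * b v j) →
    ∀ jj : Fin M → Fin r, (∀ v, jj v ∈ J) → ∀ B : Fin M → Fin (ν + 1) → ℝ,
    (∀ v l', ∀ j ∈ N l', b v j ≤ B v l') →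
    (((∑ i, (d i : ℤ)) + Z.card - 2 * n : ℤ) : ℝ) * ∑ v, b v (jj v) ≤ ∑ l', ∑ v, B v l'

theorem aux_typesY (D : ℕ) (hD : 1 ≤ D) (d : Fin q → ℕ) (hdD : ∀ i, d i ≤ D)
    (Z : Finset (Fin q)) (hκ0 : 0 ≤ (∑ i, (d i : ℤ)) + Z.card - 2 * n)
    (ea eb : Fin q → Fin (ν + 1) → ℕ) (hab : ∀ i, i ∉ Z → d i + ∑ l', ea i l' = ∑ l', eb i l')
    (hebD : ∀ i, i ∉ Z → ∑ l', eb i l' ≤ D)
    (l : Fin r → ℕ) (N : Fin (ν + 1) → Finset (Fin r)) (J : Finset (Fin r))
    (hbad : ¬ GoodY n D d Z l N J) (t : Fin (ν + 1) → ℕ) (m : Fin r → Fin (n + 1)) (E m0 : ℕ) :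
    ∃ h : MvPolynomial (CI n d) ℤ, h ≠ 0 ∧ ∀ (L : Type) [Field L]
      (F : Fin q → MvPolynomial (Fin (n + 1)) L), (∀ i, (F i).IsHomogeneous (d i)) →
      sp d F h ≠ 0 → ∀ (c : Fin r → Fin (n + 1) → L) (e : Fin r → Fin (ν + 1) → L)
      (A : Fin (n + 1) → Polynomial L),
      (∀ i ∈ Z, aeval (cur c l) (F i) = 0) →
      (∀ i, i ∉ Z → aeval (cur c l) (F i) * ∏ l', cur e l l' ^ ea i l' =
        ∏ l', cur e l l' ^ eb i l') →
      (∀ l' t', (∀ j ∈ N l', t' ≠ l j) → (cur e l l').coeff t' = 0) →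
      (∀ l', (cur e l l').coeff (t l') ≠ 0) →
      (∀ j ∈ J, (cur c l (m j)).coeff (l j) ≠ 0) →
      (∀ i, (A i).natDegree ≤ E) → ∑ i, A i * cur c l i = Polynomial.X ^ m0 → False := by
  classical
  obtain ⟨T, hTdef⟩ : ∃ T : BY n r ν E d,
    T = (∏ j ∈ J, io n r ν E d ((cur (uc n r d) l (m j)).coeff (l j))) *
      ∏ l', (cur (ue n r ν E d) l l').coeff (t l') := ⟨_, rfl⟩
  let G : Fin q → Polynomial (BY n r ν E d) := fun i =>
    (uV n r d l i).map (io n r ν E d) * ∏ l', cur (ue n r ν E d) l l' ^ ea i l' -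
      ∏ l', cur (ue n r ν E d) l l' ^ eb i l'
  let H : Polynomial (BY n r ν E d) :=
    ∑ i, uA n r ν E d i * (cur (uc n r d) l i).map (io n r ν E d) - Polynomial.X ^ m0
  let S : Set (BY n r ν E d) := {x | ∃ i ∈ Z, ∃ t, x = io n r ν E d ((uV n r d l i).coeff t)} ∪
    {x | ∃ i, i ∉ Z ∧ ∃ t, x = (G i).coeff t} ∪
    {x | ∃ l' t', (∀ j ∈ N l', t' ≠ l j) ∧ x = (cur (ue n r ν E d) l l').coeff t'} ∪
    {x | ∃ t, x = H.coeff t} ∪ {io n r ν E d (X none) * T - 1}
  have : Countable (CI n d) := by unfold CI; infer_instance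
  obtain ⟨a, ha⟩ := exists_indepQ (CI n d)
  have haZ : AlgebraicIndependent ℤ a := ha.restrictScalars (algebraMap ℤ ℚ).injective_int
  -- the values of the elements of `S`
  have hG : ∀ {L : Type} [Field L] (F : Fin q → MvPolynomial (Fin (n + 1)) L)
      (_ : ∀ i, (F i).IsHomogeneous (d i)) (c : Fin r → Fin (n + 1) → L) (w : L)
      (e : Fin r → Fin (ν + 1) → L) (A : Fin (n + 1) → Fin (E + 1) → L) (i : Fin q),
      (G i).map (py d F c w e A) = aeval (cur c l) (F i) * ∏ l', cur e l l' ^ ea i l' -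
        ∏ l', cur e l l' ^ eb i l' := by
    intro L _ F hF c w e A i
    simp only [G]
    rw [Polynomial.map_sub, Polynomial.map_mul, Polynomial.map_prod, Polynomial.map_prod,
      map_io_uV d F c w e A hF]
    simp only [Polynomial.map_pow, map_cur_ue]
  have hH : ∀ {L : Type} [Field L] (F : Fin q → MvPolynomial (Fin (n + 1)) L)
      (c : Fin r → Fin (n + 1) → L) (w : L)
      (e : Fin r → Fin (ν + 1) → L) (A : Fin (n + 1) → Fin (E + 1) → L),
      H.map (py d F c w e A) = ∑ i, (∑ s : Fin (E + 1), Polynomial.C (A i s) *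
        Polynomial.X ^ (s : ℕ)) * cur c l i - Polynomial.X ^ m0 := by
    intro L _ F c w e A
    simp only [H]
    rw [Polynomial.map_sub, Polynomial.map_sum, Polynomial.map_pow, Polynomial.map_X]
    congr 1
    refine Finset.sum_congr rfl fun i _ => ?_
    rw [Polynomial.map_mul, map_uA, map_io_cur]
  have key : ∀ y : (Option (Fin r × Fin (n + 1)) ⊕
        ((Fin r × Fin (ν + 1)) ⊕ (Fin (n + 1) × Fin (E + 1)))) → ℂ, ∀ p : BY n r ν E d,
      eval₂ (aeval a : MvPolynomial (CI n d) ℤ →ₐ[ℤ] ℂ).toRingHom y p =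
        py d (gF n d a) (fun j i => y (Sum.inl (some (j, i)))) (y (Sum.inl none))
          (fun j i => y (Sum.inr (Sum.inl (j, i)))) (fun i s => y (Sum.inr (Sum.inr (i, s)))) p := by
    intro y p
    unfold py
    rw [sp_gF, coe_eval₂Hom]
    congr 1
    funext o
    rcases o with (_ | _) | (_ | _) <;> rfl
  obtain ⟨h, hh, hI⟩ := transfer (Ideal.span S) a haZ (by
    intro y
    by_contra hcon
    push Not at hcon
    set c : Fin r → Fin (n + 1) → ℂ := fun j i => y (Sum.inl (some (j, i))) with hc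
    set w : ℂ := y (Sum.inl none) with hw
    set e : Fin r → Fin (ν + 1) → ℂ := fun j i => y (Sum.inr (Sum.inl (j, i))) with he
    set A : Fin (n + 1) → Fin (E + 1) → ℂ := fun i s => y (Sum.inr (Sum.inr (i, s))) with hA
    have hS : ∀ x ∈ S, py d (gF n d a) c w e A x = 0 := fun x hx => by
      rw [← key]
      exact hcon x (Ideal.subset_span hx)
    have hFZ : ∀ i ∈ Z, aeval (cur c l) (gF n d a i) = 0 := by
      intro i hi
      ext t
      rw [← map_uV d (gF n d a) c w (gF_hom d a) l i, Polynomial.coeff_map,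
        Polynomial.coeff_zero, ← py_io d (gF n d a) c w e A]
      exact hS _ (Or.inl (Or.inl (Or.inl (Or.inl ⟨i, hi, t, rfl⟩))))
    have hFE : ∀ i, i ∉ Z → aeval (cur c l) (gF n d a i) * ∏ l', cur e l l' ^ ea i l' =
        ∏ l', cur e l l' ^ eb i l' := by
      intro i hi
      rw [← sub_eq_zero, ← hG (gF n d a) (gF_hom d a) c w e A i]
      ext t
      rw [Polynomial.coeff_map, Polynomial.coeff_zero]
      exact hS _ (Or.inl (Or.inl (Or.inl (Or.inr ⟨i, hi, t, rfl⟩))))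
    have hFN : ∀ l' t', (∀ j ∈ N l', t' ≠ l j) → (cur e l l').coeff t' = 0 := by
      intro l' t' ht
      rw [← map_cur_ue d (gF n d a) c w e A l l', Polynomial.coeff_map]
      exact hS _ (Or.inl (Or.inl (Or.inr ⟨l', t', ht, rfl⟩)))
    have hBez : ∑ i, (∑ s : Fin (E + 1), Polynomial.C (A i s) * Polynomial.X ^ (s : ℕ)) *
        cur c l i = Polynomial.X ^ m0 := by
      rw [← sub_eq_zero, ← hH (gF n d a) c w e A]
      ext t
      rw [Polynomial.coeff_map, Polynomial.coeff_zero]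
      exact hS _ (Or.inl (Or.inr ⟨t, rfl⟩))
    have hT : py d (gF n d a) c w e A T ≠ 0 := by
      intro h0
      have h1 := hS _ (Or.inr rfl)
      rw [map_sub, map_mul, h0, mul_zero, map_one, zero_sub, neg_eq_zero] at h1
      exact one_ne_zero h1
    rw [hTdef, map_mul, map_prod, map_prod] at hT
    have hP : ∀ l', (cur e l l').coeff (t l') ≠ 0 := by
      intro l'
      rw [← map_cur_ue d (gF n d a) c w e A l l', Polynomial.coeff_map]
      exact (Finset.prod_ne_zero_iff.1 (right_ne_zero_of_mul hT)) l' (Finset.mem_univ l')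
    have hJ : ∀ j ∈ J, (cur c l (m j)).coeff (l j) ≠ 0 := by
      intro j hj
      rw [← map_cur d (gF n d a) c w l (m j), Polynomial.coeff_map,
        ← py_io d (gF n d a) c w e A]
      exact (Finset.prod_ne_zero_iff.1 (left_ne_zero_of_mul hT)) j hj
    apply hbad
    intro M b hb0 hb jj hjj B hB
    refine real_ineqY d a ha Z D hdD hD hκ0 c e l ea eb hab hebD hFZ hFE
      (fun l' h0 => hP l' (by rw [h0]; simp)) _ m0 hBez
      b hb0 hb jj (fun v => ⟨m (jj v), hJ _ (hjj v)⟩) B ?_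
    intro v l' j hne
    by_cases h1 : ∃ j' ∈ N l', l j = l j'
    · obtain ⟨j', hj', h2⟩ := h1
      have h3 := hb (fun i => if i = j then 1 else 0) (fun i => if i = j' then 1 else 0)
        (fun i => by split_ifs <;> omega) (fun i => by split_ifs <;> omega) (by simp [h2]) v
      simp only [Nat.cast_ite, Nat.cast_one, Nat.cast_zero, ite_mul, one_mul, zero_mul,
        Finset.sum_ite_eq', Finset.mem_univ, if_true] at h3
      rw [h3]
      exact hB v l' j' hj'
    · push Not at h1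
      exact absurd (hFN l' _ h1) hne)
  refine ⟨h, hh, ?_⟩
  intro L _ F hF hsp c e A hZ0 hE0 hN0 ht hJ hdeg hBez
  let τ : L := (∏ j ∈ J, (cur c l (m j)).coeff (l j)) * ∏ l', (cur e l l').coeff (t l')
  have hτ : τ ≠ 0 := mul_ne_zero (Finset.prod_ne_zero_iff.2 hJ)
    (Finset.prod_ne_zero_iff.2 fun l' _ => ht l')
  let A' : Fin (n + 1) → Fin (E + 1) → L := fun i s => (A i).coeff s
  have hle : Ideal.span S ≤ RingHom.ker (py d F c τ⁻¹ e A') := by
    rw [Ideal.span_le]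
    rintro x ((((⟨i, hi, t, rfl⟩ | ⟨i, hi, t, rfl⟩) | ⟨l', t', ht', rfl⟩) | ⟨t, rfl⟩) | rfl)
    · change py d F c τ⁻¹ e A' _ = 0
      rw [py_io, ← Polynomial.coeff_map, map_uV d F c _ hF, hZ0 i hi, Polynomial.coeff_zero]
    · change py d F c τ⁻¹ e A' _ = 0
      rw [← Polynomial.coeff_map, hG F hF, hE0 i hi, sub_self, Polynomial.coeff_zero]
    · change py d F c τ⁻¹ e A' _ = 0
      rw [← Polynomial.coeff_map, map_cur_ue]
      exact hN0 l' t' ht'
    · change py d F c τ⁻¹ e A' _ = 0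
      rw [← Polynomial.coeff_map, hH F]
      simp only [A']
      rw [Finset.sum_congr rfl fun i _ => by rw [poly_of_coeff (A i) E (hdeg i)], hBez, sub_self,
        Polynomial.coeff_zero]
    · change py d F c τ⁻¹ e A' _ = 0
      have e1 : py d F c τ⁻¹ e A' T = τ := by
        rw [hTdef, map_mul, map_prod, map_prod]
        congr 1
        · refine Finset.prod_congr rfl fun j _ => ?_
          rw [py_io, ← Polynomial.coeff_map, map_cur]
        · refine Finset.prod_congr rfl fun l' _ => ?_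
          rw [← Polynomial.coeff_map, map_cur_ue]
      rw [map_sub, map_mul, py_io, pt_none, e1, inv_mul_cancel₀ hτ, map_one, sub_self]
  have h5 : py d F c τ⁻¹ e A' (C h) = 0 := hle hI
  rw [py_C] at h5
  exact hsp h5

theorem aux_typesY2 (D : ℕ) (hD : 1 ≤ D) (d : Fin q → ℕ) (hdD : ∀ i, d i ≤ D)
    (Z : Finset (Fin q)) (hκ0 : 0 ≤ (∑ i, (d i : ℤ)) + Z.card - 2 * n)
    (ea eb : Fin q → Fin (ν + 1) → ℕ) (hab : ∀ i, i ∉ Z → d i + ∑ l', ea i l' = ∑ l', eb i l')
    (hebD : ∀ i, i ∉ Z → ∑ l', eb i l' ≤ D)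
    (l : Fin r → ℕ) (N : Fin (ν + 1) → Finset (Fin r)) (J : Finset (Fin r))
    (t : Fin (ν + 1) → ℕ) (m : Fin r → Fin (n + 1)) (E m0 : ℕ) :
    ∃ h : MvPolynomial (CI n d) ℤ, h ≠ 0 ∧ ∀ (L : Type) [Field L]
      (F : Fin q → MvPolynomial (Fin (n + 1)) L), (∀ i, (F i).IsHomogeneous (d i)) →
      sp d F h ≠ 0 → ∀ (c : Fin r → Fin (n + 1) → L) (e : Fin r → Fin (ν + 1) → L)
      (A : Fin (n + 1) → Polynomial L),
      (∀ i ∈ Z, aeval (cur c l) (F i) = 0) →
      (∀ i, i ∉ Z → aeval (cur c l) (F i) * ∏ l', cur e l l' ^ ea i l' =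
        ∏ l', cur e l l' ^ eb i l') →
      (∀ l' t', (∀ j ∈ N l', t' ≠ l j) → (cur e l l').coeff t' = 0) →
      (∀ l', (cur e l l').coeff (t l') ≠ 0) →
      (∀ j ∈ J, (cur c l (m j)).coeff (l j) ≠ 0) →
      (∀ i, (A i).natDegree ≤ E) → ∑ i, A i * cur c l i = Polynomial.X ^ m0 →
      GoodY n D d Z l N J := by
  by_cases hbad : GoodY n D d Z l N J
  · exact ⟨1, one_ne_zero, fun L _ F _ _ c e A _ _ _ _ _ _ _ => hbad⟩
  · obtain ⟨h, h0, hh⟩ := aux_typesY D hD d hdD Z hκ0 ea eb hab hebD l N J hbad t m E m0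
    exact ⟨h, h0, fun L _ F hF hsp c e A h1 h2 h3 h4 h5 h6 h7 =>
      absurd (hh L F hF hsp c e A h1 h2 h3 h4 h5 h6 h7) id⟩

/-- the factorisation for two exponent vectors with the same pattern -/
theorem Rel_transfer {L : Type} [Field L] (D : ℕ) (l l' : Fin r → ℕ) (h : pat D l = pat D l')
    (R : MvPolynomial (Fin r) L) (hR : ∀ α ∈ R.support, ∀ j, α j ≤ D)
    (h0 : aeval (fun j => (Polynomial.X : Polynomial L) ^ (l j)) R = 0) :
    aeval (fun j => (Polynomial.X : Polynomial L) ^ (l' j)) R = 0 := by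
  have e1 : ∀ l : Fin r → ℕ, aeval (fun j => (Polynomial.X : Polynomial L) ^ (l j)) R =
      ∑ α ∈ R.support, Polynomial.C (coeff α R) * Polynomial.X ^ (∑ j, α j * l j) := by
    intro l
    rw [MvPolynomial.aeval_def, MvPolynomial.eval₂_eq']
    refine Finset.sum_congr rfl fun α _ => ?_
    congr 1
    rw [← Finset.prod_pow_eq_pow_sum]
    refine Finset.prod_congr rfl fun j _ => ?_
    rw [← pow_mul, mul_comm]
  rw [e1] at h0 ⊢
  refine transfer_sum _ _ (fun α : Fin r →₀ ℕ => ∑ j, α j * l j) _ ?_ h0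
  intro α hα β hβ hab
  exact pat_imp D l l' h α β (hR α hα) (hR β hβ) hab

/-- **The inequality for real weights, outside a hypersurface of the parameter space.** -/
theorem typesY (D : ℕ) (hD : 1 ≤ D) (d : Fin q → ℕ) (hdD : ∀ i, d i ≤ D)
    (Z : Finset (Fin q)) (hκ0 : 0 ≤ (∑ i, (d i : ℤ)) + Z.card - 2 * n)
    (ea eb : Fin q → Fin (ν + 1) → ℕ) (hab : ∀ i, i ∉ Z → d i + ∑ l', ea i l' = ∑ l', eb i l')
    (hebD : ∀ i, i ∉ Z → ∑ l', eb i l' ≤ D) (r : ℕ) :
    ∃ h : MvPolynomial (CI n d) ℤ, h ≠ 0 ∧ ∀ (L : Type) [Field L]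
      (F : Fin q → MvPolynomial (Fin (n + 1)) L), (∀ i, (F i).IsHomogeneous (d i)) →
      sp d F h ≠ 0 → ∀ (c : Fin r → Fin (n + 1) → L) (e : Fin r → Fin (ν + 1) → L)
      (l : Fin r → ℕ),
      (∀ i ∈ Z, aeval (cur c l) (F i) = 0) →
      (∀ i, i ∉ Z → aeval (cur c l) (F i) * ∏ l', cur e l l' ^ ea i l' =
        ∏ l', cur e l l' ^ eb i l') →
      (∀ l', cur e l l' ≠ 0) →
      (∀ l1 : Fin r → ℕ, pat D l = pat D l1 → ∃ (A : Fin (n + 1) → Polynomial L) (m0 : ℕ),
        ∑ i, A i * cur c l1 i = Polynomial.X ^ m0) →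
      ∀ (M : ℕ) (b : Fin M → Fin r → ℝ), (∀ j, ∑ v, b v j = 0) →
      (∀ α α' : Fin r → ℕ, (∀ j, α j ≤ D) → (∀ j, α' j ≤ D) →
        ∑ j, α j * l j = ∑ j, α' j * l j →
        ∀ v, ∑ j, (α j : ℝ) * b v j = ∑ j, (α' j : ℝ) * b v j) →
      ∀ jj : Fin M → Fin r, (∀ v, ∃ m, (cur c l m).coeff (l (jj v)) ≠ 0) →
      ∀ B : Fin M → Fin (ν + 1) → ℝ,
      (∀ v l' j, (cur e l l').coeff (l j) ≠ 0 → b v j ≤ B v l') →
      (((∑ i, (d i : ℤ)) + Z.card - 2 * n : ℤ) : ℝ) * ∑ v, b v (jj v) ≤ ∑ l', ∑ v, B v l' := by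
  classical
  obtain ⟨B0, hB0⟩ := pat_rep_bound (r := r) D
  choose H hH0 hH using fun (p : Set ((Fin r → Fin (D + 1)) × (Fin r → Fin (D + 1))))
    (N : Fin (ν + 1) → Finset (Fin r)) (J : Finset (Fin r)) (t : Fin (ν + 1) → Fin (B0 + 1))
    (m : Fin r → Fin (n + 1)) (m0 : Fin (B0 + 1)) =>
    aux_typesY2 D hD d hdD Z hκ0 ea eb hab hebD (rep D p) N J (fun i => (t i : ℕ)) m (2 * B0)
      (m0 : ℕ)
  refine ⟨∏ p, ∏ N, ∏ J, ∏ t, ∏ m, ∏ m0, H p N J t m m0, ?_, ?_⟩
  · simp only [Finset.prod_ne_zero_iff]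
    exact fun p _ N _ J _ t _ m _ m0 _ => hH0 p N J t m m0
  intro L _ F hF hsp c e l hZ0 hE0 hy0 hcop M b hb0 hb jj hjj B hB
  set l1 : Fin r → ℕ := rep D (pat D l) with hl1
  have hpat : pat D l = pat D l1 := (pat_rep D l).symm
  have hlB : ∀ j, l1 j ≤ B0 := by
    intro j
    have h1 := hB0 (pat D l)
    have h2 := Finset.single_le_sum (f := fun j => l1 j) (fun _ _ => Nat.zero_le _)
      (Finset.mem_univ j)
    calc l1 j ≤ ∑ j, l1 j := h2
      _ ≤ D * ∑ j, l1 j := Nat.le_mul_of_pos_left _ hD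
      _ ≤ B0 := h1
  -- the transferred data
  have hZ1 : ∀ i ∈ Z, aeval (cur c l1) (F i) = 0 := fun i hi =>
    cur_zero_transfer D l l1 hpat c (F i) (d i) (hdD i) (hF i) (hZ0 i hi)
  have hE1 : ∀ i, i ∉ Z → aeval (cur c l1) (F i) * ∏ l', cur e l1 l' ^ ea i l' =
      ∏ l', cur e l1 l' ^ eb i l' := by
    intro i hi
    have h1 := Rel_transfer D l l1 hpat (Rel c e (F i) (ea i) (eb i))
      (fun α hα j => hom_le (Rel_hom c e _ _ _ (d i) (hF i) (hab i hi)) (hebD i hi) α hα j)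
      (by rw [aeval_X_Rel, hE0 i hi, sub_self])
    rw [aeval_X_Rel, sub_eq_zero] at h1
    exact h1
  have hce : ∀ {m : ℕ} (c : Fin r → Fin (m + 1) → L) (i : Fin (m + 1)) (j : Fin r),
      (cur c l1 i).coeff (l1 j) = (cur c l i).coeff (l j) := by
    intro m c i j
    have h1 := coeff_transfer D l l1 hpat c (X i : MvPolynomial (Fin (m + 1)) L) 1 hD
      (isHomogeneous_X L i) (fun j' => if j' = j then 1 else 0)
      (fun j' => by split_ifs <;> omega)
    simpa using h1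
  have hex : ∀ {m : ℕ} (c : Fin r → Fin (m + 1) → L) (l : Fin r → ℕ) (i : Fin (m + 1)) (t : ℕ),
      (cur c l i).coeff t ≠ 0 → ∃ j, l j = t := by
    intro m c l i t ht
    rw [coeff_cur1] at ht
    obtain ⟨j, hj, -⟩ := Finset.exists_ne_zero_of_sum_ne_zero ht
    exact ⟨j, (Finset.mem_filter.1 hj).2⟩
  have hyj : ∀ l', ∃ j, (cur e l l').coeff (l j) ≠ 0 := by
    intro l'
    obtain ⟨t, ht⟩ : ∃ t, (cur e l l').coeff t ≠ 0 := by
      by_contra h1
      push Not at h1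
      exact hy0 l' (Polynomial.ext h1)
    obtain ⟨j, rfl⟩ := hex e l l' t ht
    exact ⟨j, ht⟩
  choose jt hjt using hyj
  let t : Fin (ν + 1) → Fin (B0 + 1) := fun l' => ⟨l1 (jt l'), Nat.lt_succ_of_le (hlB _)⟩
  let N : Fin (ν + 1) → Finset (Fin r) := fun l' =>
    Finset.univ.filter fun j => (cur e l1 l').coeff (l1 j) ≠ 0
  let J : Finset (Fin r) := Finset.univ.filter fun j => ∃ m, (cur c l1 m).coeff (l1 j) ≠ 0
  have hm : ∀ j, ∃ m, j ∈ J → (cur c l1 m).coeff (l1 j) ≠ 0 := by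
    intro j
    by_cases hj : j ∈ J
    · obtain ⟨m, hm⟩ := (Finset.mem_filter.1 hj).2
      exact ⟨m, fun _ => hm⟩
    · exact ⟨0, fun h => absurd h hj⟩
  choose m hm using hm
  have hdc : ∀ i, (cur c l1 i).natDegree ≤ B0 := by
    intro i
    unfold cur
    refine Polynomial.natDegree_sum_le_of_forall_le _ _ fun j _ => ?_
    exact (Polynomial.natDegree_C_mul_X_pow_le _ _).trans (hlB j)
  obtain ⟨A, m0, hm0, hAdeg, hA⟩ := bez (cur c l1) B0 hdc (hcop l1 hpat)
  have hgood : GoodY n D d Z l1 N J := by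
    refine hH (pat D l) N J t m ⟨m0, Nat.lt_succ_of_le hm0⟩ L F hF (fun h0 => hsp ?_) c e A hZ1 hE1
      (fun l' t' ht' => ?_) (fun l' => ?_) (fun j hj => hm j hj) hAdeg hA
    · rw [map_prod]
      refine Finset.prod_eq_zero (Finset.mem_univ (pat D l)) ?_
      rw [map_prod]
      refine Finset.prod_eq_zero (Finset.mem_univ N) ?_
      rw [map_prod]
      refine Finset.prod_eq_zero (Finset.mem_univ J) ?_
      rw [map_prod]
      refine Finset.prod_eq_zero (Finset.mem_univ t) ?_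
      rw [map_prod]
      refine Finset.prod_eq_zero (Finset.mem_univ m) ?_
      rw [map_prod]
      exact Finset.prod_eq_zero (Finset.mem_univ _) h0
    · by_contra hne
      obtain ⟨j, rfl⟩ := hex e l1 l' t' hne
      exact ht' j (by simp only [N, Finset.mem_filter, Finset.mem_univ, true_and]; exact hne) rfl
    · show (cur e l1 l').coeff (l1 (jt l')) ≠ 0
      rw [hce]
      exact hjt l'
  refine hgood M b hb0 (fun α α' hα hα' hαα v => hb α α' hα hα' ?_ v) jj (fun v => ?_) B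
    (fun v l' j hj => ?_)
  · exact pat_imp D _ l hpat.symm α α' hα hα' hαα
  · obtain ⟨m', hm'⟩ := hjj v
    simp only [J, Finset.mem_filter, Finset.mem_univ, true_and]
    exact ⟨m', by rw [hce]; exact hm'⟩
  · refine hB v l' j ?_
    rw [← hce]
    exact (Finset.mem_filter.1 hj).2

end Pool.Agent.Q51.VY
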