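import Mathlib
import Pool.Agent.Q51.VX.Germ
import Pool.Agent.Q51.VY.Types
import Pool.Agent.Q51.VY.Cop

set_option autoImplicit false
set_option maxHeartbeats 1000000

/-!
# The truncated inequality for germs of points
-/

namespace Pool.Agent.Q51.VY

open MvPolynomial Filter Topology Pool.Agent.TH932.Germs Pool.Agent.TH551.SU
open Pool.Agent.TH551.SU.SUI Pool.Agent.Y724.Vj Pool.Agent.TH551.SU.CRV
open Pool.Agent.H533R3.SL Pool.Agent.Q51.VX

variable {L : ℕ → ℝ}

/-- the inequality for weights -/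
def TypeIneqY {n q ν : ℕ} (κ : ℝ) (D : ℕ) (Z : Finset (Fin q))
    (F : Fin q → MvPolynomial (Fin (n + 1)) ℚ) (ea eb : Fin q → Fin (ν + 1) → ℕ) (r : ℕ) : Prop :=
  ∀ (c : Fin r → Fin (n + 1) → GG) (e : Fin r → Fin (ν + 1) → GG) (l : Fin r → ℕ),
    (∀ i ∈ Z, aeval (cur c l) (F i) = 0) →
    (∀ i, i ∉ Z → aeval (cur c l) (F i) * ∏ l', cur e l l' ^ ea i l' =
      ∏ l', cur e l l' ^ eb i l') →
    (∀ l', cur e l l' ≠ 0) →
    (∀ l1 : Fin r → ℕ, pat D l = pat D l1 → ∃ (A : Fin (n + 1) → Polynomial GG) (m0 : ℕ),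
      ∑ i, A i * cur c l1 i = Polynomial.X ^ m0) →
    ∀ (M : ℕ) (β : Fin M → Fin r → ℝ), (∀ j, ∑ v, β v j = 0) →
    (∀ α α' : Fin r → ℕ, (∀ j, α j ≤ D) → (∀ j, α' j ≤ D) →
      ∑ j, α j * l j = ∑ j, α' j * l j →
      ∀ v, ∑ j, (α j : ℝ) * β v j = ∑ j, (α' j : ℝ) * β v j) →
    ∀ jj : Fin M → Fin r, (∀ v, ∃ m, (cur c l m).coeff (l (jj v)) ≠ 0) →
    ∀ B : Fin M → Fin (ν + 1) → ℝ,
    (∀ v l' j, (cur e l l').coeff (l j) ≠ 0 → β v j ≤ B v l') →
    κ * ∑ v, β v (jj v) ≤ ∑ l', ∑ v, B v l'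

/-- the value of `Rel` -/
theorem aeval_Rel {K S : Type} [Field K] [CommRing S] [Algebra K S] {n r ν : ℕ} (g : Fin r → S)
    (c : Fin r → Fin (n + 1) → K) (e : Fin r → Fin (ν + 1) → K)
    (F : MvPolynomial (Fin (n + 1)) K) (a b : Fin (ν + 1) → ℕ) :
    aeval g (Rel c e F a b) = aeval (fun i => ∑ j, algebraMap K S (c j i) * g j) F *
      ∏ l', (∑ j, algebraMap K S (e j l') * g j) ^ a l' -
      ∏ l', (∑ j, algebraMap K S (e j l') * g j) ^ b l' := by
  unfold Rel
  rw [map_sub, map_mul, map_prod, map_prod, aeval_GU]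
  simp only [map_pow, aeval_lin]

theorem coeff_cur' {n r : ℕ} {R : Type} [CommRing R] (c : Fin r → Fin (n + 1) → R)
    (l : Fin r → ℕ) (y : Fin (n + 1)) (w : ℕ) : (cur c l y).coeff w =
      ∑ j ∈ Finset.univ.filter (fun j => l j = w), c j y := by
  unfold cur
  rw [Polynomial.finsetSum_coeff, Finset.sum_filter]
  refine Finset.sum_congr rfl fun j _ => ?_
  rw [Polynomial.coeff_C_mul_X_pow]
  by_cases h : l j = w
  · rw [if_pos h, if_pos h.symm]
  · rw [if_neg h, if_neg (Ne.symm h)]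

/-- the relation of the germs gives the relation of the curves -/
theorem rel_curve {s n r ν : ℕ} (b : Fin s → ℕ) (hb : ∀ v, (b v).Prime)
    (hbi : Function.Injective b) (hL : Tendsto L atTop atTop) (U : Fin r → GG)
    (hUS : ∀ j, GSU b (U j)) (V : Fin r → Fin (n + 1) → KK L hL)
    (W : Fin r → Fin (ν + 1) → KK L hL) (l : Fin r → ℕ)
    (hl1 : ∀ α β : Fin r → ℕ, ∑ j, α j = ∑ j, β j →
      (∏ j, U j ^ (α j)) / (∏ j, U j ^ (β j)) ∈ KK L hL → ∑ j, α j * l j = ∑ j, β j * l j)
    (F : MvPolynomial (Fin (n + 1)) ℚ) (d : ℕ) (hF : F.IsHomogeneous d)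
    (ea eb : Fin (ν + 1) → ℕ) (hab : d + ∑ l', ea l' = ∑ l', eb l')
    (h0 : aeval (fun i => ∑ j, U j * (V j i : GG)) F *
      ∏ l', (∑ j, U j * (W j l' : GG)) ^ ea l' = ∏ l', (∑ j, U j * (W j l' : GG)) ^ eb l') :
    aeval (cur (fun j i => U j * (V j i : GG)) l) F *
      ∏ l', cur (fun j i => U j * (W j i : GG)) l l' ^ ea l' =
      ∏ l', cur (fun j i => U j * (W j i : GG)) l l' ^ eb l' := by
  classical
  set F' : MvPolynomial (Fin (n + 1)) (KK L hL) := map (algebraMap ℚ (KK L hL)) F with hF'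
  have hF'h : F'.IsHomogeneous d := hF.map _
  set R := Rel V W F' ea eb with hR
  have hRh := Rel_hom V W F' ea eb d hF'h hab
  have hdeg : ∀ α ∈ R.support, ∑ j, α j = ∑ l', eb l' := by
    intro α hα
    have h2 := hRh (mem_support_iff.1 hα)
    rw [Finsupp.weight_apply, Finsupp.sum_fintype _ _ (by simp)] at h2
    simpa using h2
  -- the values in `GG`
  have e1 : aeval U R = 0 := by
    rw [hR, aeval_Rel]
    have h1 : aeval (fun i => ∑ j, algebraMap (KK L hL) GG (V j i) * U j) F' =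
        aeval (fun i => ∑ j, U j * (V j i : GG)) F := by
      rw [hF', aeval_def, aeval_def, eval₂_map]
      have h2 : (fun i => ∑ j, algebraMap (KK L hL) GG (V j i) * U j) =
          fun i => ∑ j, U j * (V j i : GG) := by
        funext i
        exact Finset.sum_congr rfl fun j _ => mul_comm _ _
      rw [h2]
      congr 1
    have h3 : ∀ l', ∑ j, algebraMap (KK L hL) GG (W j l') * U j = ∑ j, U j * (W j l' : GG) :=
      fun l' => Finset.sum_congr rfl fun j _ => mul_comm _ _
    rw [h1]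
    simp only [h3]
    rw [h0, sub_self]
  rw [aeval_def, eval₂_eq'] at e1
  have e2 := CS.cs SUI.sui s b hb hbi L hL (Fin r →₀ ℕ) R.support
    (fun α => MvPolynomial.coeff α R) (fun α => ∏ j, U j ^ (α j))
    (fun α => ∑ j, α j * l j) (fun α _ => GSU.prod hb _ _ fun j _ => GSU.pow hb (hUS j) _)
    (fun α hα β hβ h => hl1 α β (by rw [hdeg α hα, hdeg β hβ]) h) e1
  have e3 : aeval (fun j => Polynomial.C (U j) * Polynomial.X ^ (l j)) R = 0 := by
    rw [aeval_def, eval₂_eq', ← e2]
    refine Finset.sum_congr rfl fun α _ => ?_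
    rw [Polynomial.C_mul, mul_assoc]
    congr 1
    simp only [mul_pow, Finset.prod_mul_distrib, ← pow_mul]
    rw [map_prod, Finset.prod_pow_eq_pow_sum]
    congr 1
    · exact Finset.prod_congr rfl fun j _ => by rw [map_pow]
    · congr 1
      exact Finset.sum_congr rfl fun j _ => mul_comm _ _
  rw [hR, aeval_Rel] at e3
  have hc : ∀ {m : ℕ} (V : Fin r → Fin (m + 1) → KK L hL) (i : Fin (m + 1)),
      ∑ j, algebraMap (KK L hL) (Polynomial GG) (V j i) *
        (Polynomial.C (U j) * Polynomial.X ^ (l j)) =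
      cur (fun j i => U j * (V j i : GG)) l i := by
    intro m V i
    unfold cur
    refine Finset.sum_congr rfl fun j _ => ?_
    rw [Polynomial.C_mul]
    change Polynomial.C (V j i : GG) * _ = _
    ring
  simp only [hc] at e3
  rw [sub_eq_zero] at e3
  rw [← e3]
  congr 1
  rw [hF', aeval_def, aeval_def, eval₂_map]
  congr 1

/-- **The truncated inequality for germs of points.** -/
theorem germ_ineqY {s : ℕ} (b : Fin s → ℕ) (hb : ∀ v, (b v).Prime) (hbi : Function.Injective b)
    (hL : Tendsto L atTop atTop) {n q r ν : ℕ} (D : ℕ) (hD : 1 ≤ D) (d : Fin q → ℕ)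
    (Z : Finset (Fin q)) (κ : ℝ) (hκ0 : 0 ≤ κ)
    (F : Fin q → MvPolynomial (Fin (n + 1)) ℚ) (hF : ∀ i, (F i).IsHomogeneous (d i))
    (ea eb : Fin q → Fin (ν + 1) → ℕ) (hab : ∀ i, i ∉ Z → d i + ∑ l', ea i l' = ∑ l', eb i l')
    (htype : TypeIneqY κ D Z F ea eb r)
    (x : ℕ → Fin (n + 1) → ℤ) (hprim : ∀ t, Finset.univ.gcd (x t) = 1)
    (y : ℕ → Fin (ν + 1) → ℚ) (hy0 : ∀ t l', y t l' ≠ 0)
    (uq : ℕ → Fin r → ℚ) (huq : ∀ t j, IsSU b (uq t j)) (hbd : ∀ j, Bd L (gm fun t => uq t j))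
    (m : Fin r → Fin (n + 1) → ℕ → ℤ) (V : Fin r → Fin (n + 1) → KK L hL)
    (hVm : ∀ j y, (V j y : GG) = gm (fun t => (m j y t : ℚ)))
    (W : Fin r → Fin (ν + 1) → KK L hL)
    (hXs : ∀ y, gm (fun t => (x t y : ℚ)) = ∑ j, gm (fun t => uq t j) * (V j y : GG))
    (hYs : ∀ l', gm (fun t => y t l') = ∑ j, gm (fun t => uq t j) * (W j l' : GG))
    (hZ : ∀ t, ∀ i ∈ Z, aeval (fun y => (x t y : ℚ)) (F i) = 0)
    (hE : ∀ t i, i ∉ Z → aeval (fun y => (x t y : ℚ)) (F i) * ∏ l', y t l' ^ ea i l' =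
      ∏ l', y t l' ^ eb i l')
    (ε : ℝ) (hε : 0 < ε) :
    ∀ᶠ t in (UU : Filter ℕ), κ * Real.log (hh (x t)) ≤
      ∑ l', ∑ v, Real.log (wv b hb v (y t l')) + ε * L t := by
  classical
  set U : Fin r → GG := fun j => gm (fun t => uq t j) with hU
  have hUS : ∀ j, GSU b (U j) := fun j => ⟨_, rfl, fun t => huq t j⟩
  have hU0 : ∀ j, U j ≠ 0 := fun j => gsu_ne_zero hb (hUS j)
  obtain ⟨l, hl1, hl2⟩ := wt2 L hL r U hU0 D
  have huq0 : ∀ t j, uq t j ≠ 0 := fun t j => IsSU.ne_zero hb (huq t j)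
  set c : Fin r → Fin (n + 1) → GG := fun j i => U j * (V j i : GG) with hc
  set e : Fin r → Fin (ν + 1) → GG := fun j i => U j * (W j i : GG) with he
  set X : Fin (n + 1) → GG := fun y => gm (fun t => (x t y : ℚ)) with hX
  set Y : Fin (ν + 1) → GG := fun l' => gm (fun t => y t l') with hY
  have hXe : X = fun y => ∑ j, U j * (V j y : GG) := funext hXs
  have hYe : Y = fun l' => ∑ j, U j * (W j l' : GG) := funext hYs
  have hFX : ∀ i, aeval (fun y => ∑ j, U j * (V j y : GG)) (F i) =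
      gm (fun t => aeval (fun y => (x t y : ℚ)) (F i)) := by
    intro i
    rw [← hXe, hX, aeval_gm']
  -- the monomials
  have hmon : ∀ α : Fin r → ℕ, ∏ j, U j ^ α j = gm (fun t => ∏ j, uq t j ^ α j) := by
    intro α
    rw [← gm_prod']
    exact Finset.prod_congr rfl fun j _ => gm_pow _ _
  have hmon0 : ∀ α : Fin r → ℕ, gm (fun t => ∏ j, uq t j ^ α j) ≠ 0 := by
    intro α
    rw [← hmon]
    exact Finset.prod_ne_zero_iff.2 fun j _ => pow_ne_zero _ (hU0 j)
  -- the classes of the terms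
  have hlj : ∀ j j', l j = l j' ↔ U j / U j' ∈ KK L hL := by
    intro j j'
    have e1 : ∀ j0 : Fin r, ∑ j, (if j = j0 then 1 else 0) * l j = l j0 := fun j0 => by simp
    have e2 : ∀ j0 : Fin r, ∏ j, U j ^ (if j = j0 then 1 else 0) = U j0 := fun j0 => by
      rw [Finset.prod_eq_single j0]
      · simp
      · intro j _ hj
        rw [if_neg hj, pow_zero]
      · intro h
        exact absurd (Finset.mem_univ _) h
    constructor
    · intro h
      have h1 := (hl2 (fun i => if i = j then 1 else 0) (fun i => if i = j' then 1 else 0)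
        (fun i => by split_ifs <;> omega) (fun i => by split_ifs <;> omega)
        (by rw [e1, e1, h])).2
      rw [e2, e2] at h1
      exact h1
    · intro h
      have h1 := hl1 (fun i => if i = j then 1 else 0) (fun i => if i = j' then 1 else 0)
        (by simp) (by rw [e2, e2]; exact h)
      rw [e1, e1] at h1
      exact h1
  -- the curve
  have hcurZ : ∀ i ∈ Z, aeval (cur c l) (F i) = 0 := by
    intro i hi
    rw [ev_cur]
    refine CS.cs SUI.sui s b hb hbi L hL (Fin r →₀ ℕ) (PV V (F i)).support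
      (fun α => MvPolynomial.coeff α (PV V (F i))) (fun α => ∏ j, U j ^ (α j))
      (fun α => ∑ j, α j * l j) ?_ ?_ ?_
    · intro α _
      exact GSU.prod hb _ _ fun j _ => GSU.pow hb (hUS j) _
    · intro α hα β hβ h
      refine hl1 α β ?_ h
      rw [PV_deg V _ (d i) (hF i) α hα, PV_deg V _ (d i) (hF i) β hβ]
    · rw [← ev_u, hFX, ← gm_zero]
      congr 1
      funext t
      rw [hZ t i hi]
  have hcurE : ∀ i, i ∉ Z → aeval (cur c l) (F i) * ∏ l', cur e l l' ^ ea i l' =
      ∏ l', cur e l l' ^ eb i l' := by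
    intro i hi
    refine rel_curve b hb hbi hL U hUS V W l hl1 (F i) (d i) (hF i) (ea i) (eb i) (hab i hi) ?_
    have h1 : ∀ l', ∑ j, U j * (W j l' : GG) = gm (fun t => y t l') := fun l' => (hYs l').symm
    rw [hFX]
    simp only [h1, gm_pow]
    rw [gm_prod', gm_prod', gm_mul]
    congr 1
    funext t
    exact hE t i hi
  have hY0 : ∀ l', Y l' ≠ 0 := by
    intro l'
    rw [hY]
    simp only
    rw [gm_ne_zero]
    exact Eventually.of_forall fun t => hy0 t l'
  have hcurY : ∀ l', cur e l l' ≠ 0 := by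
    intro l' h0
    apply hY0 l'
    have h1 := congrArg (Polynomial.eval 1) h0
    rw [cur_eval_one, Polynomial.eval_zero] at h1
    rw [hYe]
    exact h1
  have hcop : ∀ l1 : Fin r → ℕ, pat D l = pat D l1 →
      ∃ (A : Fin (n + 1) → Polynomial GG) (m0 : ℕ), ∑ i, A i * cur c l1 i = Polynomial.X ^ m0 := by
    intro l1 hpat
    refine cop b hb hbi hL x hprim uq huq hbd m V hVm hXs l1 fun j j' => ?_
    rw [← hlj j j']
    exact ⟨fun h => pat_eq_imp D hD l1 l hpat.symm j j' h,
      fun h => pat_eq_imp D hD l l1 hpat j j' h⟩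
  -- the limits
  have hlimU : ∀ v j, ∃ t, Tendsto (fun n => Real.log (wv b hb v (uq n j)) / L n)
      (UU : Filter ℕ) (𝓝 t) := by
    intro v j
    obtain ⟨A, hA⟩ := wv_le_of_bd b hb v (hbd j) (hU0 j)
    obtain ⟨t, -, ht⟩ := exists_lim hL (fun n => Real.log (wv b hb v (uq n j))) A (by
      filter_upwards [hA] with n hn
      rwa [abs_neg] at hn)
    exact ⟨t, ht⟩
  choose β hβ using hlimU
  have hβ0 : ∀ j, ∑ v, β v j = 0 := by
    intro j
    have h1 : Tendsto (fun n => ∑ v, Real.log (wv b hb v (uq n j)) / L n) (UU : Filter ℕ)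
        (𝓝 (∑ v, β v j)) := tendsto_finsetSum _ fun v _ => hβ v j
    have h2 : (fun n => ∑ v, Real.log (wv b hb v (uq n j)) / L n) = fun _ => 0 := by
      funext n
      have h3 := prod_formula b hb hbi (huq n j)
      rw [Finset.sum_neg_distrib, neg_eq_zero] at h3
      rw [← Finset.sum_div, h3, zero_div]
    rw [h2] at h1
    exact tendsto_nhds_unique h1 tendsto_const_nhds
  have hlmon : ∀ v (α : Fin r → ℕ), Tendsto
      (fun n => Real.log (wv b hb v (∏ j, uq n j ^ α j)) / L n)
      (UU : Filter ℕ) (𝓝 (∑ j, (α j : ℝ) * β v j)) := by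
    intro v α
    have h1 : Tendsto (fun n => ∑ j, (α j : ℝ) * (Real.log (wv b hb v (uq n j)) / L n))
        (UU : Filter ℕ) (𝓝 (∑ j, (α j : ℝ) * β v j)) :=
      tendsto_finsetSum _ fun j _ => (hβ v j).const_mul _
    refine h1.congr fun n => ?_
    rw [map_prod, Real.log_prod]
    · rw [Finset.sum_div]
      refine Finset.sum_congr rfl fun j _ => ?_
      rw [map_pow, Real.log_pow, mul_div_assoc]
    · intro j _
      rw [map_pow]
      exact pow_ne_zero _ ((wv b hb v).ne_zero (huq0 n j))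
  have hBdY : ∀ l', Bd L (Y l') := by
    intro l'
    rw [hYe]
    exact Bd.sum hL _ _ fun j _ => (hbd j).mul (Bd.of_KK hL (W j l').2)
  have hlimY : ∀ v l', ∃ t, Tendsto (fun n => Real.log (wv b hb v (y n l')) / L n)
      (UU : Filter ℕ) (𝓝 t) := by
    intro v l'
    obtain ⟨A, hA⟩ := wv_le_of_bd b hb v (hBdY l') (hY0 l')
    obtain ⟨t, -, ht⟩ := exists_lim hL (fun n => Real.log (wv b hb v (y n l'))) A (by
      filter_upwards [hA] with n hn
      rwa [abs_neg] at hn)
    exact ⟨t, ht⟩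
  choose B hB using hlimY
  -- compatibility
  have hcompat : ∀ α α' : Fin r → ℕ, (∀ j, α j ≤ D) → (∀ j, α' j ≤ D) →
      ∑ j, α j * l j = ∑ j, α' j * l j →
      ∀ v, ∑ j, (α j : ℝ) * β v j = ∑ j, (α' j : ℝ) * β v j := by
    intro α α' hα hα' h v
    have h1 := (hl2 α α' hα hα' h).2
    rw [hmon, hmon] at h1
    exact lim_eq hL (pl_wv b hb v) (hmon0 α) (hmon0 α') h1 (hlmon v α) (hlmon v α')
  have hcoeff : ∀ (y : Fin (n + 1)) (w : ℕ), (cur c l y).coeff w =
      ∑ j ∈ Finset.univ.filter (fun j => l j = w), U j * (V j y : GG) :=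
    fun y w => coeff_cur' c l y w
  set J : Finset (Fin r) := Finset.univ.filter fun j => ∃ m, (cur c l m).coeff (l j) ≠ 0 with hJ
  have hJne : J.Nonempty := by
    obtain ⟨y, hy⟩ := exists_ne_of_prim x hprim
    have h1 : (cur c l y).eval 1 ≠ 0 := by
      rw [cur_eval_one, ← hXs]
      exact hy
    obtain ⟨w, hw⟩ : ∃ w, (cur c l y).coeff w ≠ 0 := by
      by_contra hno
      push Not at hno
      apply h1
      rw [show cur c l y = 0 from Polynomial.ext hno, Polynomial.eval_zero]
    have hw' := hw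
    rw [hcoeff] at hw
    obtain ⟨j, hj, -⟩ := Finset.exists_ne_zero_of_sum_ne_zero hw
    refine ⟨j, ?_⟩
    rw [hJ, Finset.mem_filter]
    refine ⟨Finset.mem_univ _, y, ?_⟩
    rw [(Finset.mem_filter.1 hj).2]
    exact hw'
  have hjj : ∀ v, ∃ j ∈ J, ∀ j' ∈ J, (OO L hL (wv b hb v)).valuation (U j') ≤
      (OO L hL (wv b hb v)).valuation (U j) := fun v => Finset.exists_max_image J _ hJne
  choose jj hjjJ hjjmax using hjj
  have hub : ∀ v y, (OO L hL (wv b hb v)).valuation (X y) ≤
      (OO L hL (wv b hb v)).valuation (U (jj v)) := by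
    intro v y
    have h1 : X y = ∑ j, (V j y : GG) * U j := by
      rw [hXe]
      exact Finset.sum_congr rfl fun j _ => mul_comm _ _
    rw [h1]
    refine ub_class b hb hL U hU0 (fun j => V j y) v (U (jj v)) fun j0 => ?_
    by_cases hj : j0 ∈ J
    · exact Or.inr (hjjmax v j0 hj)
    · left
      intro p _ hp
      rw [hJ, Finset.mem_filter] at hj
      push Not at hj
      have h2 := hj (Finset.mem_univ _) y
      rw [hcoeff] at h2
      rw [← h2]
      refine Finset.sum_congr ?_ fun j _ => mul_comm _ _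
      ext j
      simp only [Finset.mem_filter, Finset.mem_univ, true_and]
      rw [hp, hlj]
  -- the lower bounds of the values
  have hlow : ∀ v l' j, (cur e l l').coeff (l j) ≠ 0 → β v j ≤ B v l' := by
    intro v l' j hne
    rw [coeff_cur'] at hne
    have key := lb_class b hb hbi hL U hUS hbd (fun j => W j l') v j (fun j' => l j' = l j)
      (fun j' => hlj j' j) (by
        intro h0
        apply hne
        rw [← h0]
        exact Finset.sum_congr rfl fun j _ => mul_comm _ _)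
    have h2 : ∑ j, (W j l' : GG) * U j = gm (fun t => y t l') := by
      rw [hYs]
      exact Finset.sum_congr rfl fun j _ => mul_comm _ _
    rw [h2] at key
    exact lim_le hL _ (hU0 j) (hY0 l') key (hβ v j) (hB v l')
  -- the inequality of the limits
  have hmain : κ * ∑ v, β v (jj v) ≤ ∑ l', ∑ v, B v l' := by
    have h1 := htype c e l hcurZ hcurE hcurY hcop (s + 1)
      (fun m j => β (finSuccEquiv s m) j) (fun j => by
      rw [Equiv.sum_comp (finSuccEquiv s) (fun v => β v j)]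
      exact hβ0 j) (fun α α' hα hα' h m => hcompat α α' hα hα' h _)
      (fun m => jj (finSuccEquiv s m)) (fun m => by
        have := hjjJ (finSuccEquiv s m)
        rw [hJ, Finset.mem_filter] at this
        exact this.2) (fun m i => B (finSuccEquiv s m) i)
      (fun m l' j hne => hlow _ l' j hne)
    rw [Equiv.sum_comp (finSuccEquiv s) (fun v => β v (jj v))] at h1
    refine h1.trans (le_of_eq (Finset.sum_congr rfl fun i _ => ?_))
    exact Equiv.sum_comp (finSuccEquiv s) (fun v => B v i)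
  -- the heights
  obtain ⟨ε', hε'0, hε'⟩ : ∃ ε' : ℝ, 0 < ε' ∧ κ * ((s + 2) * ε') + ε' ≤ ε := by
    refine ⟨ε / (κ * (s + 2) + 1), by positivity, le_of_eq ?_⟩
    field_simp
  have hht : ∀ v, ∀ᶠ t in (UU : Filter ℕ), (if v = none then Real.log (hh (x t)) else 0) ≤
      Real.log (wv b hb v (uq t (jj v))) + ε' * L t := by
    intro v
    have h1 : ∀ᶠ t in (UU : Filter ℕ), ∀ y, wv b hb v (x t y : ℚ) ≤
        wv b hb v (uq t (jj v)) * Real.exp (ε' * L t) :=
      eventually_all.2 fun y => val_le hL _ (hub v y) ε' hε'0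
    filter_upwards [h1] with t ht
    have h2 : 0 < wv b hb v (uq t (jj v)) := (wv b hb v).pos (huq0 t _)
    obtain ⟨y, hy⟩ : ∃ y, Real.exp (if v = none then Real.log (hh (x t)) else 0) ≤
        wv b hb v (x t y : ℚ) := by
      cases v with
      | none =>
        rw [if_pos rfl, Real.exp_log (by exact_mod_cast hh_pos (x t) (hprim t))]
        obtain ⟨y, -, hy⟩ := Finset.exists_mem_eq_sup Finset.univ Finset.univ_nonempty
          (fun i => (x t i).natAbs)
        refine ⟨y, ?_⟩
        rw [wv_none]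
        unfold hh
        rw [hy]
        push_cast
        rw [Nat.cast_natAbs]
        push_cast
        exact le_rfl
      | some v =>
        rw [if_neg (by simp), Real.exp_zero]
        have hpr := Fact.mk (hb v)
        by_contra hno
        push Not at hno
        have h3 : ∀ y, (b v : ℤ) ∣ x t y := by
          intro y
          have h4 := hno y
          rw [wv_some] at h4
          have h5 : padicNorm (b v) (x t y : ℚ) < 1 := by exact_mod_cast h4
          exact (padicNorm.int_lt_one_iff _).1 h5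
        have h4 : (b v : ℤ) ∣ Finset.univ.gcd (x t) := Finset.dvd_gcd fun y _ => h3 y
        rw [hprim t] at h4
        exact (Nat.prime_iff_prime_int.1 (hb v)).not_dvd_one h4
    have h3 := hy.trans (ht y)
    rw [← Real.log_le_log_iff (Real.exp_pos _) (by positivity), Real.log_exp,
      Real.log_mul h2.ne' (Real.exp_pos _).ne', Real.log_exp] at h3
    exact h3
  have hUlim : Tendsto (fun t => ∑ v, Real.log (wv b hb v (uq t (jj v))) / L t) (UU : Filter ℕ)
      (𝓝 (∑ v, β v (jj v))) := tendsto_finsetSum _ fun v _ => hβ v (jj v)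
  have hFlim : Tendsto (fun t => ∑ l', ∑ v, Real.log (wv b hb v (y t l')) / L t)
      (UU : Filter ℕ) (𝓝 (∑ l', ∑ v, B v l')) :=
    tendsto_finsetSum _ fun i _ => tendsto_finsetSum _ fun v _ => hB v i
  filter_upwards [eventually_all.2 hht, hUlim.eventually (gt_mem_nhds (lt_add_of_pos_right _ hε'0)),
    hFlim.eventually (lt_mem_nhds (sub_lt_self _ hε'0)),
    ev_of_atTop (hL.eventually_gt_atTop 0)] with t h1 h2 h3 h4
  have h5 : Real.log (hh (x t)) ≤ ∑ v, Real.log (wv b hb v (uq t (jj v))) +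
      (s + 1) * (ε' * L t) := by
    have h6 := Finset.sum_le_sum fun v (_ : v ∈ (Finset.univ : Finset (Option (Fin s)))) => h1 v
    rw [Finset.sum_add_distrib, Finset.sum_const, Finset.card_univ, Fintype.card_option,
      Fintype.card_fin, nsmul_eq_mul] at h6
    simp only [Finset.sum_ite_eq', Finset.mem_univ, if_true] at h6
    push_cast at h6
    exact h6
  have h6 : ∑ v, Real.log (wv b hb v (uq t (jj v))) < (∑ v, β v (jj v) + ε') * L t := by
    rw [← Finset.sum_div, div_lt_iff₀ h4] at h2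
    exact h2
  have h7 : (∑ l', ∑ v, B v l' - ε') * L t < ∑ l', ∑ v, Real.log (wv b hb v (y t l')) := by
    simp only [← Finset.sum_div] at h3
    rw [lt_div_iff₀ h4] at h3
    exact h3
  have h8 : κ * Real.log (hh (x t)) ≤ κ * ((∑ v, β v (jj v) + ε') * L t +
      (s + 1) * (ε' * L t)) := mul_le_mul_of_nonneg_left (by linarith) hκ0
  have h9 : κ * ((∑ v, β v (jj v) + ε') * L t + (s + 1) * (ε' * L t)) =
      (κ * ∑ v, β v (jj v)) * L t + κ * ((s + 2) * ε') * L t := by ring
  have h10 := mul_le_mul_of_nonneg_right hmain h4.le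
  have h11 := mul_le_mul_of_nonneg_right hε' h4.le
  nlinarith

end Pool.Agent.Q51.VY
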