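import Mathlib
import Pool.Agent.Q51.VX.Ind
import Pool.Agent.Q51.VY.Germ

set_option autoImplicit false
set_option maxHeartbeats 1000000

/-!
# The truncated inequality for points that are short sums of S-units
-/

namespace Pool.Agent.Q51.VY

open MvPolynomial Filter Topology Pool.Agent.TH932.Germs Pool.Agent.TH551.SU
open Pool.Agent.TH551.SU.SUI Pool.Agent.Y724.Vj Pool.Agent.TH551.SU.CRV
open Pool.Agent.H533R3.SL Pool.Agent.Q51.VX

/-- `x` and the `y l'`, `l' ∉ Pu`, form a sum of `r` integer vectors of size at most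
`B * H(x) ^ δ` multiplied by units -/
def Short2 {s n ν : ℕ} (b : Fin s → ℕ) (r : ℕ) (B δ : ℝ) (Pu : Finset (Fin (ν + 1)))
    (x : Fin (n + 1) → ℤ) (y : Fin (ν + 1) → ℚ) : Prop :=
  ∃ (u : Fin r → ℚ) (m : Fin r → Fin (n + 1) → ℤ) (m' : Fin r → Fin (ν + 1) → ℤ),
    (∀ j, IsSU b (u j)) ∧ (∀ j i, |(m j i : ℝ)| ≤ B * (hh x : ℝ) ^ δ) ∧
    (∀ j l', |(m' j l' : ℝ)| ≤ B * (hh x : ℝ) ^ δ) ∧ (∀ i, (x i : ℚ) = ∑ j, u j * m j i) ∧
    ∀ l', l' ∉ Pu → y l' = ∑ j, u j * m' j l'

/-- the statement for sums of `r` terms -/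
def QQY {s n q ν : ℕ} (b : Fin s → ℕ) (hb : ∀ v, (b v).Prime) (κ : ℝ) (Z : Finset (Fin q))
    (F : Fin q → MvPolynomial (Fin (n + 1)) ℚ) (ea eb : Fin q → Fin (ν + 1) → ℕ)
    (Pu : Finset (Fin (ν + 1))) (A0 B ε : ℝ) (r : ℕ) : Prop :=
  ∃ (δ C : ℝ), 0 < δ ∧ ∀ (x : Fin (n + 1) → ℤ) (y : Fin (ν + 1) → ℚ), Finset.univ.gcd x = 1 →
    (∀ l', y l' ≠ 0) → (∀ l' ∈ Pu, IsSU b (y l')) →
    (∀ l', eta (y l') ≤ A0 * (Real.log (hh x) + 1)) →
    (∀ i ∈ Z, aeval (fun y => (x y : ℚ)) (F i) = 0) →
    (∀ i, i ∉ Z → aeval (fun y => (x y : ℚ)) (F i) * ∏ l', y l' ^ ea i l' =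
      ∏ l', y l' ^ eb i l') → Short2 b r B δ Pu x y →
    κ * Real.log (hh x) ≤ ∑ l', ∑ v, Real.log (wv b hb v (y l')) +
      (ε * Real.log (hh x) + C)

/-- a negligible germ is the sum of the negligible terms -/
theorem red_class {s r : ℕ} {L : ℕ → ℝ} (b : Fin s → ℕ) (hb : ∀ v, (b v).Prime)
    (hbi : Function.Injective b) (hL : Tendsto L atTop atTop) (U : Fin r → GG)
    (hUS : ∀ j, GSU b (U j)) (V : Fin r → KK L hL) (X : GG) (hX : X ∈ KK L hL)
    (hXs : X = ∑ j, U j * (V j : GG)) (J1 : Finset (Fin r)) (hJ1 : ∀ j, j ∈ J1 ↔ U j ∈ KK L hL) :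
    X = ∑ j ∈ J1, U j * (V j : GG) := by
  classical
  have hU0 : ∀ j, U j ≠ 0 := fun j => gsu_ne_zero hb (hUS j)
  have hw : ∀ o : Option (Fin r), o.elim (1 : GG) U ∈ KK L hL ↔
      o.elim 1 (fun j => if U j ∈ KK L hL then 1 else 0) = 1 := by
    rintro (_ | j)
    · exact ⟨fun _ => rfl, fun _ => (KK L hL).one_mem⟩
    · simp only [Option.elim_some]
      by_cases h : U j ∈ KK L hL
      · simp [h]
      · simp [h]
  have hw2 : ∀ o : Option (Fin r), o.elim 1 (fun j => if U j ∈ KK L hL then 1 else 0) = 0 ∨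
      o.elim 1 (fun j => if U j ∈ KK L hL then 1 else 0) = 1 := by
    rintro (_ | j)
    · right
      rfl
    · simp only [Option.elim_some]
      split_ifs
      · right; rfl
      · left; rfl
  have h1 := CS.cs SUI.sui s b hb hbi L hL (Option (Fin r)) Finset.univ
    (fun o => o.elim (⟨X, hX⟩ : KK L hL) (fun j => -V j))
    (fun o => o.elim (1 : GG) U)
    (fun o => o.elim 1 (fun j => if U j ∈ KK L hL then 1 else 0)) (by
      rintro (_ | j) _
      · exact GSU.one
      · exact hUS j) (by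
      intro i _ j _ hij
      have hg0 : ∀ o : Option (Fin r), o.elim (1 : GG) U ≠ 0 := by
        rintro (_ | j)
        · exact one_ne_zero
        · exact hU0 j
      have h2 : i.elim (1 : GG) U ∈ KK L hL ↔ j.elim (1 : GG) U ∈ KK L hL := by
        constructor
        · intro h3
          have h4 := (KK L hL).div_mem h3 hij
          have h5 : i.elim (1 : GG) U / (i.elim (1 : GG) U / j.elim (1 : GG) U) =
              j.elim (1 : GG) U := by
            have := hg0 i
            have := hg0 j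
            field_simp
          rwa [h5] at h4
        · intro h3
          have h4 := (KK L hL).mul_mem h3 hij
          have h5 : j.elim (1 : GG) U * (i.elim (1 : GG) U / j.elim (1 : GG) U) =
              i.elim (1 : GG) U := by
            have := hg0 i
            have := hg0 j
            field_simp
          rwa [h5] at h4
      rw [hw, hw] at h2
      rcases hw2 i with h3 | h3 <;> rcases hw2 j with h4 | h4
      · rw [h3, h4]
      · rw [h3, h4] at h2
        exact absurd (h2.2 rfl) (by norm_num)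
      · rw [h3, h4] at h2
        exact absurd (h2.1 rfl) (by norm_num)
      · rw [h3, h4]) (by
      rw [Fintype.sum_option]
      simp only [Option.elim_none, Option.elim_some]
      rw [mul_one]
      push_cast
      rw [hXs, ← Finset.sum_add_distrib]
      exact Finset.sum_eq_zero fun j _ => by ring)
  have h3 := congrArg (fun p => Polynomial.coeff p 1) h1
  simp only [Polynomial.finsetSum_coeff, Polynomial.coeff_zero,
    Polynomial.coeff_C_mul_X_pow] at h3
  rw [Fintype.sum_option] at h3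
  simp only [Option.elim_none, Option.elim_some, if_true] at h3
  have h4 : X + ∑ j, (if U j ∈ KK L hL then -(U j * (V j : GG)) else 0) = 0 := by
    refine Eq.trans ?_ h3
    rw [mul_one]
    congr 1
    refine Finset.sum_congr rfl fun j _ => ?_
    by_cases h5 : U j ∈ KK L hL
    · simp [h5, mul_comm]
    · simp [h5]
  rw [← Finset.sum_filter, Finset.sum_neg_distrib, ← sub_eq_add_neg, sub_eq_zero] at h4
  rw [h4]
  refine Finset.sum_congr ?_ fun _ _ => rfl
  ext j
  rw [Finset.mem_filter, hJ1]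
  simp

theorem bd_of_eta {L : ℕ → ℝ} (u : ℕ → ℚ) (A : ℝ)
    (h : ∀ᶠ t in (UU : Filter ℕ), eta (u t) ≤ A * L t) : Bd L (gm u) := by
  refine ⟨fun t => (u t).num, fun t => ((u t).den : ℤ), A, ?_, ?_, ?_, gm_num_den _⟩
  · filter_upwards [h] with t ht
    exact (num_le_eta _).trans (Real.exp_le_exp.2 ht)
  · filter_upwards [h] with t ht
    rw [Int.cast_natCast, abs_of_nonneg (Nat.cast_nonneg _)]
    exact (den_le_eta _).trans (Real.exp_le_exp.2 ht)
  · refine Eventually.of_forall fun t => ?_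
    change (((u t).den : ℕ) : ℤ) ≠ 0
    exact_mod_cast (u t).den_ne_zero

theorem kk_of_eta {L : ℕ → ℝ} (hL : Tendsto L atTop atTop) (u : ℕ → ℚ)
    (h : ∀ ε : ℝ, 0 < ε → ∀ᶠ t in (UU : Filter ℕ), eta (u t) ≤ ε * L t) : gm u ∈ KK L hL := by
  rw [mem_KK_iff]
  constructor
  · intro ε hε
    filter_upwards [h ε hε] with t ht
    exact (num_le_eta _).trans (Real.exp_le_exp.2 ht)
  · intro ε hε
    filter_upwards [h ε hε] with t ht
    rw [Int.cast_natCast, abs_of_nonneg (Nat.cast_nonneg _)]
    exact (den_le_eta _).trans (Real.exp_le_exp.2 ht)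

theorem step_QQY {s : ℕ} (b : Fin s → ℕ) (hb : ∀ v, (b v).Prime) (hbi : Function.Injective b)
    {n q ν : ℕ} (D : ℕ) (hD : 1 ≤ D) (d : Fin q → ℕ) (Z : Finset (Fin q)) (κ : ℝ) (hκ0 : 0 ≤ κ)
    (F : Fin q → MvPolynomial (Fin (n + 1)) ℚ) (hF : ∀ i, (F i).IsHomogeneous (d i))
    (ea eb : Fin q → Fin (ν + 1) → ℕ) (hab : ∀ i, i ∉ Z → d i + ∑ l', ea i l' = ∑ l', eb i l')
    (Pu : Finset (Fin (ν + 1))) (A0 : ℝ) (hA0 : 0 ≤ A0)
    (B : ℝ) (hB : 1 ≤ B) (ε : ℝ) (hε : 0 < ε) (r : ℕ)
    (htype : TypeIneqY κ D Z F ea eb (r + (ν + 1)))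
    (ih : ∀ r' < r, QQY b hb κ Z F ea eb Pu A0 B ε r') : QQY b hb κ Z F ea eb Pu A0 B ε r := by
  classical
  by_contra hcon
  unfold QQY at hcon
  push Not at hcon
  choose x y hprim hy0 hyu hyeta hxZ hxE hsh hviol using fun t : ℕ =>
    hcon (1 / ((t : ℝ) + 1)) t (by positivity)
  choose uq m m' huqSU hm hm' hx hy using hsh
  -- the scale
  set lh : ℕ → ℝ := fun t => Real.log (hh (x t) : ℝ) + Real.log ((t : ℝ) + 1) with hlh
  set L : ℕ → ℝ := fun t => lh t + ∑ j, eta (uq t j) with hLdef
  have hHpos : ∀ t, (1 : ℝ) ≤ hh (x t) := fun t => by exact_mod_cast hh_pos (x t) (hprim t)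
  have hlH0 : ∀ t, 0 ≤ Real.log (hh (x t) : ℝ) := fun t => Real.log_nonneg (hHpos t)
  have hlt0 : ∀ t : ℕ, 0 ≤ Real.log ((t : ℝ) + 1) := fun t =>
    Real.log_nonneg (by have : (0 : ℝ) ≤ t := Nat.cast_nonneg t; linarith)
  have hes0 : ∀ t, 0 ≤ ∑ j, eta (uq t j) := fun t => Finset.sum_nonneg fun j _ => eta_nonneg _
  have hLge : ∀ t : ℕ, Real.log ((t : ℝ) + 1) ≤ L t := by
    intro t
    have h2 := hlH0 t
    have h3 := hes0 t
    change Real.log ((t : ℝ) + 1) ≤ (Real.log (hh (x t) : ℝ) + Real.log ((t : ℝ) + 1)) +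
      ∑ j, eta (uq t j)
    linarith
  have hLge2 : ∀ t, Real.log (hh (x t) : ℝ) ≤ L t := by
    intro t
    have h2 := hlt0 t
    have h3 := hes0 t
    change Real.log (hh (x t) : ℝ) ≤ (Real.log (hh (x t) : ℝ) + Real.log ((t : ℝ) + 1)) +
      ∑ j, eta (uq t j)
    linarith
  have hL1 : Tendsto (fun t : ℕ => Real.log ((t : ℝ) + 1)) atTop atTop :=
    Real.tendsto_log_atTop.comp (tendsto_atTop_add_const_right _ _ tendsto_natCast_atTop_atTop)
  have hL : Tendsto L atTop atTop := tendsto_atTop_mono hLge hL1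
  -- the germs
  set U : Fin r → GG := fun j => gm (fun t => uq t j) with hU
  have hUS : ∀ j, GSU b (U j) := fun j => ⟨_, rfl, fun t => huqSU t j⟩
  have hU0 : ∀ j, U j ≠ 0 := fun j => gsu_ne_zero hb (hUS j)
  have heL : ∀ t j, eta (uq t j) ≤ L t := by
    intro t j
    have h1 := Finset.single_le_sum (f := fun j => eta (uq t j)) (fun j _ => eta_nonneg _)
      (Finset.mem_univ j)
    have h2 := hlH0 t
    have h3 := hlt0 t
    change eta (uq t j) ≤ (Real.log (hh (x t) : ℝ) + Real.log ((t : ℝ) + 1)) +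
      ∑ j, eta (uq t j)
    linarith
  have hbd : ∀ j, Bd L (U j) := fun j =>
    bd_of_eta _ 1 (Eventually.of_forall fun t => by rw [one_mul]; exact heL t j)
  have hneg : ∀ (μ : ℕ → ℤ), (∀ t, |(μ t : ℝ)| ≤ B * (hh (x t) : ℝ) ^ (1 / ((t : ℝ) + 1))) →
      Negl L μ := by
    intro μ hμ ε' hε'
    have h1 : ∀ᶠ t : ℕ in atTop, Real.log B ≤ ε' / 2 * L t := by
      filter_upwards [hL.eventually_ge_atTop (Real.log B / (ε' / 2))] with t ht
      rw [div_le_iff₀ (by positivity)] at ht
      linarith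
    have h2 : ∀ᶠ t : ℕ in atTop, 1 / ((t : ℝ) + 1) ≤ ε' / 2 := by
      have h3 : Tendsto (fun t : ℕ => 1 / ((t : ℝ) + 1)) atTop (𝓝 0) :=
        tendsto_one_div_add_atTop_nhds_zero_nat
      exact (h3.eventually (gt_mem_nhds (show (0 : ℝ) < ε' / 2 by positivity))).mono
        fun t ht => ht.le
    filter_upwards [ev_of_atTop h1, ev_of_atTop h2] with t h3 h4
    refine (hμ t).trans ?_
    have h5 : (hh (x t) : ℝ) ^ (1 / ((t : ℝ) + 1)) ≤ Real.exp (ε' / 2 * L t) := by
      rw [Real.rpow_def_of_pos (lt_of_lt_of_le one_pos (hHpos t))]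
      apply Real.exp_le_exp.2
      rw [mul_comm]
      exact mul_le_mul h4 (hLge2 t) (hlH0 t) (by positivity)
    have h6 : B ≤ Real.exp (ε' / 2 * L t) := by
      rw [← Real.exp_log (lt_of_lt_of_le one_pos hB)]
      exact Real.exp_le_exp.2 h3
    calc B * (hh (x t) : ℝ) ^ (1 / ((t : ℝ) + 1)) ≤
        Real.exp (ε' / 2 * L t) * Real.exp (ε' / 2 * L t) :=
          mul_le_mul h6 h5 (Real.rpow_nonneg (Nat.cast_nonneg _) _) (Real.exp_pos _).le
      _ = Real.exp (ε' * L t) := by rw [← Real.exp_add]; ring_nf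
  have hmN : ∀ j i, Negl L (fun t => m t j i) := fun j i => hneg _ fun t => hm t j i
  have hmN' : ∀ j l', Negl L (fun t => m' t j l') := fun j l' => hneg _ fun t => hm' t j l'
  have hNK : ∀ m' : ℕ → ℤ, Negl L m' → gm (fun t => (m' t : ℚ)) ∈ KK L hL := fun m' hm' =>
    ⟨_, _, hm', Negl.one hL, by simp, by
      congr 1
      funext t
      simp⟩
  set V : Fin r → Fin (n + 1) → KK L hL := fun j y => ⟨_, hNK _ (hmN j y)⟩ with hV
  set W : Fin r → Fin (ν + 1) → KK L hL := fun j y => ⟨_, hNK _ (hmN' j y)⟩ with hW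
  set X : Fin (n + 1) → GG := fun y => gm (fun t => (x t y : ℚ)) with hX
  set Y : Fin (ν + 1) → GG := fun l' => gm (fun t => y t l') with hY
  have hXs : ∀ y, X y = ∑ j, U j * (V j y : GG) := by
    intro y
    have h1 : ∀ j, U j * (V j y : GG) = gm (fun t => uq t j * m t j y) := fun j => by
      rw [← gm_mul]
    rw [Finset.sum_congr rfl fun j _ => h1 j, gm_sum', hX]
    simp only
    congr 1
    funext t
    exact hx t y
  have hYs : ∀ l', l' ∉ Pu → Y l' = ∑ j, U j * (W j l' : GG) := by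
    intro l' hl'
    have h1 : ∀ j, U j * (W j l' : GG) = gm (fun t => uq t j * m' t j l') := fun j => by
      rw [← gm_mul]
    rw [Finset.sum_congr rfl fun j _ => h1 j, gm_sum', hY]
    simp only
    congr 1
    funext t
    exact hy t l' hl'
  by_cases hcase : ∃ A : ℕ, ∀ᶠ t in (UU : Filter ℕ), L t ≤ ((A : ℝ) + 1) * lh t
  · -- the main case
    obtain ⟨A, hA⟩ := hcase
    have hmin : 0 < min ε 1 := lt_min hε one_pos
    -- all the terms
    let uq' : ℕ → Fin (r + (ν + 1)) → ℚ := fun t =>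
      Fin.append (uq t) (fun l' => if l' ∈ Pu then y t l' else 1)
    let V' : Fin (r + (ν + 1)) → Fin (n + 1) → KK L hL := Fin.append V (fun _ _ => 0)
    let m'' : Fin (r + (ν + 1)) → Fin (n + 1) → ℕ → ℤ :=
      Fin.append (fun j i t => m t j i) (fun _ _ _ => 0)
    let W' : Fin (r + (ν + 1)) → Fin (ν + 1) → KK L hL :=
      Fin.append (fun j l' => if l' ∈ Pu then 0 else W j l')
        (fun l'' l' => if l' = l'' ∧ l' ∈ Pu then 1 else 0)
    have huq' : ∀ t j, IsSU b (uq' t j) := by
      intro t j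
      refine Fin.addCases (fun j => ?_) (fun l' => ?_) j
      · simp only [uq', Fin.append_left]
        exact huqSU t j
      · simp only [uq', Fin.append_right]
        split_ifs with h
        · exact hyu t l' h
        · exact IsSU.one
    have hbd' : ∀ j, Bd L (gm fun t => uq' t j) := by
      intro j
      refine Fin.addCases (fun j => ?_) (fun l' => ?_) j
      · simp only [uq', Fin.append_left]
        exact hbd j
      · simp only [uq', Fin.append_right]
        split_ifs with h
        · refine bd_of_eta _ (2 * A0) ?_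
          filter_upwards [ev_of_atTop (hL.eventually_ge_atTop 1)] with t ht
          refine (hyeta t l').trans ?_
          have h1 := hLge2 t
          have h2 : A0 * (Real.log (hh (x t)) + 1) ≤ A0 * (L t + L t) :=
            mul_le_mul_of_nonneg_left (by linarith) hA0
          linarith
        · rw [gm_one]
          exact Bd.one hL
    have key := germ_ineqY b hb hbi hL D hD d Z κ hκ0 F hF ea eb hab htype x hprim y hy0 uq' huq'
      hbd' m'' V' (by
        intro j i
        refine Fin.addCases (fun j => ?_) (fun l' => ?_) j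
        · simp only [V', m'', Fin.append_left]
          rfl
        · simp only [V', m'', Fin.append_right]
          rw [ZeroMemClass.coe_zero, Int.cast_zero]
          exact gm_zero.symm) W' (by
        intro i
        rw [Fin.sum_univ_add]
        simp only [uq', V', Fin.append_left, Fin.append_right, ZeroMemClass.coe_zero, mul_zero,
          Finset.sum_const_zero, add_zero]
        exact hXs i) (by
        intro l'
        rw [Fin.sum_univ_add]
        simp only [uq', W', Fin.append_left, Fin.append_right]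
        by_cases hl' : l' ∈ Pu
        · simp only [hl', and_true, if_true, ZeroMemClass.coe_zero, mul_zero,
            Finset.sum_const_zero, zero_add]
          rw [Finset.sum_eq_single l']
          · simp [hl']
          · intro l'' _ hne
            rw [if_neg (Ne.symm hne), ZeroMemClass.coe_zero, mul_zero]
          · intro h
            exact absurd (Finset.mem_univ _) h
        · simp only [hl', and_false, if_false, ZeroMemClass.coe_zero, mul_zero,
            Finset.sum_const_zero, add_zero]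
          exact hYs l' hl')
      (fun t i hi => hxZ t i hi) (fun t i hi => hxE t i hi)
      (min ε 1 / ((A : ℝ) + 1)) (by positivity)
    obtain ⟨t, h4, h5⟩ := (key.and hA).exists
    have h6 := hviol t
    have hA0 : (0 : ℝ) < (A : ℝ) + 1 := by positivity
    have h7 : min ε 1 / ((A : ℝ) + 1) * L t ≤ min ε 1 * lh t := by
      rw [div_mul_eq_mul_div, div_le_iff₀ hA0]
      have := mul_le_mul_of_nonneg_left h5 hmin.le
      linarith
    have h8 : min ε 1 * lh t ≤ ε * Real.log (hh (x t) : ℝ) + t := by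
      rw [hlh]
      simp only
      rw [mul_add]
      have h9 : min ε 1 * Real.log (hh (x t) : ℝ) ≤ ε * Real.log (hh (x t) : ℝ) :=
        mul_le_mul_of_nonneg_right (min_le_left _ _) (hlH0 t)
      have h10 : min ε 1 * Real.log ((t : ℝ) + 1) ≤ 1 * Real.log ((t : ℝ) + 1) :=
        mul_le_mul_of_nonneg_right (min_le_right _ _) (hlt0 t)
      have h11 : Real.log ((t : ℝ) + 1) ≤ t := by
        have h12 : (0 : ℝ) < (t : ℝ) + 1 := by positivity
        have := Real.log_le_sub_one_of_pos h12
        linarith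
      linarith
    linarith
  · -- the height of the point is negligible
    push Not at hcase
    have hsmall : ∀ ε' : ℝ, 0 < ε' → ∀ᶠ t in (UU : Filter ℕ), lh t ≤ ε' * L t := by
      intro ε' hε'
      obtain ⟨A, hA⟩ := exists_nat_ge (1 / ε')
      filter_upwards [hcase A] with t ht
      have hlh0 : 0 ≤ lh t := add_nonneg (hlH0 t) (hlt0 t)
      have h1 : 1 / ε' * lh t ≤ L t := by nlinarith
      rw [one_div, inv_mul_le_iff₀ hε'] at h1
      exact h1
    have hXK : ∀ y, X y ∈ KK L hL := by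
      intro y
      apply hNK
      intro ε' hε'
      filter_upwards [hsmall ε' hε'] with t ht
      refine (le_hh (x t) y).trans ?_
      rw [← Real.exp_log (lt_of_lt_of_le one_pos (hHpos t))]
      apply Real.exp_le_exp.2
      have := hlt0 t
      rw [hlh] at ht
      simp only at ht
      linarith
    have hYK : ∀ l', Y l' ∈ KK L hL := by
      intro l'
      apply kk_of_eta
      intro ε' hε'
      have h1 : (0 : ℝ) < A0 + 1 := by linarith
      filter_upwards [hsmall (ε' / (2 * (A0 + 1))) (by positivity),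
        ev_of_atTop (hL.eventually_ge_atTop (1 / (ε' / (2 * (A0 + 1)))))] with t ht ht2
      refine (hyeta t l').trans ?_
      have h2 : Real.log (hh (x t) : ℝ) ≤ ε' / (2 * (A0 + 1)) * L t := by
        have := hlt0 t
        rw [hlh] at ht
        simp only at ht
        linarith
      have h3 : 1 ≤ ε' / (2 * (A0 + 1)) * L t := by
        rw [div_le_iff₀ (by positivity)] at ht2
        linarith
      have h4 : A0 * (Real.log (hh (x t)) + 1) ≤
          (A0 + 1) * (ε' / (2 * (A0 + 1)) * L t + ε' / (2 * (A0 + 1)) * L t) := by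
        refine mul_le_mul (by linarith) (by linarith) ?_ h1.le
        have := hlH0 t
        linarith
      refine h4.trans (le_of_eq ?_)
      field_simp
      ring
    set J1 : Finset (Fin r) := Finset.univ.filter fun j => U j ∈ KK L hL with hJ1
    have hJ1m : ∀ j, j ∈ J1 ↔ U j ∈ KK L hL := fun j => by rw [hJ1, Finset.mem_filter]; simp
    have hWX : ∀ y, X y = ∑ j ∈ J1, U j * (V j y : GG) := fun y =>
      red_class b hb hbi hL U hUS (fun j => V j y) (X y) (hXK y) (hXs y) J1 hJ1m
    have hWY : ∀ l', l' ∉ Pu → Y l' = ∑ j ∈ J1, U j * (W j l' : GG) := fun l' hl' =>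
      red_class b hb hbi hL U hUS (fun j => W j l') (Y l') (hYK l') (hYs l' hl') J1 hJ1m
    -- the class is proper
    have hcard : J1.card < r := by
      by_contra hge
      have h1 : J1 = Finset.univ := by
        apply Finset.eq_univ_of_card
        have := J1.card_le_univ
        rw [Fintype.card_fin] at this ⊢
        omega
      have h3 : ∀ j, U j ∈ KK L hL := by
        intro j
        have : j ∈ J1 := by rw [h1]; exact Finset.mem_univ _
        exact (Finset.mem_filter.1 this).2
      have h4 : ∀ ε' : ℝ, 0 < ε' → ∀ᶠ t in (UU : Filter ℕ), ∀ j, eta (uq t j) ≤ ε' * L t := by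
        intro ε' hε'
        refine eventually_all.2 fun j => ?_
        obtain ⟨h5, h6⟩ := (mem_KK_iff hL _).1 (h3 j)
        filter_upwards [h5 ε' hε', h6 ε' hε', L_nonneg hL] with t h7 h8 h9
        unfold eta
        rw [Int.cast_natCast, abs_of_nonneg (Nat.cast_nonneg _)] at h8
        have h10 : (1 : ℝ) ≤ (uq t j).den := by exact_mod_cast (uq t j).pos
        have h11 : 0 < max |((uq t j).num : ℝ)| ((uq t j).den : ℝ) :=
          lt_of_lt_of_le one_pos (le_max_of_le_right h10)
        rw [Real.log_le_iff_le_exp h11]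
        exact max_le h7 h8
      have hr0 : (0 : ℝ) < (r : ℝ) + 1 := by positivity
      obtain ⟨t, h5, h6, h7⟩ := ((hsmall (1 / 4) (by norm_num)).and
        ((h4 (1 / (4 * ((r : ℝ) + 1))) (by positivity)).and
          (ev_of_atTop (hL.eventually_gt_atTop 0)))).exists
      have h8 : ∑ j, eta (uq t j) ≤ (r : ℝ) * (1 / (4 * ((r : ℝ) + 1)) * L t) := by
        refine (Finset.sum_le_sum fun j _ => h6 j).trans (le_of_eq ?_)
        rw [Finset.sum_const, Finset.card_univ, Fintype.card_fin, nsmul_eq_mul]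
      have h9 : (r : ℝ) * (1 / (4 * ((r : ℝ) + 1)) * L t) ≤ 1 / 4 * L t := by
        have h10 : (r : ℝ) * (1 / (4 * ((r : ℝ) + 1))) ≤ 1 / 4 := by
          rw [mul_one_div, div_le_div_iff₀ (by positivity) (by norm_num)]
          linarith
        have := mul_le_mul_of_nonneg_right h10 h7.le
        linarith
      have h10 : L t = lh t + ∑ j, eta (uq t j) := rfl
      linarith
    -- the shorter sum
    obtain ⟨δ', C', hδ', hQQ⟩ := ih J1.card hcard
    have hrep : ∀ᶠ t in (UU : Filter ℕ), ∀ y, (x t y : ℚ) = ∑ j ∈ J1, uq t j * m t j y := by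
      refine eventually_all.2 fun y => ?_
      have h1 := hWX y
      rw [hX] at h1
      simp only at h1
      have h2 : ∀ j, U j * (V j y : GG) = gm (fun t => uq t j * m t j y) := fun j => by
        rw [← gm_mul]
      rw [Finset.sum_congr rfl fun j _ => h2 j, gm_sum', gm_eq] at h1
      exact h1
    have hrepY : ∀ᶠ t in (UU : Filter ℕ), ∀ l', l' ∉ Pu →
        y t l' = ∑ j ∈ J1, uq t j * m' t j l' := by
      refine eventually_all.2 fun l' => ?_
      by_cases hl' : l' ∈ Pu
      · exact Eventually.of_forall fun t h => absurd hl' h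
      · have h1 := hWY l' hl'
        rw [hY] at h1
        simp only at h1
        have h2 : ∀ j, U j * (W j l' : GG) = gm (fun t => uq t j * m' t j l') := fun j => by
          rw [← gm_mul]
        rw [Finset.sum_congr rfl fun j _ => h2 j, gm_sum', gm_eq] at h1
        exact h1.mono fun t ht _ => ht
    have hδt : ∀ᶠ t : ℕ in (UU : Filter ℕ), 1 / ((t : ℝ) + 1) ≤ δ' := by
      apply ev_of_atTop
      have h3 : Tendsto (fun t : ℕ => 1 / ((t : ℝ) + 1)) atTop (𝓝 0) :=
        tendsto_one_div_add_atTop_nhds_zero_nat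
      exact (h3.eventually (gt_mem_nhds hδ')).mono fun t ht => ht.le
    have hCt : ∀ᶠ t : ℕ in (UU : Filter ℕ), C' ≤ t :=
      ev_of_atTop (tendsto_natCast_atTop_atTop.eventually_ge_atTop C')
    obtain ⟨t, h1, h2, h3, h4⟩ := (hrep.and (hrepY.and (hδt.and hCt))).exists
    have hmono : B * (hh (x t) : ℝ) ^ (1 / ((t : ℝ) + 1)) ≤ B * (hh (x t) : ℝ) ^ δ' :=
      mul_le_mul_of_nonneg_left (Real.rpow_le_rpow_of_exponent_le (hHpos t) h3) (by linarith)
    have h6 : Short2 b J1.card B δ' Pu (x t) (y t) := by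
      let eJ := (J1.equivFin).symm
      refine ⟨fun i => uq t (eJ i), fun i => m t (eJ i), fun i => m' t (eJ i),
        fun i => huqSU t _, fun i y => (hm t (eJ i) y).trans hmono,
        fun i y => (hm' t (eJ i) y).trans hmono, ?_, ?_⟩
      · intro y
        rw [h1 y, ← Finset.sum_coe_sort J1 (fun j => uq t j * (m t j y : ℚ)),
          ← Equiv.sum_comp eJ]
      · intro l' hl'
        rw [h2 l' hl', ← Finset.sum_coe_sort J1 (fun j => uq t j * (m' t j l' : ℚ)),
          ← Equiv.sum_comp eJ]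
    have h7 := hQQ (x t) (y t) (hprim t) (hy0 t) (hyu t) (hyeta t) (hxZ t) (hxE t) h6
    have h8 := hviol t
    linarith

/-- the statement for all numbers of terms -/
theorem all_QQY {s : ℕ} (b : Fin s → ℕ) (hb : ∀ v, (b v).Prime) (hbi : Function.Injective b)
    {n q ν : ℕ} (D : ℕ) (hD : 1 ≤ D) (d : Fin q → ℕ) (Z : Finset (Fin q)) (κ : ℝ) (hκ0 : 0 ≤ κ)
    (F : Fin q → MvPolynomial (Fin (n + 1)) ℚ) (hF : ∀ i, (F i).IsHomogeneous (d i))
    (ea eb : Fin q → Fin (ν + 1) → ℕ) (hab : ∀ i, i ∉ Z → d i + ∑ l', ea i l' = ∑ l', eb i l')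
    (Pu : Finset (Fin (ν + 1))) (A0 : ℝ) (hA0 : 0 ≤ A0)
    (B : ℝ) (hB : 1 ≤ B) (ε : ℝ) (hε : 0 < ε) (r : ℕ)
    (htype : ∀ r' ≤ r, TypeIneqY κ D Z F ea eb (r' + (ν + 1))) :
    QQY b hb κ Z F ea eb Pu A0 B ε r := by
  induction r using Nat.strong_induction_on with
  | _ r ih =>
    exact step_QQY b hb hbi D hD d Z κ hκ0 F hF ea eb hab Pu A0 hA0 B hB ε hε r (htype r le_rfl)
      fun r' hr' => ih r' hr' fun r'' hr'' => htype r'' (hr''.trans hr'.le)

end Pool.Agent.Q51.VY
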