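import Mathlib
import Pool.Agent.Q51.VX.Asm
import Pool.Agent.Q51.VY.Ind

set_option autoImplicit false
set_option maxHeartbeats 1000000

/-!
# The truncated inequality for the forms outside a hypersurface of the parameter space
-/

namespace Pool.Agent.Q51.VY

open MvPolynomial Filter Topology Pool.Agent.TH932.Germs Pool.Agent.TH551.SU
open Pool.Agent.TH551.SU.SUI Pool.Agent.Y724.Vj Pool.Agent.TH551.SU.CRV
open Pool.Agent.H533R3.SL Pool.Agent.Q51.HG Pool.Agent.Q51.VX
open Pool.Agent.TH182.VD (CI)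

variable {n q ν : ℕ}

/-- the inequality for weights, for the forms over the rational numbers outside a hypersurface -/
theorem typeIneqY_of (D : ℕ) (hD : 1 ≤ D) (d : Fin q → ℕ) (hdD : ∀ i, d i ≤ D)
    (Z : Finset (Fin q)) (hκ0 : 0 ≤ (∑ i, (d i : ℤ)) + Z.card - 2 * n)
    (ea eb : Fin q → Fin (ν + 1) → ℕ) (hab : ∀ i, i ∉ Z → d i + ∑ l', ea i l' = ∑ l', eb i l')
    (hebD : ∀ i, i ∉ Z → ∑ l', eb i l' ≤ D) (r : ℕ) :
    ∃ h : MvPolynomial (CI n d) ℤ, h ≠ 0 ∧ ∀ F : Fin q → MvPolynomial (Fin (n + 1)) ℚ,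
      (∀ i, (F i).IsHomogeneous (d i)) → sp d F h ≠ 0 → ∀ r' ≤ r,
      TypeIneqY (((∑ i, (d i : ℤ)) + Z.card - 2 * n : ℤ) : ℝ) D Z F ea eb (r' + (ν + 1)) := by
  classical
  choose H hH0 hH using fun r' : ℕ => typesY D hD d hdD Z hκ0 ea eb hab hebD (r' + (ν + 1))
  refine ⟨∏ r' ∈ Finset.range (r + 1), H r', Finset.prod_ne_zero_iff.2 fun r' _ => hH0 r', ?_⟩
  intro F hF hsp r' hr' c e l h1 h2 h7 h8 M β h3 h4 jj h5 B h6
  rw [map_prod, Finset.prod_ne_zero_iff] at hsp
  have hsp' := hsp r' (Finset.mem_range.2 (Nat.lt_succ_of_le hr'))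
  have hmap : ∀ i, aeval (cur c l) (map (algebraMap ℚ GG) (F i)) = aeval (cur c l) (F i) := by
    intro i
    rw [aeval_def, aeval_def, eval₂_map]
    congr 1
  refine hH r' GG (fun i => map (algebraMap ℚ GG) (F i)) (fun i => (hF i).map _) ?_ c e l
    (fun i hi => by rw [hmap, h1 i hi]) (fun i hi => by rw [hmap]; exact h2 i hi) h7 h8 M β h3 h4
    jj h5 B h6
  rw [sp_map]
  exact (map_ne_zero _).2 hsp'

/-- a bound for the values of a form -/
theorem abs_eval_le (G : MvPolynomial (Fin (n + 1)) ℤ) (d : ℕ) (hG : G.IsHomogeneous d) :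
    ∃ C : ℝ, 1 ≤ C ∧ ∀ x : Fin (n + 1) → ℤ, |((eval x G : ℤ) : ℝ)| ≤ C * (hh x : ℝ) ^ d := by
  classical
  refine ⟨∑ α ∈ G.support, |((coeff α G : ℤ) : ℝ)| + 1, ?_, fun x => ?_⟩
  · have : 0 ≤ ∑ α ∈ G.support, |((coeff α G : ℤ) : ℝ)| := Finset.sum_nonneg fun _ _ => abs_nonneg _
    linarith
  have h0 : (0 : ℝ) ≤ (hh x : ℝ) := Nat.cast_nonneg _
  rw [eval_eq']
  push_cast
  have h1 : |∑ α ∈ G.support, ((coeff α G : ℤ) : ℝ) * ∏ i, (x i : ℝ) ^ α i| ≤
      ∑ α ∈ G.support, |((coeff α G : ℤ) : ℝ)| * (hh x : ℝ) ^ d := by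
    refine (Finset.abs_sum_le_sum_abs _ _).trans (Finset.sum_le_sum fun α hα => ?_)
    rw [abs_mul]
    refine mul_le_mul_of_nonneg_left ?_ (abs_nonneg _)
    have h2 : ∑ i, α i = d := by
      have h3 := hG (mem_support_iff.1 hα)
      rw [Finsupp.weight_apply, Finsupp.sum_fintype _ _ (by simp)] at h3
      simpa using h3
    rw [Finset.abs_prod, ← h2, ← Finset.prod_pow_eq_pow_sum]
    refine Finset.prod_le_prod (fun i _ => abs_nonneg _) fun i _ => ?_
    rw [abs_pow]
    exact pow_le_pow_left₀ (abs_nonneg _) (le_hh x i) _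
  refine h1.trans ?_
  rw [← Finset.sum_mul]
  refine mul_le_mul_of_nonneg_right (by linarith) (by positivity)

/-- the size of the unit and of the prime-to-`S` part of an integer -/
theorem unit_size {s : ℕ} (b : Fin s → ℕ) (hb : ∀ v, (b v).Prime) (N : ℕ) (hN : 0 < N) (G : ℤ)
    (u : ℚ) (hu : IsSU b u) (P : ℤ) (hP0 : P ≠ 0) (hP : ∀ v, ¬ (b v : ℤ) ∣ P)
    (hG : (G : ℚ) = N * (u * P)) :
    eta u ≤ Real.log (|(G : ℝ)| * N) ∧ Real.log |(P : ℝ)| ≤ Real.log (|(G : ℝ)| * N) := by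
  classical
  have hu0 : u ≠ 0 := IsSU.ne_zero hb hu
  obtain ⟨k, hk⟩ := exists_den b hb (fun _ : Fin 1 => u) (fun _ => hu)
  obtain ⟨z, hz⟩ := hk 0
  have hN' : (∏ v, (b v : ℚ) ^ k v) = ((∏ v, b v ^ k v : ℕ) : ℚ) := by
    push_cast
    rfl
  have hM0 : (∏ v, b v ^ k v) ≠ 0 :=
    Finset.prod_ne_zero_iff.2 fun v _ => pow_ne_zero _ (hb v).ne_zero
  have hM0' : ((∏ v, b v ^ k v : ℕ) : ℚ) ≠ 0 := by exact_mod_cast hM0
  have h1 : u.den ∣ ∏ v, b v ^ k v := by
    have h2 := Rat.den_dvd z ((∏ v, b v ^ k v : ℕ) : ℤ)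
    have h3 : Rat.divInt z ((∏ v, b v ^ k v : ℕ) : ℤ) = u := by
      rw [Rat.divInt_eq_div]
      rw [Int.cast_natCast, hz, hN']
      field_simp
    rw [h3] at h2
    exact_mod_cast h2
  have hcop1 : Nat.Coprime u.den P.natAbs := by
    refine Nat.Coprime.coprime_dvd_left h1 ?_
    refine Nat.Coprime.prod_left fun v _ => Nat.Coprime.pow_left _ ?_
    refine (Nat.Prime.coprime_iff_not_dvd (hb v)).2 fun h => hP v (Int.natCast_dvd.2 h)
  have hint : G * (u.den : ℤ) = N * (u.num * P) := by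
    have h2 : (u.num : ℚ) = u * u.den := (Rat.mul_den_eq_num u).symm
    have h3 : ((G * (u.den : ℤ) : ℤ) : ℚ) = ((N * (u.num * P) : ℤ) : ℚ) := by
      push_cast
      rw [hG, h2]
      ring
    exact_mod_cast h3
  have hnat : G.natAbs * u.den = N * (u.num.natAbs * P.natAbs) := by
    have h2 := congrArg Int.natAbs hint
    rw [Int.natAbs_mul, Int.natAbs_mul, Int.natAbs_mul, Int.natAbs_natCast, Int.natAbs_natCast] at h2
    exact h2
  have hdN : u.den ∣ N := by
    have h2 : u.den ∣ N * (u.num.natAbs * P.natAbs) := ⟨G.natAbs, by rw [← hnat, mul_comm]⟩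
    have h3 : Nat.Coprime u.den (u.num.natAbs * P.natAbs) :=
      Nat.Coprime.mul_right (Nat.Coprime.symm u.reduced) hcop1
    exact h3.dvd_of_dvd_mul_right h2
  have hdN' : u.den ≤ N := Nat.le_of_dvd hN hdN
  have hnum0 : 0 < u.num.natAbs := Int.natAbs_pos.2 (Rat.num_ne_zero.2 hu0)
  have hP1 : 0 < P.natAbs := Int.natAbs_pos.2 hP0
  have hG0 : 0 < G.natAbs := by
    rcases Nat.eq_zero_or_pos G.natAbs with h | h
    · rw [h, zero_mul] at hnat
      have : 0 < N * (u.num.natAbs * P.natAbs) := by positivity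
      omega
    · exact h
  have hle : N * (u.num.natAbs * P.natAbs) ≤ G.natAbs * N := by
    rw [← hnat]
    exact Nat.mul_le_mul_left _ hdN'
  have e1 : u.num.natAbs ≤ G.natAbs * N := by
    refine le_trans ?_ hle
    calc u.num.natAbs = 1 * (u.num.natAbs * 1) := by ring
      _ ≤ N * (u.num.natAbs * P.natAbs) :=
        Nat.mul_le_mul hN (Nat.mul_le_mul_left _ hP1)
  have e2 : P.natAbs ≤ G.natAbs * N := by
    refine le_trans ?_ hle
    calc P.natAbs = 1 * (1 * P.natAbs) := by ring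
      _ ≤ N * (u.num.natAbs * P.natAbs) :=
        Nat.mul_le_mul hN (Nat.mul_le_mul_right _ hnum0)
  have e3 : u.den ≤ G.natAbs * N := hdN'.trans (Nat.le_mul_of_pos_left _ hG0)
  have hcast : ∀ a : ℤ, |(a : ℝ)| = (a.natAbs : ℝ) := fun a => by
    rw [Nat.cast_natAbs, Int.cast_abs]
  rw [hcast G, hcast P]
  constructor
  · unfold eta
    rw [hcast u.num]
    apply Real.log_le_log
    · exact lt_of_lt_of_le (by exact_mod_cast u.pos) (le_max_right _ _)
    · refine max_le ?_ ?_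
      · exact_mod_cast e1
      · exact_mod_cast e3
  · apply Real.log_le_log
    · exact_mod_cast hP1
    · exact_mod_cast e2

/-- `x` and `z` form a sum of `r` integer vectors of size at most `B * H(x) ^ δ` multiplied by
units -/
def Short3 {s n ν : ℕ} (b : Fin s → ℕ) (r : ℕ) (B δ : ℝ) (x : Fin (n + 1) → ℤ)
    (z : Fin ν → ℤ) : Prop :=
  ∃ (u : Fin r → ℚ) (m : Fin r → Fin (n + 1) → ℤ) (m' : Fin r → Fin ν → ℤ),
    (∀ j, IsSU b (u j)) ∧ (∀ j i, |(m j i : ℝ)| ≤ B * (hh x : ℝ) ^ δ) ∧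
    (∀ j l', |(m' j l' : ℝ)| ≤ B * (hh x : ℝ) ^ δ) ∧ (∀ i, (x i : ℚ) = ∑ j, u j * m j i) ∧
    ∀ l', (z l' : ℚ) = ∑ j, u j * m' j l'

/-- **The truncated inequality for the points of general pairs that are short sums.** -/
theorem pairsY (d : Fin q → ℕ) (Z : Finset (Fin q)) (ex : Fin q → Fin ν → ℕ)
    (hex : ∀ l, ∃ i, i ∉ Z ∧ ex i l ≠ 0) (hκ0 : 0 ≤ (∑ i, (d i : ℤ)) + Z.card - 2 * n) (r : ℕ) :
    ∃ h : MvPolynomial (CI n d) ℤ, h ≠ 0 ∧ ∀ F : Fin q → MvPolynomial (Fin (n + 1)) ℚ,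
      (∀ i, (F i).IsHomogeneous (d i)) → sp d F h ≠ 0 → ∀ (s : ℕ) (b : Fin s → ℕ)
      (_ : ∀ v, (b v).Prime), Function.Injective b → ∀ B ε : ℝ, 1 ≤ B → 0 < ε →
      ∃ δ C0 : ℝ, 0 < δ ∧ ∀ (x : Fin (n + 1) → ℤ) (u : Fin q → ℚ) (z : Fin ν → ℤ),
        Finset.univ.gcd x = 1 → (∀ i ∈ Z, eval (fun y => (x y : ℚ)) (F i) = 0) →
        (∀ i, i ∉ Z → IsSU b (u i)) →
        (∀ i, i ∉ Z → eval (fun y => (x y : ℚ)) (F i) = u i * ∏ l, (z l : ℚ) ^ ex i l) →
        (∀ l, z l ≠ 0) → (∀ l v, ¬ (b v : ℤ) ∣ z l) → Short3 b r B δ x z →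
        (((∑ i, (d i : ℤ)) + Z.card - 2 * n : ℤ) : ℝ) * Real.log (hh x) ≤
          ∑ l, Real.log |(z l : ℝ)| + (ε * Real.log (hh x) + C0) := by
  classical
  -- the exponents
  set E : Fin q → ℕ := fun i => 1 + ∑ l, ex i l with hE
  let ea : Fin q → Fin (q + ν + 1) → ℕ := fun i => Fin.cons (E i - d i) (fun _ => 0)
  let eb : Fin q → Fin (q + ν + 1) → ℕ := fun i =>
    Fin.cons (d i - E i) (Fin.append (fun i' => if i' = i then 1 else 0) (ex i))
  have hea : ∀ i, ∑ l', ea i l' = E i - d i := by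
    intro i
    simp only [ea]
    rw [Fin.sum_univ_succ]
    simp
  have heb : ∀ i, ∑ l', eb i l' = d i - E i + E i := by
    intro i
    simp only [eb]
    rw [Fin.sum_univ_succ, Fin.sum_univ_add]
    simp [hE]
  set D : ℕ := ∑ i, (d i + E i) + 1 with hD
  have hdE : ∀ i, d i + E i ≤ D := fun i =>
    (Finset.single_le_sum (f := fun i => d i + E i) (fun _ _ => Nat.zero_le _)
      (Finset.mem_univ i)).trans (Nat.le_succ _)
  obtain ⟨h, h0, hh1⟩ := typeIneqY_of (ν := q + ν) D (by omega) d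
    (fun i => (Nat.le_add_right _ _).trans (hdE i)) Z hκ0 ea eb
    (fun i _ => by rw [hea, heb]; omega) (fun i _ => by
      rw [heb]
      have := hdE i
      omega) r
  refine ⟨h, h0, fun F hF hsp s b hb hbi B ε hB hε => ?_⟩
  choose N G hN hG using fun i => exists_int (F i)
  have hN' : ∀ i, (N i : ℚ) ≠ 0 := fun i => by exact_mod_cast (hN i).ne'
  have hGh : ∀ i, (G i).IsHomogeneous (d i) := by
    intro i
    have h1 : (map (Int.castRingHom ℚ) (G i)).IsHomogeneous (d i) := by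
      rw [hG]
      simpa using (isHomogeneous_C (Fin (n + 1)) (N i : ℚ)).mul (hF i)
    intro α hα
    apply h1
    rw [coeff_map]
    simpa using hα
  have hGev : ∀ (x : Fin (n + 1) → ℤ) i, ((eval x (G i) : ℤ) : ℚ) =
      N i * eval (fun y => (x y : ℚ)) (F i) := by
    intro x i
    have h2 := congrArg (eval (fun y => (x y : ℚ))) (hG i)
    rw [map_mul, eval_C] at h2
    rw [← h2, eval_map]
    exact (evi_cast x (G i)).symm
  choose CG hCG1 hCG using fun i => abs_eval_le (G i) (d i) (hGh i)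
  -- the constant of the heights
  obtain ⟨A0, hA0, hA0'⟩ : ∃ A0 : ℝ, 0 ≤ A0 ∧ ∀ i, Real.log (CG i * N i) ≤ A0 ∧ (d i : ℝ) ≤ A0 := by
    have hl0 : ∀ i, 0 ≤ Real.log (CG i * N i) := fun i => by
      apply Real.log_nonneg
      have h1 : (1 : ℝ) ≤ N i := by exact_mod_cast hN i
      nlinarith [hCG1 i]
    refine ⟨∑ i, (Real.log (CG i * N i) + d i), Finset.sum_nonneg fun i _ =>
      add_nonneg (hl0 i) (Nat.cast_nonneg _), fun i => ?_⟩
    have h1 := Finset.single_le_sum (f := fun i => Real.log (CG i * N i) + (d i : ℝ))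
      (fun i _ => add_nonneg (hl0 i) (Nat.cast_nonneg _)) (Finset.mem_univ i)
    have h2 := hl0 i
    have h3 : (0 : ℝ) ≤ d i := Nat.cast_nonneg _
    constructor <;> linarith
  let Pu : Finset (Fin (q + ν + 1)) :=
    Finset.univ.filter fun l' => ∀ l : Fin ν, l' ≠ Fin.succ (Fin.natAdd q l)
  obtain ⟨δ, C0, hδ, hQQ⟩ := all_QQY b hb hbi D (by omega) d Z
    (((∑ i, (d i : ℤ)) + Z.card - 2 * n : ℤ) : ℝ) (by exact_mod_cast hκ0) F hF ea eb
    (fun i _ => by rw [hea, heb]; omega) Pu A0 hA0 B hB ε hε r (hh1 F hF hsp)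
  refine ⟨δ, C0, hδ, fun x u z hprim hxZ hu hxF hz0 hzS hsh => ?_⟩
  have hH1 : (1 : ℝ) ≤ (hh x : ℝ) := by exact_mod_cast hh_pos x hprim
  have hH0 : (0 : ℝ) < (hh x : ℝ) := by linarith
  let u' : Fin q → ℚ := fun i => if i ∈ Z then 1 else u i
  have hu' : ∀ i, IsSU b (u' i) := by
    intro i
    simp only [u']
    split_ifs with hi
    · exact IsSU.one
    · exact hu i hi
  let y : Fin (q + ν + 1) → ℚ := Fin.cons 1 (Fin.append u' fun l => (z l : ℚ))
  have hyz : ∀ l : Fin ν, y (Fin.succ (Fin.natAdd q l)) = z l := fun l => by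
    simp only [y, Fin.cons_succ, Fin.append_right]
  have hyuu : ∀ i : Fin q, y (Fin.succ (Fin.castAdd ν i)) = u' i := fun l => by
    simp only [y, Fin.cons_succ, Fin.append_left]
  have hy1 : y 0 = 1 := rfl
  have hcases : ∀ {p : Fin (q + ν + 1) → Prop}, p 0 → (∀ i : Fin q, p (Fin.succ (Fin.castAdd ν i))) →
      (∀ l : Fin ν, p (Fin.succ (Fin.natAdd q l))) → ∀ l', p l' := by
    intro p h1 h2 h3 l'
    refine Fin.cases h1 (fun j => ?_) l'
    exact Fin.addCases (fun i => h2 i) (fun l => h3 l) j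
  -- the sizes
  have hPz : ∀ i, i ∉ Z → eta (u i) ≤ A0 * (Real.log (hh x) + 1) ∧
      ∀ l, ex i l ≠ 0 → Real.log |(z l : ℝ)| ≤ A0 * (Real.log (hh x) + 1) := by
    intro i hi
    have hP0 : (∏ l, z l ^ ex i l) ≠ 0 := Finset.prod_ne_zero_iff.2 fun l _ => pow_ne_zero _ (hz0 l)
    have hP : ∀ v, ¬ (b v : ℤ) ∣ ∏ l, z l ^ ex i l := by
      intro v hv
      have hpr : Prime (b v : ℤ) := Nat.prime_iff_prime_int.1 (hb v)
      obtain ⟨l, -, hl⟩ := (hpr.dvd_finsetProd_iff _).1 hv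
      exact hzS l v (hpr.dvd_of_dvd_pow hl)
    obtain ⟨h1, h2⟩ := unit_size b hb (N i) (hN i) (eval x (G i)) (u i) (hu i hi)
      (∏ l, z l ^ ex i l) hP0 hP (by
        rw [hGev, hxF i hi]
        push_cast
        ring)
    have hGne : eval x (G i) ≠ 0 := by
      intro h3
      have h4 := hGev x i
      rw [h3, Int.cast_zero, hxF i hi] at h4
      have h5 : (∏ l, (z l : ℚ) ^ ex i l) ≠ 0 := by exact_mod_cast hP0
      exact mul_ne_zero (hN' i) (mul_ne_zero (IsSU.ne_zero hb (hu i hi)) h5) h4.symm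
    have hG1 : (1 : ℝ) ≤ |((eval x (G i) : ℤ) : ℝ)| := by exact_mod_cast Int.one_le_abs hGne
    have hNi : (1 : ℝ) ≤ N i := by exact_mod_cast hN i
    have h3 : Real.log (|((eval x (G i) : ℤ) : ℝ)| * N i) ≤ A0 * (Real.log (hh x) + 1) := by
      have h4 : |((eval x (G i) : ℤ) : ℝ)| * N i ≤ (CG i * N i) * (hh x : ℝ) ^ d i := by
        have := mul_le_mul_of_nonneg_right (hCG i x) (Nat.cast_nonneg (N i) : (0 : ℝ) ≤ N i)
        linarith
      have h5 := Real.log_le_log (by positivity) h4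
      have h6 : CG i * (N i : ℝ) ≠ 0 := by
        have := hCG1 i
        positivity
      rw [Real.log_mul h6 (by positivity), Real.log_pow] at h5
      obtain ⟨h7, h8⟩ := hA0' i
      have h9 : 0 ≤ Real.log (hh x) := Real.log_nonneg hH1
      have h10 := mul_le_mul_of_nonneg_right h8 h9
      linarith
    refine ⟨h1.trans h3, fun l hl => ?_⟩
    refine le_trans ?_ (h2.trans h3)
    apply Real.log_le_log (abs_pos.2 (by exact_mod_cast hz0 l))
    have h4 : z l ∣ ∏ l, z l ^ ex i l :=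
      (dvd_pow_self _ hl).trans (Finset.dvd_prod_of_mem (fun l => z l ^ ex i l) (Finset.mem_univ l))
    exact abs_le_of_dvd h4 hP0
  have hlog0 : 0 ≤ A0 * (Real.log (hh x) + 1) :=
    mul_nonneg hA0 (by have := Real.log_nonneg hH1; linarith)
  have heta1 : eta (1 : ℚ) = 0 := by
    unfold eta
    simp
  have hetay : ∀ l', eta (y l') ≤ A0 * (Real.log (hh x) + 1) := by
    refine hcases ?_ (fun i => ?_) (fun l => ?_)
    · rw [hy1, heta1]
      exact hlog0
    · rw [hyuu]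
      simp only [u']
      split_ifs with hi
      · rw [heta1]
        exact hlog0
      · exact (hPz i hi).1
    · rw [hyz]
      obtain ⟨i, hi, hil⟩ := hex l
      refine le_trans (le_of_eq ?_) ((hPz i hi).2 l hil)
      unfold eta
      rw [Rat.num_intCast, Rat.den_intCast, Nat.cast_one, max_eq_left]
      exact_mod_cast Int.one_le_abs (hz0 l)
  obtain ⟨uu, m, m', hs1, hs2, hs3, hs4, hs5⟩ := hsh
  have hBH : (0 : ℝ) ≤ B * (hh x : ℝ) ^ δ := by positivity
  have key := hQQ x y hprim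
    (hcases (by rw [hy1]; exact one_ne_zero) (fun i => by rw [hyuu]; exact IsSU.ne_zero hb (hu' i))
      (fun l => by rw [hyz]; exact_mod_cast hz0 l)) (by
      intro l'
      refine hcases (p := fun l' => l' ∈ Pu → IsSU b (y l')) (fun _ => ?_) (fun i _ => ?_)
        (fun l hl => ?_) l'
      · rw [hy1]
        exact IsSU.one
      · rw [hyuu]
        exact hu' i
      · exact absurd rfl ((Finset.mem_filter.1 hl).2 l)) hetay (by
      intro i hi
      exact hxZ i hi) (by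
      intro i hi
      have e1 : ∏ l', y l' ^ ea i l' = 1 := by
        rw [Fin.prod_univ_succ]
        simp [ea, y]
      have e2 : ∏ l', y l' ^ eb i l' = u i * ∏ l, (z l : ℚ) ^ ex i l := by
        rw [Fin.prod_univ_succ, Fin.prod_univ_add]
        simp only [eb, y, Fin.cons_zero, Fin.cons_succ, Fin.append_left, Fin.append_right, one_pow,
          one_mul]
        congr 1
        rw [Finset.prod_eq_single i]
        · simp [u', hi]
        · intro i' _ hne
          rw [if_neg hne, pow_zero]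
        · intro h
          exact absurd (Finset.mem_univ _) h
      rw [e1, e2, mul_one]
      exact hxF i hi)
    ⟨uu, m, fun j => Fin.cons 0 (Fin.append (fun _ => 0) (m' j)), hs1, hs2, by
      intro j
      refine hcases ?_ (fun i => ?_) (fun l => ?_)
      · simpa using hBH
      · simpa using hBH
      · simp only [Fin.cons_succ, Fin.append_right]
        exact hs3 j l, hs4, by
      intro l'
      refine hcases (p := fun l' => l' ∉ Pu → y l' = ∑ j, uu j *
        ((Fin.cons 0 (Fin.append (fun _ => 0) (m' j)) : Fin (q + ν + 1) → ℤ) l' : ℤ))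
        (fun h => ?_) (fun i h => ?_) (fun l _ => ?_) l'
      · exfalso
        apply h
        simp only [Pu, Finset.mem_filter, Finset.mem_univ, true_and]
        exact fun l => (Fin.succ_ne_zero _).symm
      · exfalso
        apply h
        simp only [Pu, Finset.mem_filter, Finset.mem_univ, true_and]
        intro l hl
        have h1 := congrArg Fin.val (Fin.succ_injective _ hl)
        simp only [Fin.val_castAdd, Fin.val_natAdd] at h1
        have := i.2
        omega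
      · rw [hyz]
        simp only [Fin.cons_succ, Fin.append_right]
        exact hs5 l⟩
  refine key.trans (add_le_add (le_of_eq ?_) le_rfl)
  rw [Fin.sum_univ_succ, Fin.sum_univ_add]
  simp only [hyz, hyuu, hy1]
  have e1 : ∑ v, Real.log (wv b hb v (1 : ℚ)) = 0 :=
    Finset.sum_eq_zero fun v _ => by rw [map_one, Real.log_one]
  have e2 : ∀ i, ∑ v, Real.log (wv b hb v (u' i)) = 0 := by
    intro i
    have h3 := prod_formula b hb hbi (hu' i)
    rwa [Finset.sum_neg_distrib, neg_eq_zero] at h3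
  have e3 : ∀ l, ∑ v, Real.log (wv b hb v (z l : ℚ)) = Real.log |(z l : ℝ)| := by
    intro l
    rw [Fintype.sum_option, wv_none]
    have h1 : ∀ v : Fin s, Real.log (wv b hb (some v) (z l : ℚ)) = 0 := by
      intro v
      have hpr := Fact.mk (hb v)
      rw [wv_some, (padicNorm.int_eq_one_iff _).2 (hzS l v)]
      simp
    rw [Finset.sum_congr rfl fun v _ => h1 v, Finset.sum_const_zero, add_zero]
    simp
  rw [e1, Finset.sum_congr rfl fun i _ => e2 i, Finset.sum_const_zero,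
    Finset.sum_congr rfl fun l _ => e3 l]
  ring

end Pool.Agent.Q51.VY
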