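import Mathlib
import Pool.Agent.Q51.VY.Asm

set_option autoImplicit false
set_option maxHeartbeats 1000000

/-!
# The inequality for orbifold multiplicities
-/

namespace Pool.Agent.Q51.VY

open MvPolynomial Pool.Agent.TH551.SU
open Pool.Agent.TH551.SU.SUI Pool.Agent.Y724.Vj Pool.Agent.TH551.SU.CRV
open Pool.Agent.H533R3.SL Pool.Agent.Q51.HG Pool.Agent.Q51.VX
open Pool.Agent.TH182.VD (CI)

variable {n q ν : ℕ}

/-- the size of the prime-to-`S` part of a value -/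
theorem log_prod_le (F : MvPolynomial (Fin (n + 1)) ℚ) (d : ℕ) (hF : F.IsHomogeneous d) :
    ∃ K : ℝ, 0 ≤ K ∧ ∀ (s : ℕ) (b : Fin s → ℕ), (∀ v, (b v).Prime) →
      ∀ (x : Fin (n + 1) → ℤ) (u : ℚ) (P : ℤ), Finset.univ.gcd x = 1 → IsSU b u → P ≠ 0 →
      (∀ v, ¬ (b v : ℤ) ∣ P) → eval (fun y => (x y : ℚ)) F = u * P →
      Real.log |(P : ℝ)| ≤ d * Real.log (hh x) + K := by
  classical
  obtain ⟨N, G, hN, hG⟩ := exists_int F
  have hN' : (N : ℚ) ≠ 0 := by exact_mod_cast hN.ne'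
  have hGh : G.IsHomogeneous d := by
    have h1 : (map (Int.castRingHom ℚ) G).IsHomogeneous d := by
      rw [hG]
      simpa using (isHomogeneous_C (Fin (n + 1)) (N : ℚ)).mul hF
    intro α hα
    apply h1
    rw [coeff_map]
    simpa using hα
  obtain ⟨CG, hCG1, hCG⟩ := abs_eval_le G d hGh
  have hNi : (1 : ℝ) ≤ N := by exact_mod_cast hN
  refine ⟨Real.log (CG * N), Real.log_nonneg (by nlinarith), ?_⟩
  intro s b hb x u P hprim hu hP0 hPS hxF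
  have hH1 : (1 : ℝ) ≤ (hh x : ℝ) := by exact_mod_cast hh_pos x hprim
  have hGev : ((eval x G : ℤ) : ℚ) = N * eval (fun y => (x y : ℚ)) F := by
    have h2 := congrArg (eval (fun y => (x y : ℚ))) hG
    rw [map_mul, eval_C] at h2
    rw [← h2, eval_map]
    exact (evi_cast x G).symm
  obtain ⟨-, h2⟩ := unit_size b hb N hN (eval x G) u hu P hP0 hPS (by rw [hGev, hxF])
  refine h2.trans ?_
  have hGne : eval x G ≠ 0 := by
    intro h3
    rw [h3, Int.cast_zero, hxF] at hGev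
    have h5 : (P : ℚ) ≠ 0 := by exact_mod_cast hP0
    exact mul_ne_zero hN' (mul_ne_zero (IsSU.ne_zero hb hu) h5) hGev.symm
  have hG1 : (1 : ℝ) ≤ |((eval x G : ℤ) : ℝ)| := by exact_mod_cast Int.one_le_abs hGne
  have h4 : |((eval x G : ℤ) : ℝ)| * N ≤ (CG * N) * (hh x : ℝ) ^ d := by
    have := mul_le_mul_of_nonneg_right (hCG x) (Nat.cast_nonneg N : (0 : ℝ) ≤ N)
    linarith
  have h5 := Real.log_le_log (by positivity) h4
  have h6 : Real.log ((CG * N) * (hh x : ℝ) ^ d) = Real.log (CG * N) + d * Real.log (hh x) := by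
    rw [Real.log_mul (by positivity) (by positivity), Real.log_pow]
  rw [h6] at h5
  linarith

/-- **The inequality for the orbifold points of general pairs that are short sums.** -/
theorem pairsYC (d : Fin q → ℕ) (Z : Finset (Fin q)) (ex : Fin q → Fin ν → ℕ)
    (hex : ∀ l, ∃ i, i ∉ Z ∧ ex i l ≠ 0) (I0 : Finset (Fin q)) (m : Fin q → ℕ)
    (hm : ∀ i ∈ I0, i ∉ Z → ∀ l, ex i l ≠ 0 → 1 ≤ m i ∧ m i ≤ ex i l) (r : ℕ) :
    ∃ h : MvPolynomial (CI n d) ℤ, h ≠ 0 ∧ ∀ F : Fin q → MvPolynomial (Fin (n + 1)) ℚ,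
      (∀ i, (F i).IsHomogeneous (d i)) → sp d F h ≠ 0 → ∀ (s : ℕ) (b : Fin s → ℕ)
      (_ : ∀ v, (b v).Prime), Function.Injective b → ∀ B ε : ℝ, 1 ≤ B → 0 < ε →
      ∃ δ C0 : ℝ, 0 < δ ∧ ∀ (x : Fin (n + 1) → ℤ) (u : Fin q → ℚ) (z : Fin ν → ℤ),
        Finset.univ.gcd x = 1 → (∀ i ∈ Z, eval (fun y => (x y : ℚ)) (F i) = 0) →
        (∀ i, i ∉ Z → IsSU b (u i)) →
        (∀ i, i ∉ Z → eval (fun y => (x y : ℚ)) (F i) = u i * ∏ l, (z l : ℚ) ^ ex i l) →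
        (∀ l, z l ≠ 0) → (∀ l v, ¬ (b v : ℤ) ∣ z l) → Short3 b r B δ x z →
        (∑ c ∈ Z, ((d c : ℝ) + 1) + ∑ i ∈ Finset.univ \ Z,
            (d i : ℝ) * (1 - if i ∈ I0 then 1 / (m i : ℝ) else 0) - 2 * n) * Real.log (hh x) ≤
          ∑ l with ∃ i, i ∉ Z ∧ i ∉ I0 ∧ ex i l ≠ 0, Real.log |(z l : ℝ)| +
            (ε * Real.log (hh x) + C0) := by
  classical
  have hsplit : (((∑ i, (d i : ℤ)) + Z.card - 2 * n : ℤ) : ℝ) =
      ∑ c ∈ Z, ((d c : ℝ) + 1) + ∑ i ∈ Finset.univ \ Z, (d i : ℝ) - 2 * n := by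
    push_cast
    rw [Finset.sum_add_distrib, Finset.sum_const, nsmul_eq_mul, mul_one,
      ← Finset.sum_sdiff (Finset.subset_univ Z)]
    ring
  have hcoef : ∑ i ∈ Finset.univ \ Z, (d i : ℝ) * (1 - if i ∈ I0 then 1 / (m i : ℝ) else 0) =
      ∑ i ∈ Finset.univ \ Z, (d i : ℝ) -
        ∑ i ∈ (Finset.univ \ Z).filter (· ∈ I0), (d i : ℝ) * (1 / (m i : ℝ)) := by
    rw [Finset.sum_filter, ← Finset.sum_sub_distrib]
    refine Finset.sum_congr rfl fun i _ => ?_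
    split_ifs <;> ring
  have hcoef0 : 0 ≤ ∑ i ∈ (Finset.univ \ Z).filter (· ∈ I0), (d i : ℝ) * (1 / (m i : ℝ)) :=
    Finset.sum_nonneg fun i _ => by positivity
  have hz1 : ∀ (z : Fin ν → ℤ), (∀ l, z l ≠ 0) → ∀ l, 0 ≤ Real.log |(z l : ℝ)| := fun z hz l =>
    Real.log_nonneg (by exact_mod_cast Int.one_le_abs (hz l))
  by_cases hκ0 : 0 ≤ (∑ i, (d i : ℤ)) + Z.card - 2 * n
  swap
  · -- the trivial case
    refine ⟨1, one_ne_zero, fun F hF _ s b hb hbi B ε hB hε => ⟨1, 0, one_pos, ?_⟩⟩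
    intro x u z hprim _ _ _ hz0 _ _
    push Not at hκ0
    have h1 : (((∑ i, (d i : ℤ)) + Z.card - 2 * n : ℤ) : ℝ) ≤ 0 := by exact_mod_cast hκ0.le
    have h2 : 0 ≤ Real.log (hh x) := Real.log_nonneg (by exact_mod_cast hh_pos x hprim)
    have h3 : 0 ≤ ∑ l with ∃ i, i ∉ Z ∧ i ∉ I0 ∧ ex i l ≠ 0, Real.log |(z l : ℝ)| :=
      Finset.sum_nonneg fun l _ => hz1 z hz0 l
    rw [hsplit] at h1
    rw [hcoef]
    have h4 : (∑ c ∈ Z, ((d c : ℝ) + 1) + (∑ i ∈ Finset.univ \ Z, (d i : ℝ) -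
        ∑ i ∈ (Finset.univ \ Z).filter (· ∈ I0), (d i : ℝ) * (1 / (m i : ℝ))) - 2 * n) *
        Real.log (hh x) ≤ 0 := mul_nonpos_of_nonpos_of_nonneg (by linarith) h2
    have h5 : 0 ≤ ε * Real.log (hh x) := by positivity
    linarith
  obtain ⟨h, h0, hh1⟩ := pairsY d Z ex hex hκ0 r
  refine ⟨h, h0, fun F hF hsp s b hb hbi B ε hB hε => ?_⟩
  obtain ⟨δ, C0, hδ, hmain⟩ := hh1 F hF hsp s b hb hbi B ε hB hε
  choose K hK0 hK using fun i => log_prod_le (F i) (d i) (hF i)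
  refine ⟨δ, C0 + ∑ i ∈ (Finset.univ \ Z).filter (· ∈ I0), K i * (1 / (m i : ℝ)), hδ, ?_⟩
  intro x u z hprim hxZ hu hxF hz0 hzS hsh
  have key := hmain x u z hprim hxZ hu hxF hz0 hzS hsh
  have hlog : 0 ≤ Real.log (hh x) := Real.log_nonneg (by exact_mod_cast hh_pos x hprim)
  -- the factors of the orbifold divisors
  have hi : ∀ i ∈ (Finset.univ \ Z).filter (· ∈ I0),
      ∑ l with ex i l ≠ 0, Real.log |(z l : ℝ)| ≤
        (d i : ℝ) * (1 / (m i : ℝ)) * Real.log (hh x) + K i * (1 / (m i : ℝ)) := by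
    intro i hi
    obtain ⟨hiZ, hiI⟩ := Finset.mem_filter.1 hi
    have hiZ' := (Finset.mem_sdiff.1 hiZ).2
    have hP0 : (∏ l, z l ^ ex i l) ≠ 0 := Finset.prod_ne_zero_iff.2 fun l _ => pow_ne_zero _ (hz0 l)
    have hP : ∀ v, ¬ (b v : ℤ) ∣ ∏ l, z l ^ ex i l := by
      intro v hv
      have hpr : Prime (b v : ℤ) := Nat.prime_iff_prime_int.1 (hb v)
      obtain ⟨l, -, hl⟩ := (hpr.dvd_finsetProd_iff _).1 hv
      exact hzS l v (hpr.dvd_of_dvd_pow hl)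
    have h1 := hK i s b hb x (u i) (∏ l, z l ^ ex i l) hprim (hu i hiZ') hP0 hP (by
      rw [hxF i hiZ']
      push_cast
      rfl)
    have h2 : Real.log |((∏ l, z l ^ ex i l : ℤ) : ℝ)| = ∑ l, (ex i l : ℝ) * Real.log |(z l : ℝ)| := by
      push_cast
      rw [Finset.abs_prod, Real.log_prod]
      · exact Finset.sum_congr rfl fun l _ => by rw [abs_pow, Real.log_pow]
      · intro l _
        rw [abs_pow]
        have : |(z l : ℝ)| ≠ 0 := abs_ne_zero.2 (by exact_mod_cast hz0 l)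
        exact pow_ne_zero _ this
    rw [h2] at h1
    by_cases hne : ∃ l, ex i l ≠ 0
    · obtain ⟨l0, hl0⟩ := hne
      have hm0 : (0 : ℝ) < m i := by
        exact_mod_cast (hm i hiI hiZ' l0 hl0).1
      have h3 : (m i : ℝ) * ∑ l with ex i l ≠ 0, Real.log |(z l : ℝ)| ≤
          ∑ l, (ex i l : ℝ) * Real.log |(z l : ℝ)| := by
        rw [Finset.mul_sum, Finset.sum_filter]
        refine Finset.sum_le_sum fun l _ => ?_
        split_ifs with hl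
        · refine mul_le_mul_of_nonneg_right ?_ (hz1 z hz0 l)
          exact_mod_cast (hm i hiI hiZ' l hl).2
        · exact mul_nonneg (Nat.cast_nonneg _) (hz1 z hz0 l)
      have h4 := h3.trans h1
      rw [mul_comm, ← le_div_iff₀ hm0] at h4
      refine h4.trans (le_of_eq ?_)
      ring
    · push Not at hne
      have h3 : ∑ l with ex i l ≠ 0, Real.log |(z l : ℝ)| = 0 := by
        rw [Finset.sum_filter]
        exact Finset.sum_eq_zero fun l _ => if_neg (by simpa using hne l)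
      rw [h3]
      have := hK0 i
      positivity
  have hsum : ∑ l, Real.log |(z l : ℝ)| ≤
      ∑ l with ∃ i, i ∉ Z ∧ i ∉ I0 ∧ ex i l ≠ 0, Real.log |(z l : ℝ)| +
        ∑ i ∈ (Finset.univ \ Z).filter (· ∈ I0), ∑ l with ex i l ≠ 0, Real.log |(z l : ℝ)| := by
    rw [← Finset.sum_filter_add_sum_filter_not Finset.univ
      (fun l => ∃ i, i ∉ Z ∧ i ∉ I0 ∧ ex i l ≠ 0)]
    refine add_le_add le_rfl ?_
    rw [Finset.sum_sigma']
    choose f hf1 hf2 using hex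
    have hfI : ∀ l ∈ Finset.univ.filter (fun l => ¬ ∃ i, i ∉ Z ∧ i ∉ I0 ∧ ex i l ≠ 0),
        f l ∈ I0 := by
      intro l hl
      by_contra hno
      exact (Finset.mem_filter.1 hl).2 ⟨f l, hf1 l, hno, hf2 l⟩
    rw [← Finset.sum_image (f := fun p : (_ : Fin q) × Fin ν => Real.log |(z p.2 : ℝ)|)
      (g := fun l => (⟨f l, l⟩ : (_ : Fin q) × Fin ν))
      (s := Finset.univ.filter (fun l => ¬ ∃ i, i ∉ Z ∧ i ∉ I0 ∧ ex i l ≠ 0)) (by
        intro l _ l' _ h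
        have := congrArg (fun p : (_ : Fin q) × Fin ν => p.2) h
        exact this)]
    refine Finset.sum_le_sum_of_subset_of_nonneg ?_ fun p _ _ => hz1 z hz0 _
    intro p hp
    obtain ⟨l, hl, rfl⟩ := Finset.mem_image.1 hp
    rw [Finset.mem_sigma]
    refine ⟨?_, ?_⟩
    · rw [Finset.mem_filter, Finset.mem_sdiff]
      exact ⟨⟨Finset.mem_univ _, hf1 l⟩, hfI l hl⟩
    · rw [Finset.mem_filter]
      exact ⟨Finset.mem_univ _, hf2 l⟩
  have h1 := Finset.sum_le_sum hi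
  rw [Finset.sum_add_distrib, ← Finset.sum_mul] at h1
  rw [hcoef]
  rw [hsplit] at key
  have h2 : (∑ c ∈ Z, ((d c : ℝ) + 1) + (∑ i ∈ Finset.univ \ Z, (d i : ℝ) -
      ∑ i ∈ (Finset.univ \ Z).filter (· ∈ I0), (d i : ℝ) * (1 / (m i : ℝ))) - 2 * n) *
      Real.log (hh x) = (∑ c ∈ Z, ((d c : ℝ) + 1) + ∑ i ∈ Finset.univ \ Z, (d i : ℝ) - 2 * n) *
      Real.log (hh x) - (∑ i ∈ (Finset.univ \ Z).filter (· ∈ I0),
        (d i : ℝ) * (1 / (m i : ℝ))) * Real.log (hh x) := by ring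
  rw [h2]
  linarith

end Pool.Agent.Q51.VY
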