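import Mathlib

set_option autoImplicit false

/-!
# The truncated counting function of a factorisation
-/

namespace Pool.Agent.Q51.VY

/-- `S`-units, for a set of primes -/
def SU (S : Finset ℕ) (u : ℚ) : Prop :=
  ∃ (σ : ℤ) (e : ℕ → ℤ), (σ = 1 ∨ σ = -1) ∧ u = σ * ∏ p ∈ S, (p : ℚ) ^ e p

theorem padic_unit (S : Finset ℕ) (hS : ∀ p ∈ S, p.Prime) (p : ℕ) [Fact p.Prime] (hp : p ∉ S)
    (u : ℚ) (hu : SU S u) : Rat.AbsoluteValue.padic p u = 1 := by
  obtain ⟨σ, e, hσ, rfl⟩ := hu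
  rw [map_mul, map_prod]
  have h1 : Rat.AbsoluteValue.padic p (σ : ℚ) = 1 := by
    rcases hσ with rfl | rfl
    · rw [Int.cast_one, map_one]
    · rw [Int.cast_neg, Int.cast_one, AbsoluteValue.map_neg, map_one]
  rw [h1, one_mul]
  refine Finset.prod_eq_one fun p' hp' => ?_
  rw [map_zpow₀]
  have h2 : Rat.AbsoluteValue.padic p (p' : ℚ) = 1 := by
    rw [Rat.AbsoluteValue.padic_eq_padicNorm]
    have h3 : padicNorm p ((p' : ℤ) : ℚ) = 1 := by
      rw [padicNorm.int_eq_one_iff]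
      intro h
      have h4 : p ∣ p' := by exact_mod_cast h
      have h5 := (Nat.prime_dvd_prime_iff_eq (Fact.out : p.Prime) (hS p' hp')).1 h4
      exact hp (h5 ▸ hp')
    rw [Int.cast_natCast] at h3
    rw [h3]
    simp
  rw [h2, one_zpow]

theorem num_dvd_iff {ν : ℕ} (S : Finset ℕ) (hS : ∀ p ∈ S, p.Prime) (p : ℕ) (hpp : p.Prime)
    (hp : p ∉ S) (f u : ℚ) (hu : SU S u) (e : Fin ν → ℕ) (z : Fin ν → ℤ)
    (hf : f = u * ∏ l, (z l : ℚ) ^ e l) :
    p ∣ f.num.natAbs ↔ ∃ l, e l ≠ 0 ∧ (p : ℤ) ∣ z l := by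
  have hfact := Fact.mk hpp
  have hprime : Prime (p : ℤ) := Nat.prime_iff_prime_int.1 hpp
  have hw : Rat.AbsoluteValue.padic p f = (padicNorm p ((∏ l, z l ^ e l : ℤ) : ℚ) : ℝ) := by
    rw [hf, map_mul, padic_unit S hS p hp u hu, one_mul, Rat.AbsoluteValue.padic_eq_padicNorm]
    push_cast
    rfl
  have h1 : (Rat.AbsoluteValue.padic p f < 1) ↔ ∃ l, e l ≠ 0 ∧ (p : ℤ) ∣ z l := by
    rw [hw]
    have h2 : ((padicNorm p ((∏ l, z l ^ e l : ℤ) : ℚ) : ℚ) : ℝ) < 1 ↔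
        padicNorm p ((∏ l, z l ^ e l : ℤ) : ℚ) < 1 := by
      rw [← Rat.cast_one, Rat.cast_lt]
    rw [h2, padicNorm.int_lt_one_iff, hprime.dvd_finsetProd_iff]
    constructor
    · rintro ⟨l, -, hl⟩
      refine ⟨l, ?_, hprime.dvd_of_dvd_pow hl⟩
      intro h0
      rw [h0, pow_zero] at hl
      exact hprime.not_dvd_one hl
    · rintro ⟨l, h0, hl⟩
      exact ⟨l, Finset.mem_univ _, hl.trans (dvd_pow_self _ h0)⟩
  rw [← h1]
  have hnum : Rat.AbsoluteValue.padic p (f.num : ℚ) =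
      Rat.AbsoluteValue.padic p f * Rat.AbsoluteValue.padic p ((f.den : ℤ) : ℚ) := by
    rw [← map_mul]
    congr 1
    have := Rat.mul_den_eq_num f
    push_cast
    exact this.symm
  have hint : ∀ a : ℤ, (Rat.AbsoluteValue.padic p (a : ℚ) < 1) ↔ (p : ℤ) ∣ a := by
    intro a
    rw [Rat.AbsoluteValue.padic_eq_padicNorm, ← Rat.cast_one, Rat.cast_lt,
      padicNorm.int_lt_one_iff]
  have hint1 : ∀ a : ℤ, ¬ (p : ℤ) ∣ a → Rat.AbsoluteValue.padic p (a : ℚ) = 1 := by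
    intro a ha
    rw [Rat.AbsoluteValue.padic_eq_padicNorm, (padicNorm.int_eq_one_iff _).2 ha]
    simp
  have hint2 : ∀ a : ℤ, Rat.AbsoluteValue.padic p (a : ℚ) ≤ 1 := by
    intro a
    rw [Rat.AbsoluteValue.padic_eq_padicNorm]
    exact_mod_cast padicNorm.of_int a
  rw [← Int.natCast_dvd]
  constructor
  · intro h
    have h2 : ¬ (p : ℤ) ∣ (f.den : ℤ) := by
      intro h3
      have h4 : p ∣ f.num.natAbs := Int.natCast_dvd.1 h
      have h5 : p ∣ f.den := by exact_mod_cast h3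
      have h6 := Nat.dvd_gcd h4 h5
      rw [f.reduced] at h6
      exact hpp.one_lt.ne' (Nat.dvd_one.1 h6)
    have h3 := (hint _).2 h
    rw [hnum, hint1 _ h2, mul_one] at h3
    exact h3
  · intro h
    rw [← hint, hnum]
    calc Rat.AbsoluteValue.padic p f * Rat.AbsoluteValue.padic p ((f.den : ℤ) : ℚ) ≤
        Rat.AbsoluteValue.padic p f * 1 :=
          mul_le_mul_of_nonneg_left (hint2 _) (AbsoluteValue.nonneg _ _)
      _ < 1 := by rw [mul_one]; exact h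

/-- **The truncated counting function** is the sum of the logarithms of the factors, if they are
squarefree and pairwise coprime. -/
theorem trunc_eq {q ν : ℕ} (S : Finset ℕ) (hS : ∀ p ∈ S, p.Prime) (T : Finset (Fin q))
    (f u : Fin q → ℚ) (e : Fin q → Fin ν → ℕ) (z : Fin ν → ℤ) (hz0 : ∀ l, z l ≠ 0)
    (hzS : ∀ l, ∀ p ∈ S, ¬ (p : ℤ) ∣ z l) (hu : ∀ i ∈ T, SU S (u i))
    (hf0 : ∀ i ∈ T, f i ≠ 0) (hf : ∀ i ∈ T, f i = u i * ∏ l, (z l : ℚ) ^ e i l)
    (hsq : ∀ l, (∃ i ∈ T, e i l ≠ 0) → Squarefree (z l))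
    (hcop : ∀ l l', l ≠ l' → (∃ i ∈ T, e i l ≠ 0) → (∃ i ∈ T, e i l' ≠ 0) →
      IsCoprime (z l) (z l')) :
    ∑ p ∈ (∏ i ∈ T, (f i).num.natAbs).primeFactors \ S, Real.log p =
      ∑ l with ∃ i ∈ T, e i l ≠ 0, Real.log |(z l : ℝ)| := by
  classical
  have hprod0 : (∏ i ∈ T, (f i).num.natAbs) ≠ 0 :=
    Finset.prod_ne_zero_iff.2 fun i hi => Int.natAbs_ne_zero.2 (Rat.num_ne_zero.2 (hf0 i hi))
  have hset : (∏ i ∈ T, (f i).num.natAbs).primeFactors \ S =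
      (Finset.univ.filter fun l => ∃ i ∈ T, e i l ≠ 0).biUnion
        fun l => (z l).natAbs.primeFactors := by
    ext p
    rw [Finset.mem_sdiff, Finset.mem_biUnion, Nat.mem_primeFactors]
    constructor
    · rintro ⟨⟨hpp, hdvd, -⟩, hpS⟩
      obtain ⟨i, hi, hdi⟩ := ((Nat.prime_iff.1 hpp).dvd_finsetProd_iff _).1 hdvd
      obtain ⟨l, hl, hpl⟩ := (num_dvd_iff S hS p hpp hpS (f i) (u i) (hu i hi) (e i) z (hf i hi)).1 hdi
      refine ⟨l, Finset.mem_filter.2 ⟨Finset.mem_univ _, i, hi, hl⟩, ?_⟩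
      rw [Nat.mem_primeFactors]
      exact ⟨hpp, Int.natCast_dvd.1 hpl, Int.natAbs_ne_zero.2 (hz0 l)⟩
    · rintro ⟨l, hl, hpl⟩
      obtain ⟨-, i, hi, hil⟩ := Finset.mem_filter.1 hl
      obtain ⟨hpp, hdl, -⟩ := Nat.mem_primeFactors.1 hpl
      have hdl' : (p : ℤ) ∣ z l := Int.natCast_dvd.2 hdl
      have hpS : p ∉ S := fun h => hzS l p h hdl'
      have h1 := (num_dvd_iff S hS p hpp hpS (f i) (u i) (hu i hi) (e i) z (hf i hi)).2
        ⟨l, hil, hdl'⟩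
      exact ⟨⟨hpp, h1.trans (Finset.dvd_prod_of_mem (fun i => (f i).num.natAbs) hi), hprod0⟩, hpS⟩
  rw [hset, Finset.sum_biUnion]
  · refine Finset.sum_congr rfl fun l hl => ?_
    have h1 : Squarefree (z l).natAbs := Int.squarefree_natAbs.2 (hsq l (Finset.mem_filter.1 hl).2)
    have h2 := Nat.prod_primeFactors_of_squarefree h1
    have h3 : |(z l : ℝ)| = (((z l).natAbs : ℕ) : ℝ) := by
      rw [Nat.cast_natAbs, Int.cast_abs]
    rw [h3, ← h2]
    push_cast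
    rw [Real.log_prod]
    · rw [h2]
    · intro p hp
      have := (Nat.prime_of_mem_primeFactors hp).pos
      positivity
  · intro l hl l' hl' hne
    have h1 : IsCoprime (z l) (z l') := hcop l l' hne (Finset.mem_filter.1 hl).2
      (Finset.mem_filter.1 hl').2
    exact Nat.Coprime.disjoint_primeFactors (Int.isCoprime_iff_gcd_eq_one.1 h1)

end Pool.Agent.Q51.VY
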